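import Pool.Agent.Lib.MP_c86c76_al.Bi.Defs

/-!
The equivalence of arcs and the diagrams.
-/

set_option autoImplicit false

namespace Pool.Agent.MI

open Pool.Agent.MB Pool.Agent.MN Pool.Agent.MG Pool.Agent.MT
open FreeGroup hiding map_mul map_inv map_one

theorem Arc_ee {G : Type} [Group G] (r : G) (P : Prop) : pj r (ee r P) = 1 := by
  by_cases h : P
  · rw [ee_pos h, pj_r]
  · rw [ee_neg h, map_one]

variable {α : Type} [DecidableEq α] [Fintype α] (c : Ctx α)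

theorem Arc_xi (hT : TauSt) : ∀ ξ ∈ Xi c.r, (∃ m, ξ c.r = m * c.r * m⁻¹) ∧
    ∃ u, ∀ w, pj c.r (ξ w) = pj c.r u * pj c.r w * (pj c.r u)⁻¹ := by
  intro ξ hξ
  induction hξ using Subgroup.closure_induction with
  | mem τ h =>
    rcases h with ⟨D, s, hD, hs, hτ⟩ | ⟨u, rfl⟩
    · obtain ⟨-, -, ⟨m, e, -⟩, h2, -⟩ := ((hT α c D hD).2.2 s hs).2 τ hτ
      exact ⟨⟨m, e⟩, 1, fun w => by simpa using cg_iff.1 (h2 w)⟩
    · exact ⟨⟨u, rfl⟩, u, fun w => by simp only [MulAut.conj_apply, map_mul, map_inv]⟩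
  | one => exact ⟨⟨1, by simp⟩, 1, fun w => by simp⟩
  | mul ξ ξ' _ _ h h' =>
    obtain ⟨⟨m, e⟩, u, k⟩ := h
    obtain ⟨⟨m', e'⟩, u', k'⟩ := h'
    refine ⟨⟨ξ m' * m, ?_⟩, u * u', fun w => ?_⟩
    · rw [MulAut.mul_apply, e', map_mul, map_mul, map_inv, e]
      group
    · rw [MulAut.mul_apply, k, k', map_mul]
      group
  | inv ξ _ h =>
    obtain ⟨⟨m, e⟩, u, k⟩ := h
    refine ⟨⟨(ξ⁻¹ m)⁻¹, ?_⟩, u⁻¹, fun w => ?_⟩
    · have := congrArg (fun w => ξ⁻¹ w) e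
      simp only [MulAut.inv_apply_self, map_mul, map_inv] at this
      conv_rhs => rw [this]
      group
    · have := k (ξ⁻¹ w)
      rw [MulAut.apply_inv_self] at this
      rw [this, map_inv]
      group

theorem Arc_om (hO : OmSt) {D : List (FreeGroup α)} (hD : IsD c D) {s : FreeGroup α}
    {A E : List (FreeGroup α)} (e : D = A ++ s :: E) : ∃ ξ ∈ Xi c.r,
    ξ (A.prod⁻¹ * c.r * A.prod) = c.r ∧
    ∀ w ∈ D, ξ w = (ee c.r (Lo c.ρ s w))⁻¹ * w * ee c.r (Lo c.ρ s w⁻¹) := by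
  obtain ⟨n, -, p, -⟩ := (diaSt α c).2.2.2.2 D hD
  obtain ⟨ξ, h1, h2, h3⟩ := (hO α c D ((Xi c.r).prod ⊤) hD fun t ht τ hτ =>
    Subgroup.mem_prod.2 ⟨Subgroup.subset_closure (Or.inl ⟨D, t, hD, ht, hτ⟩), trivial⟩).1 s
    (by simp [e])
  rw [rot, Dual_pre_nodup n e, p] at h2
  exact ⟨ξ, (Subgroup.mem_prod.1 h1).1, h2, h3⟩

theorem Arc_key (hO : OmSt) (hR : RelSt) {ζ : FreeGroup α} {A E : List (FreeGroup α)}
    (hD : IsD c (A ++ ζ :: E)) : ∃ ξ ∈ Xi c.r, ξ c.r = c.r ∧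
    ξ (A.prod * ζ * A.prod⁻¹) = ζ * ee c.r (Lo c.ρ ζ ζ⁻¹) := by
  obtain ⟨ξ, h1, h2, h3⟩ := Arc_om c hO hD rfl
  refine ⟨ξ * MulAut.conj A.prod⁻¹, mul_mem h1 ((hR α).2.2.2.2.1 _ _), ?_, ?_⟩
  · rw [MulAut.mul_apply, MulAut.conj_apply, inv_inv, h2]
  · rw [MulAut.mul_apply, MulAut.conj_apply,
      show A.prod⁻¹ * (A.prod * ζ * A.prod⁻¹) * A.prod⁻¹⁻¹ = ζ by group, h3 ζ (by simp),
      ee_neg ((cycA α c.ρ).2.2.2.2.1 ζ), inv_one, one_mul]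

theorem Arc_tail {y : FreeGroup α} {E : List (FreeGroup α)} (hD : IsD c (y :: E)) : y⁻¹ ∈ E := by
  obtain ⟨h1, -, h2, -⟩ := ((diaSt α c).2.2.2.2 _ hD).2.2.2.1 y (by simp)
  exact (List.mem_cons.1 h1).resolve_left h2.symm

theorem Arc_head (hCh : ChSt) {y : FreeGroup α} (h : Hd c.r y) :
    Lo c.ρ y⁻¹ y ∧ ¬ Lo c.ρ y y⁻¹ := by
  obtain ⟨E, hD⟩ := h
  have k := (hCh α c).2.1 y E hD _ (Arc_tail c hD)
  exact ⟨k, fun k' => (cycA α c.ρ).2.2.2.2.1 y ((cycA α c.ρ).2.2.2.2.2.1 _ _ _ k' k)⟩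

theorem Arc_flip (hCh : ChSt) (hO : OmSt) (hR : RelSt) {y : FreeGroup α} (h : Hd c.r y) :
    Hd c.r (c.r * y⁻¹) := by
  have k := (Arc_head c hCh h).1
  obtain ⟨E, hD⟩ := h
  obtain ⟨A, E', e⟩ := List.append_of_mem (List.mem_cons_of_mem y (Arc_tail c hD))
  rw [e] at hD
  obtain ⟨ξ, -, h2, h3⟩ := Arc_key c hO hR hD
  have h4 := (hR α).2.1 (MulAut.conj c.r * ξ) _ _ ((hR α).2.2.1 _ _ _ _ hD)
  rw [MulAut.mul_apply, MulAut.mul_apply, h2, h3, inv_inv, ee_pos k, MulAut.conj_apply,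
    MulAut.conj_apply] at h4
  simpa only [mul_inv_cancel_right, ← mul_assoc] using h4

theorem arcSt (hCh : ChSt) (hT : TauSt) (hO : OmSt) (hR : RelSt) : ArcSt := by
  intro α _ _ c
  obtain ⟨-, r2, -, -, r5, r6, r7, -, r9, -⟩ := hR α
  refine ⟨fun ξ hξ => ?_, fun y ζ A E hy hD hp => ?_, fun y r' y' hy h => ?_,
    fun y h h' => ?_, fun y r' y' h => ?_, fun a ha => ?_, fun a V X hD => ?_⟩
  · obtain ⟨⟨m, e⟩, u, k⟩ := Arc_xi c hT ξ hξ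
    exact ⟨isConj_iff.2 ⟨m, e.symm⟩, u, fun w => cg_iff.2 (by
      rw [k, map_mul, map_mul, map_inv])⟩
  · obtain ⟨ξ, h1, h2, h3⟩ := Arc_key c hO hR hD
    obtain ⟨k1, k2⟩ := Arc_head c hCh hy
    refine r6 _ _ _ _ ⟨ξ, h1, h2, ?_⟩
    rcases hp with rfl | rfl
    · exact Or.inl (by rw [h3, ee_neg k2, mul_one])
    · exact Or.inr (by rw [h3, inv_inv, ee_pos k1])
  · obtain ⟨ξ, -, rfl, rfl | e⟩ := h
    · exact r2 ξ _ _ hy
    · have := r2 ξ _ _ (Arc_flip c hCh hO hR hy)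
      rwa [map_mul, map_inv, e, show ξ c.r * (y'⁻¹ * ξ c.r)⁻¹ = y' by group] at this
  · have := (Arc_head c hCh h').1
    rw [inv_inv] at this
    exact (Arc_head c hCh h).2 this
  · obtain ⟨ξ, h1, rfl, e⟩ := h
    obtain ⟨-, u, k⟩ := Arc_xi c hT ξ h1
    refine ⟨u, e.imp (fun e => cg_iff.2 ?_) fun e => cg_iff.2 ?_⟩
    · rw [← e, k, map_mul, map_mul, map_inv]
    · have := k y
      rw [e, map_mul, k, pj_r, map_inv, mul_one, mul_inv_cancel, mul_one, inv_eq_iff_eq_inv]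
        at this
      rw [this, map_mul, map_mul, map_inv, map_inv]
      group
  · obtain ⟨E, hD⟩ := ha
    have hm := Arc_tail c hD
    obtain ⟨b, E, rfl⟩ := List.exists_cons_of_ne_nil (List.ne_nil_of_mem hm)
    obtain ⟨ξ, h1, h2, h3⟩ := Arc_om c hO (A := [a]) hD rfl
    have l1 : Lo c.ρ b a := (hCh α c).2.1 a _ hD b (by simp)
    have l2 : Lo c.ρ b a⁻¹ := ((hCh α c).2.2.1 _ a⁻¹ b hD ⟨[], E, by simp⟩ a⁻¹
      (List.mem_cons_of_mem a hm)).2 (Or.inl rfl)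
    have e1 := h3 a (by simp)
    rw [ee_pos l1, ee_pos l2] at e1
    rw [List.prod_singleton, map_mul, map_mul, map_inv, e1] at h2
    refine ⟨MulAut.conj c.r * ξ, mul_mem (r5 _ _) h1, (hT α c _ hD).2.1 _ fun w hw => cg_iff.2 ?_,
      ?_, ?_⟩
    · rw [MulAut.mul_apply, MulAut.conj_apply, h3 w hw]
      simp only [map_mul, map_inv, pj_r, Arc_ee, inv_one, one_mul, mul_one]
    · rw [MulAut.mul_apply, MulAut.conj_apply, e1]
      group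
    · rw [MulAut.mul_apply, MulAut.conj_apply]
      calc c.r * ξ c.r * c.r⁻¹ = a * c.r * ((c.r⁻¹ * a * c.r)⁻¹ * ξ c.r * (c.r⁻¹ * a * c.r)) *
            (a * c.r)⁻¹ := by group
        _ = _ := by rw [h2]; group
  · obtain ⟨⟨τ, hτ⟩, k⟩ := (hT α c _ hD).2.2 a (by simp)
    obtain ⟨t1, -, t2, t3⟩ := (k τ hτ).2.2.2.2 [] V X rfl
    have p : c.r = a * V.prod * (a⁻¹ * X.prod) := by
      rw [← ((diaSt α c).2.2.2.2 _ hD).2.2.1, List.prod_append, List.prod_cons, List.prod_cons]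
    refine r7 _ _ _ _ _ _ (r9 _ a) ⟨MulAut.conj X.prod⁻¹ * τ, mul_mem (r5 _ _)
      (Subgroup.subset_closure (Or.inl ⟨_, a, hD, by simp, hτ⟩)), ?_, Or.inl ?_⟩ <;>
    · rw [MulAut.mul_apply, MulAut.conj_apply, p]
      simp only [map_mul, map_inv, t1, t2, t3, List.prod_nil]
      group

end Pool.Agent.MI
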