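import Pool.Agent.Lib.MP_c86c76_al.Bi.Defs

/-!
The order of the sides of a diagram.
-/

set_option autoImplicit false

namespace Pool.Agent.MI

open Pool.Agent.MB Pool.Agent.MN Pool.Agent.MG Pool.Agent.MT
open FreeGroup hiding map_mul map_inv map_one

section Lists

variable {β : Type}

theorem Ch_pred_unique {D : List β} (hD : D.Nodup) {u u' v : β} (h : Adj D u v)
    (h' : Adj D u' v) : u = u' := by
  obtain ⟨l1, l2, rfl⟩ := h
  obtain ⟨l1', l2', e⟩ := h'
  have e' : (l1 ++ [u]) ++ v :: l2 = (l1' ++ [u']) ++ v :: l2' := by simpa using e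
  have hn : ((l1 ++ [u]) ++ v :: l2).Nodup := by simpa using hD
  have h1 := List.nodup_append.1 hn
  have h2 := (List.append_cons_inj_of_notMem (fun hu => h1.2.2 v hu v (by simp) rfl)
    (List.nodup_cons.1 h1.2.1).1).1 e'
  simpa using (List.append_inj' h2.1 rfl).2

theorem Ch_head {a u : β} {E : List β} (hD : (a :: E).Nodup) : ¬ Adj (a :: E) u a := by
  rintro ⟨l1, l2, e⟩
  refine (List.nodup_cons.1 hD).1 ?_
  cases l1 with
  | nil =>
    rw [(List.cons.inj e).2]
    simp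
  | cons b l =>
    rw [(List.cons.inj e).2]
    simp

theorem Ch_last {z u : β} {E : List β} (hD : (E ++ [z]).Nodup) : ¬ Adj (E ++ [z]) z u := by
  rintro ⟨l1, l2, e⟩
  have h1 := List.nodup_append.1 hD
  have h2 := (List.append_cons_inj_of_notMem (fun hu => h1.2.2 z hu z (by simp) rfl)
    List.not_mem_nil).1 e
  exact List.cons_ne_nil _ _ h2.2.2.symm

end Lists

section Main

variable {α : Type} [DecidableEq α] [Fintype α] {c : Ctx α}

theorem Ch_top {a : FreeGroup α} {E : List (FreeGroup α)} (h : IsD c (a :: E)) :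
    ∀ s ∈ a :: E, s ≠ a → Relation.TransGen (fun s t => Adj (a :: E) t⁻¹ s) s a := by
  intro s hs hne
  refine (ord_tot cycA diaSt plA h s hs a (by simp) hne).resolve_right fun e => ?_
  obtain ⟨t, e1, -⟩ := Relation.TransGen.head'_iff.1 e
  exact Ch_head ((diaSt α c).2.2.2.2 _ h).1 e1

theorem Ch_ind (a : FreeGroup α) (E : List (FreeGroup α)) (Q : FreeGroup α → Prop)
    (h : IsD c (a :: E)) (ha : Q a) (hQ : ∀ t u, Adj (a :: E) t⁻¹ u → Q t → Q u) :
    ∀ s ∈ a :: E, Q s := by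
  intro s hs
  by_cases hne : s = a
  · exact hne ▸ ha
  have e := (Ch_top h s hs hne).to_reflTransGen
  clear hs hne
  induction e using Relation.ReflTransGen.head_induction_on with
  | refl => exact ha
  | head e _ ih => exact hQ _ _ e ih

theorem Ch_gen (D : List (FreeGroup α)) (h : IsD c D) :
    Subgroup.closure (DualLoop D '' {s | s ∈ D}) = ⊤ := by
  obtain ⟨d1, -, -, d2, d3⟩ := (diaSt α c).2.2.2.2 D h
  have hl : ∀ s ∈ D, DualLoop D s ∈ Subgroup.closure (DualLoop D '' {s | s ∈ D}) :=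
    fun s hs => Subgroup.subset_closure ⟨s, hs, rfl⟩
  generalize Subgroup.closure (DualLoop D '' {s | s ∈ D}) = H at hl ⊢
  have hp : ∀ s ∈ D, DualPre D s ∈ H := by
    cases D with
    | nil => intro s hs; simp at hs
    | cons a E =>
      refine Ch_ind a E _ h ?_ fun t u e ht => ?_
      · rw [Dual_pre_nodup (l1 := []) d1 rfl]
        exact one_mem _
      · have h1 := mul_mem (hl _ (d3 _ _ e).1) ht
        obtain ⟨l1, l2, e⟩ := e
        rw [DualLoop, inv_inv, inv_mul_cancel_right, Dual_pre_nodup d1 e] at h1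
        rw [Dual_pre_nodup (l1 := l1 ++ [t⁻¹]) (l2 := l2) d1 (by simp [e])]
        simpa using h1
  have hs : ∀ s ∈ D, s ∈ H := by
    intro s hs
    have h1 := mul_mem (mul_mem (inv_mem (hp s hs)) (hl s hs)) (hp _ (d2 s hs).1)
    simpa [DualLoop, mul_assoc] using h1
  obtain ⟨θ, W, hW, e, -⟩ := h
  have h2 : H.comap θ.toMonoidHom = ⊤ := by
    rw [eq_top_iff, ← FreeGroup.closure_range_of, Subgroup.closure_le]
    rintro _ ⟨x, rfl⟩
    exact hs _ (e ▸ List.mem_map.2 ⟨(x, true), hW.2 _, rfl⟩)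
  rw [eq_top_iff]
  intro g _
  have h3 : θ.symm g ∈ H.comap θ.toMonoidHom := h2 ▸ Subgroup.mem_top _
  simpa using h3

open Classical in
theorem Ch_ctx (θ : MulAut (FreeGroup α)) (W : List (α × Bool)) (hW : Full W)
    (h : θ (mk W) = c.r) : ∃ c' : Ctx α, c'.W = W := by
  have hD : IsD c (W.map fun l => θ (lt l)) := ⟨θ, W, hW, rfl, (Dia_map_prod θ W).trans h⟩
  have hc := cycA α c.ρ
  refine ⟨⟨W, fun l => (Finset.univ.filter fun u : α × Bool =>
    Lo c.ρ (θ (lt u)) (θ (lt l))).card, hW, fun σ x hx => c.ess (σ * θ⁻¹) x ?_,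
    fun u v huv => ?_⟩, rfl⟩
  · have e : mk c.W = θ (mk W) := h.symm
    rw [e]
    simpa using hx
  · have h1 : Lo c.ρ (θ (lt v)) (θ (lt (bar u))) := by
      rw [Dia_lt_bar, map_inv]
      exact (plA _ c _ hD).1 _ _ (ord_adj_map (fun l => θ (lt l)) huv)
    refine Finset.card_lt_card ⟨fun w hw => ?_, fun hs => ?_⟩
    · exact Finset.mem_filter.2 ⟨Finset.mem_univ _,
        hc.2.2.2.2.2.1 _ _ _ (Finset.mem_filter.1 hw).2 h1⟩
    · exact hc.2.2.2.2.1 _
        (Finset.mem_filter.1 (hs (Finset.mem_filter.2 ⟨Finset.mem_univ v, h1⟩))).2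

end Main

theorem chSt : ChSt := by
  intro α _ _ c
  have hi := (cycA α c.ρ).2.2.2.2.1
  have ht := (cycA α c.ρ).2.2.2.2.2.1
  refine ⟨Ch_ind, fun a E h s hs => ?_, fun D t u h e w hw => ?_, fun E z h w hw => ?_, Ch_gen,
    Ch_ctx⟩
  · exact ord_lo cycA plA h (Ch_top h s (List.mem_cons_of_mem _ hs) fun e =>
      (List.nodup_cons.1 ((diaSt α c).2.2.2.2 _ h).1).1 (e ▸ hs))
  · obtain ⟨d1, -, -, -, d3⟩ := (diaSt α c).2.2.2.2 D h
    have e1 : Lo c.ρ u t := ord_lo cycA plA h (Relation.TransGen.single e)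
    refine ⟨fun e2 => ?_, fun e2 => e2.elim (fun e3 => e3 ▸ e1) (ht _ _ _ e1)⟩
    obtain ⟨s, e3, e4⟩ := Relation.TransGen.head'_iff.1
      ((ord_tot cycA diaSt plA h u (d3 _ _ e).2.1 w hw fun e' => hi w (e' ▸ e2)).resolve_right
        fun e' => hi u (ht _ _ _ e2 (ord_lo cycA plA h e')))
    obtain rfl : s = t := inv_injective (Ch_pred_unique d1 e3 e)
    exact (Relation.reflTransGen_iff_eq_or_transGen.1 e4).imp id (ord_lo cycA plA h)
  · obtain ⟨d1, -, -, d2, -⟩ := (diaSt α c).2.2.2.2 _ h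
    refine or_iff_not_imp_left.2 fun hne => ord_lo cycA plA h
      ((ord_tot cycA diaSt plA h w hw _ (d2 z (by simp)).1 hne).resolve_left fun e => ?_)
    obtain ⟨s, -, e1⟩ := Relation.TransGen.tail'_iff.1 e
    rw [inv_inv] at e1
    exact Ch_last d1 e1

end Pool.Agent.MI
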