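import Pool.Agent.Lib.MP_c86c76_al.Bi.Defs

/-!
Counting letters in reduced words.
-/

set_option autoImplicit false

namespace Pool.Agent.MI

open Pool.Agent.MB Pool.Agent.MN Pool.Agent.MG Pool.Agent.MT
open FreeGroup hiding map_mul map_inv map_one

variable {α : Type} [DecidableEq α]

theorem Cn_mk {x : α} {L : List (α × Bool)} (h : IsReduced L) :
    cn x (mk L) = L.countP fun l => l.1 = x := by
  rw [cn, toWord_mk, h.reduce_eq]

theorem Cn_invRev (x : α) (L : List (α × Bool)) :
    ((invRev L).countP fun l => l.1 = x) = L.countP fun l => l.1 = x := by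
  simp [invRev, List.countP_map, Function.comp_def]

theorem Cn_mul (x : α) (u v : FreeGroup α) : cn x (u * v) ≤ cn x u + cn x v := by
  have := (toWord_mul_sublist u v).countP_le (p := fun l => l.1 = x)
  rwa [List.countP_append] at this

theorem Cn_inv (x : α) (u : FreeGroup α) : cn x u⁻¹ = cn x u := by
  rw [cn, toWord_inv, Cn_invRev, cn]

theorem Cn_zero (x : α) (u : FreeGroup α) : cn x u = 0 ↔ u ∈ Fr {x} := by
  refine ⟨fun h => ?_, fun h => ?_⟩
  · rw [← mk_toWord (x := u)]
    exact ex_mk_mem x _ fun l hl => by simpa using List.countP_eq_zero.1 h l hl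
  · induction h using Subgroup.closure_induction with
    | mem w hw =>
      obtain ⟨b, hb, rfl⟩ := hw
      have hb : b ≠ x := hb
      simp [cn, hb]
    | one => simp [cn]
    | mul u v _ _ hu hv => have := Cn_mul x u v; omega
    | inv u _ hu => rw [Cn_inv, hu]

theorem Cn_fr (x : α) (u f : FreeGroup α) (hf : f ∈ Fr {x}) :
    cn x (u * f) = cn x u ∧ cn x (f * u) = cn x u := by
  have h0 := (Cn_zero x f).2 hf
  have h1 := Cn_inv x f
  have a1 := Cn_mul x u f
  have a2 := Cn_mul x (u * f) f⁻¹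
  have a3 := Cn_mul x f u
  have a4 := Cn_mul x f⁻¹ (f * u)
  rw [mul_inv_cancel_right] at a2
  rw [inv_mul_cancel_left] at a4
  omega

theorem Cn_lt_word (s : α × Bool) : (lt s).toWord = [s] := by
  rw [lt, toWord_mk, reduce_singleton]

omit [DecidableEq α] in
theorem Cn_red_inv {L : List (α × Bool)} (h : IsReduced L) : IsReduced (invRev L) := by
  classical
  rw [isReduced_iff_reduce_eq] at h ⊢
  rw [reduce_invRev, h]

/-- Different first letters: no cancellation. -/
theorem Cn_red {p q : FreeGroup α} (h : ∀ a ∈ p.toWord.head?, ∀ b ∈ q.toWord.head?, a ≠ b) :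
    IsReduced (invRev p.toWord ++ q.toWord) := by
  refine List.IsChain.append (Cn_red_inv isReduced_toWord) isReduced_toWord ?_
  intro a ha b hb e
  cases hp : p.toWord with
  | nil => simp [hp] at ha
  | cons c t =>
    have : a = (c.1, !c.2) := by
      simp [hp, invRev] at ha
      exact ha.symm
    subst this
    have := h c (by simp [hp]) b hb
    rcases c with ⟨c1, c2⟩
    rcases b with ⟨b1, b2⟩
    simp only at e
    subst e
    cases c2 <;> cases b2 <;> simp_all

theorem Cn_add (x : α) {p q : FreeGroup α}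
    (h : ∀ a ∈ p.toWord.head?, ∀ b ∈ q.toWord.head?, a ≠ b) :
    cn x (p⁻¹ * q) = cn x p + cn x q := by
  have : p⁻¹ * q = mk (invRev p.toWord ++ q.toWord) := by
    rw [← mul_mk, ← inv_mk, mk_toWord, mk_toWord]
  rw [this, Cn_mk (Cn_red h), List.countP_append, Cn_invRev, cn, cn]

theorem Cn_one (s : α × Bool) : cn s.1 (lt s) = 1 := by simp [cn, Cn_lt_word]

theorem Cn_split (s : α × Bool) (w : FreeGroup α) (h : s ∈ w.toWord) :
    ∃ g, ¬ Hs s g ∧ Hs s (g * w) := by
  obtain ⟨w1, w2, e⟩ := List.append_of_mem h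
  have hr : IsReduced (w1 ++ s :: w2) := e ▸ isReduced_toWord
  refine ⟨(mk w1)⁻¹, ?_, ?_⟩
  · have h1 : IsReduced w1 := List.IsChain.left_of_append hr
    rw [Hs, toWord_inv, toWord_mk, h1.reduce_eq]
    intro k
    obtain rfl | ⟨t, c, rfl⟩ := List.eq_nil_or_concat w1
    · simp at k
    · have e2 : (c.1, !c.2) = s := by simpa [invRev] using k
      have hr' : IsReduced (t ++ c :: s :: w2) := by simpa using hr
      have := (List.isChain_append_cons_cons.1 hr').2.1 (by rw [← e2])
      rw [← e2] at this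
      simp at this
  · have h2 : IsReduced (s :: w2) := List.IsChain.right_of_append hr
    rw [Hs, ← mk_toWord (x := w), e, ← mul_mk, inv_mul_cancel_left, toWord_mk, h2.reduce_eq]
    rfl

theorem Cn_form (s : α × Bool) (W : List (α × Bool)) : ∃ h ∈ Fr {s.1},
    ∃ L : List (ℤˣ × FreeGroup α), (∀ p ∈ L, p.2 ∈ Fr {s.1}) ∧
      mk W = h * (L.map fun p => lt s ^ (p.1 : ℤ) * p.2).prod ∧
      L.length = W.countP fun l => l.1 = s.1 := by
  induction W with
  | nil => exact ⟨1, one_mem _, [], by simp, by simp [ex_mk_nil], rfl⟩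
  | cons l W ih =>
    obtain ⟨h, h1, L, h2, h3, h4⟩ := ih
    by_cases e : l.1 = s.1
    · have : ∃ ε : ℤˣ, lt l = lt s ^ (ε : ℤ) := by
        rcases Dia_eq_or_bar e with rfl | rfl
        · exact ⟨1, by simp⟩
        · exact ⟨-1, by simp [Dia_lt_bar]⟩
      obtain ⟨ε, k⟩ := this
      refine ⟨1, one_mem _, (ε, h) :: L, ?_, ?_, by simp [e, h4]⟩
      · intro p hp
        rcases List.mem_cons.1 hp with rfl | hp
        · exact h1
        · exact h2 p hp
      · rw [ex_mk_cons, h3, k]
        simp [mul_assoc]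
    · exact ⟨lt l * h, mul_mem (Dia_mem_Fr e) h1, L, h2, by rw [ex_mk_cons, h3, mul_assoc],
        by simp [e, h4]⟩

theorem cnSt : CnSt := by
  intro α _
  refine ⟨Cn_mul, Cn_inv, Cn_zero, Cn_fr, fun s => ⟨Cn_one s, by simp [Hs, Cn_lt_word], by simp [Hs]⟩,
    ?_, ?_, ?_, ?_, ?_⟩
  · intro s w h
    obtain ⟨t, e⟩ := List.head?_eq_some_iff.1 h
    have hr : IsReduced (s :: t) := e ▸ isReduced_toWord
    have : (lt s)⁻¹ * w = mk t := by
      rw [← mk_toWord (x := w), e, ex_mk_cons, inv_mul_cancel_left]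
    rw [this, Cn_mk (L := t) (List.IsChain.tail hr), cn, e]
    simp
  · intro s w h
    rw [Cn_add, Cn_one, add_comm]
    intro a ha b hb e
    rw [Cn_lt_word] at ha
    obtain rfl : s = a := by simpa using ha
    exact h (e ▸ hb)
  · intro x s p q hp hq
    refine Cn_add x fun a ha b hb e => hp ?_
    have : b = s := Option.some_injective _ ((Option.mem_def.1 hb).symm.trans hq)
    exact this ▸ e ▸ ha
  · intro s y h
    obtain ⟨l, hl, e⟩ := List.countP_pos_iff.1 (Nat.pos_of_ne_zero h)
    rcases Dia_eq_or_bar (l := s) (u := l) (by simpa using e) with rfl | rfl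
    · obtain ⟨g, h1, h2⟩ := Cn_split l y hl
      exact ⟨g, y, Or.inl rfl, h1, h2⟩
    · obtain ⟨g, h1, h2⟩ := Cn_split s y⁻¹ (by
        rw [toWord_inv, invRev, List.mem_reverse]
        exact List.mem_map.2 ⟨bar s, hl, by simp [bar]⟩)
      exact ⟨g, y⁻¹, Or.inr rfl, h1, h2⟩
  · intro s w
    obtain ⟨h, h1, L, h2, h3, h4⟩ := Cn_form s w.toWord
    exact ⟨h, h1, L, h2, by rw [← h3, mk_toWord], h4⟩

end Pool.Agent.MI
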