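import Pool.Agent.Lib.MP_c86c76_al.Bi.Defs

/-!
The base group embeds in the one-relator group; conjugacy of elements of the base group.
-/

set_option autoImplicit false

namespace Pool.Agent.MI

open Pool.Agent.MB Pool.Agent.MN Pool.Agent.MG Pool.Agent.MT
open FreeGroup hiding map_mul map_inv map_one

theorem Col_chain {G : Type} [Group G] (A B : Subgroup G) (L : List (ℤˣ × G)) (e : ℤˣ) (h h' : G)
    (H : (L ++ [(e, h)]).IsChain
      (fun a b => a.2 ∈ HNNExtension.toSubgroup A B a.1 → a.1 = b.1)) :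
    (L ++ [(e, h')]).IsChain
      (fun a b => a.2 ∈ HNNExtension.toSubgroup A B a.1 → a.1 = b.1) := by
  rw [List.isChain_append] at H ⊢
  refine ⟨H.1, List.isChain_singleton _, ?_⟩
  intro x hx y hy
  simp only [List.head?_cons, Option.mem_def, Option.some.injEq] at hy
  subst hy
  exact H.2.2 x hx (e, h) (by simp)

/-- An element that conjugates a base element to a base element. -/
theorem Col_key {G : Type} [Group G] (A B : Subgroup G) (φ : A ≃* B) (g : HNNExtension G A B φ)
    (f f' : G) (h : g * HNNExtension.of f * g⁻¹ = HNNExtension.of f') :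
    (∃ c, g = HNNExtension.of c) ∨ ∃ c : G, c⁻¹ * f' * c ∈ A ∨ c⁻¹ * f' * c ∈ B := by
  obtain ⟨d⟩ := HNNExtension.NormalWord.TransversalPair.nonempty G A B
  obtain ⟨w, rfl⟩ := (HNNExtension.NormalWord.equiv φ d).symm.surjective g
  obtain ⟨⟨c, L, hL⟩, hs⟩ := w
  change HNNExtension.NormalWord.ReducedWord.prod φ ⟨c, L, hL⟩ * HNNExtension.of f *
    (HNNExtension.NormalWord.ReducedWord.prod φ ⟨c, L, hL⟩)⁻¹ = _ at h
  change (∃ c', HNNExtension.NormalWord.ReducedWord.prod φ ⟨c, L, hL⟩ = _) ∨ _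
  clear hs
  rcases List.eq_nil_or_concat L with rfl | ⟨L0, ⟨e, k⟩, rfl⟩
  · left
    exact ⟨c, by simp [HNNExtension.NormalWord.ReducedWord.prod]⟩
  · right
    rw [List.concat_eq_append] at hL
    have hL' := Col_chain A B L0 e k (k * f) hL
    have hp : HNNExtension.NormalWord.ReducedWord.prod φ ⟨c, L0 ++ [(e, k * f)], hL'⟩ =
        HNNExtension.NormalWord.ReducedWord.prod φ ⟨f' * c, L0 ++ [(e, k)], hL⟩ := by
      rw [mul_inv_eq_iff_eq_mul] at h
      simp only [HNNExtension.NormalWord.ReducedWord.prod, List.concat_eq_append, List.map_append,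
        List.map_cons, List.map_nil, List.prod_append, List.prod_cons, List.prod_nil, mul_one,
        map_mul, mul_assoc] at h ⊢
      exact h
    have h2 := (HNNExtension.ReducedWord.map_fst_eq_and_of_prod_eq φ hp).2
    obtain ⟨u, hu⟩ : ∃ u, u ∈ (L0 ++ [(e, k * f)]).head?.map Prod.fst := by
      cases L0 <;> simp
    have h3 := h2 u hu
    refine ⟨c, ?_⟩
    rw [mul_assoc]
    rcases Int.units_eq_one_or u with rfl | rfl
    · right
      simpa using h3
    · left
      simpa using h3

theorem colSt (hH : HnSt) : ColSt := by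
  intro α _ l V X r hV hX hV1 hX1 hr f hf f' hf'
  obtain ⟨φ, Ψ, -, hb, h1, hk⟩ := hH α l V X hV hX hV1 hX1
  subst hr
  refine ⟨fun h => ?_, fun u h => ?_⟩
  · have := h.hom Ψ h1
    rw [hb f hf, hb f' hf'] at this
    exact HNNExtension.of_injective φ this
  · have := h.hom Ψ h1
    rw [map_mul, map_mul, map_inv, hb f hf, hb f' hf'] at this
    rcases Col_key _ _ φ _ f f' this with ⟨c, hc⟩ | ⟨c, ⟨k, hc⟩ | ⟨k, hc⟩⟩
    · exact Or.inl (hk u c hc)
    · refine Or.inr ⟨k, Or.inl (isConj_iff.2 ⟨c, ?_⟩)⟩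
      simp only at hc
      rw [hc]
      group
    · refine Or.inr ⟨k, Or.inr (isConj_iff.2 ⟨c, ?_⟩)⟩
      simp only at hc
      rw [hc]
      group

end Pool.Agent.MI
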