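import Pool.Agent.Lib.MP_c86c76_al.Bi.Defs

/-!
A side of a diagram is replaced by a diagonal.
-/

set_option autoImplicit false

namespace Pool.Agent.MI

open Pool.Agent.MB Pool.Agent.MN Pool.Agent.MG Pool.Agent.MT
open FreeGroup hiding map_mul map_inv map_one

theorem Ex_avoid {α : Type} {l : α × Bool} {A B E : List (α × Bool)}
    (h : (A ++ l :: B ++ bar l :: E).Nodup) : ∀ u, u ∈ A ∨ u ∈ B ∨ u ∈ E → u.1 ≠ l.1 := by
  have hp : (A ++ l :: B ++ bar l :: E).Perm (l :: bar l :: (A ++ B ++ E)) := by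
    refine List.perm_middle.trans ?_
    rw [List.append_assoc, List.cons_append, List.append_assoc]
    exact (List.perm_middle.cons _).trans (List.Perm.swap _ _ _)
  have h' := hp.nodup_iff.1 h
  simp only [List.nodup_cons, List.mem_cons, List.mem_append, not_or] at h'
  intro u hu e
  rcases Dia_eq_or_bar e with rfl | rfl <;> tauto

theorem Ex_map {α : Type} {θ ψ : MulAut (FreeGroup α)} {x : α} (h : ∀ w ∈ Fr {x}, ψ w = w)
    {A : List (α × Bool)} (hA : ∀ u ∈ A, u.1 ≠ x) :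
    A.map (fun u => (θ * ψ) (lt u)) = A.map fun u => θ (lt u) :=
  List.map_congr_left fun u hu => by rw [MulAut.mul_apply, h _ (Dia_mem_Fr (hA u hu))]

theorem exSt : ExSt := by
  rintro α _ r s d A B E ⟨θ, W, hW, e, hr⟩
  obtain ⟨W1, W2, rfl, e1, e2⟩ := List.map_eq_append_iff.1 e.symm
  obtain ⟨A0, W3, rfl, rfl, e3⟩ := List.map_eq_append_iff.1 e1
  obtain ⟨l, B0, rfl, rfl, rfl⟩ := List.map_eq_cons_iff.1 e3
  obtain ⟨l2, E0, rfl, e4, rfl⟩ := List.map_eq_cons_iff.1 e2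
  rw [← map_inv, ← Dia_lt_bar] at e4
  obtain rfl := Dia_lt_inj (θ.injective e4)
  have av := Ex_avoid hW.1
  have hA : ∀ u ∈ A0, u.1 ≠ l.1 := fun u hu => av u (Or.inl hu)
  have hB : ∀ u ∈ B0, u.1 ≠ l.1 := fun u hu => av u (Or.inr (Or.inl hu))
  have hE : ∀ u ∈ E0, u.1 ≠ l.1 := fun u hu => av u (Or.inr (Or.inr hu))
  have full : ∀ W', W'.Perm (A0 ++ l :: B0 ++ bar l :: E0) → Full W' := fun W' hp =>
    ⟨hp.nodup_iff.2 hW.1, fun u => hp.mem_iff.2 (hW.2 u)⟩
  constructor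
  · rintro rfl
    obtain ⟨ψ, k1, -, k2⟩ := ex_aut l (mk A0) (mk B0) (ex_mk_mem _ _ hA) (ex_mk_mem _ _ hB)
    have k3 : (θ * ψ) (lt l) = θ (mk A0) * θ (lt l) * θ (mk B0) := by
      rw [MulAut.mul_apply, k1, map_mul, map_mul]
    refine ⟨θ * ψ, l :: B0 ++ bar l :: A0 ++ E0, full _ ?_, ?_, ?_⟩
    · rw [List.perm_iff_count]
      intro u
      simp only [List.count_append, List.count_cons]
      omega
    · simp only [List.map_append, List.map_cons, Ex_map k2 hA, Ex_map k2 hB, Ex_map k2 hE,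
        Dia_lt_bar, map_inv, k3, Dia_map_prod]
    · rw [← hr]
      simp only [List.prod_append, List.prod_cons]
      group
  · rintro rfl
    obtain ⟨ψ, k1, -, k2⟩ := ex_aut (bar l) (mk B0) (mk E0) (ex_mk_mem _ _ hB) (ex_mk_mem _ _ hE)
    have k3 : (θ * ψ) (lt (bar l)) = θ (mk B0) * (θ (lt l))⁻¹ * θ (mk E0) := by
      rw [MulAut.mul_apply, k1, map_mul, map_mul, Dia_lt_bar, map_inv]
    have k4 : (θ * ψ) (lt l) = (θ (mk B0) * (θ (lt l))⁻¹ * θ (mk E0))⁻¹ := by
      rw [← k3, Dia_lt_bar, map_inv, inv_inv]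
    refine ⟨θ * ψ, A0 ++ E0 ++ l :: B0 ++ [bar l], full _ ?_, ?_, ?_⟩
    · rw [List.perm_iff_count]
      intro u
      simp only [List.count_append, List.count_cons, List.count_nil]
      omega
    · simp only [List.map_append, List.map_cons, List.map_nil, Ex_map k2 hA, Ex_map k2 hB,
        Ex_map k2 hE, k3, k4, Dia_map_prod]
    · rw [← hr]
      simp only [List.prod_append, List.prod_cons, List.prod_nil]
      group

end Pool.Agent.MI
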