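import Pool.Agent.Lib.MP_c86c76_al.Bi.Gam

/-!
Arcs that are freely homotopic to the first arc in the closed surface.
-/

set_option autoImplicit false

namespace Pool.Agent.MI

open Pool.Agent.MB Pool.Agent.MN Pool.Agent.MG Pool.Agent.MT
open FreeGroup hiding map_mul map_inv map_one

theorem Fin_cv (hC : ColSt) (h : ℕ) {z t : FN (2 * h + 2)} (hz : z ∈ Fr {Gam_b h}) {e : ℤ}
    (he : e = 1 ∨ e = -1) (k : Cg (rr h) (t * aa h ^ e * t⁻¹) z) :
    Cv (aa h) z ∨ Cv (aa h * ev (2 * h + 2) (rW h)) z := by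
  have ha : aa h ^ e ∈ Fr {Gam_b h} := zpow_mem (Gam_io le_rfl) _
  have cv : ∀ (x : FN (2 * h + 2)) (j : ℤ), j = 1 ∨ j = -1 → IsConj (x ^ j) z → Cv x z := by
    rintro x j (rfl | rfl) q
    · exact Or.inl (by simpa only [zpow_one] using q)
    · exact Or.inr (by simpa only [zpow_neg, zpow_one] using q)
  have c1 := k.ch (Gam_null _ _) (Pi.single ⟨2 * h, by omega⟩ 1)
  simp only [ch_mul, ch_inv, Gam_ch_zpow, Gam_a] at c1
  rcases (Gam_col hC h _ ha z hz).2 t k with ⟨u, hu, q⟩ | ⟨j, q | q⟩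
  · have := (Gam_col hC h _ (mul_mem (mul_mem hu ha) (inv_mem hu)) z hz).1 (by
      simp only [cg_iff, map_mul, map_inv] at k q ⊢
      rw [← q, k])
    exact Or.inl (cv _ e he (isConj_iff.2 ⟨u, this⟩))
  · have c2 := ch_conj q (Pi.single ⟨2 * h, by omega⟩ 1)
    simp only [ch_inv, Gam_ch_zpow, Gam_a] at c2
    rw [inv_zpow'] at q
    exact Or.inl (cv _ _ (by omega) q)
  · have c2 := ch_conj q (Pi.single ⟨2 * h, by omega⟩ 1)
    simp only [ch_mul, Gam_ch_zpow, Gam_a, Gam_null _ _ _] at c2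
    refine Or.inr (cv _ j (by omega) (IsConj.trans (isConj_iff.2 ⟨(aa h)⁻¹, ?_⟩) q))
    rw [← conj_zpow]
    congr 1
    group

theorem finSt (hCh : ChSt) (hR : RelSt) (hA : ArcSt) (hS : ShSt) (hC : ColSt) (h1 : P1St)
    (h2 : P2St) : FinSt := by
  intro h _ y u hy hu
  obtain ⟨-, -, c, hc⟩ := rwASt (2 * h + 2) (h + 1) rfl
  have hr : c.r = rr h := by rw [Ctx.r, hc, rr, Raw_ev]
  obtain ⟨A, hA1⟩ : ∃ A : Fin (2 * h + 2) × Bool, A = (⟨2 * h, by omega⟩, true) := ⟨_, rfl⟩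
  obtain ⟨B, hB1⟩ : ∃ B : Fin (2 * h + 2) × Bool, B = (Gam_b h, true) := ⟨_, rfl⟩
  obtain ⟨R, hR1⟩ : ∃ R, R = fw (2 * h + 2) (rW h) := ⟨_, rfl⟩
  have e : c.W = A :: B :: bar A :: bar B :: R := by
    have a : 2 * h < 2 * h + 2 := by omega
    have b : 2 * h + 1 < 2 * h + 2 := by omega
    rw [hc, rW, hA1, hB1, hR1]
    simp only [hd, fw, dif_pos a, dif_pos b, List.cons_append, List.nil_append,
      List.filterMap_cons]
    rfl
  have ea : lt A = aa h := hA1 ▸ (io_of (⟨2 * h, by omega⟩ : Fin (2 * h + 2))).symm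
  have er : mk R = ev (2 * h + 2) (rW h) := by rw [hR1, Raw_ev]
  have e1 : rr h = aa h * lt B * (aa h)⁻¹ * (lt B)⁻¹ * mk R := by
    rw [← hr, Ctx.r, e]
    simp only [ex_mk_cons, Dia_lt_bar, ea, mul_assoc]
  have e2 : mk (B :: [bar A] ++ bar B :: (R ++ [A])) = (aa h)⁻¹ * rr h * aa h := by
    rw [e1]
    simp only [List.cons_append, List.nil_append, ex_mk_cons, ex_mk_append, ex_mk_nil, Dia_lt_bar,
      ea]
    group
  have pm : (B :: [bar A] ++ bar B :: (R ++ [A])).Perm c.W := by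
    rw [e, List.perm_iff_count]
    intro u
    simp only [List.count_append, List.count_cons, List.count_nil]
    omega
  obtain ⟨cA, hcA⟩ := (hCh _ c).2.2.2.2.2 (MulAut.conj (aa h)) _
    ⟨pm.nodup_iff.2 c.full.1, fun u => pm.mem_iff.2 (c.full.2 u)⟩ (by
      rw [e2, hr, MulAut.conj_apply]
      group)
  obtain ⟨-, -, -, -, -, ⟨c', hc'⟩, -⟩ := hS _ cA B [bar A] (R ++ [A]) hcA
  have r1 : cA.r = (aa h)⁻¹ * rr h * aa h := by rw [Ctx.r, hcA, e2]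
  have r2 : rr h = (aa h * lt B * (aa h)⁻¹)⁻¹⁻¹ * c'.r * (aa h * lt B * (aa h)⁻¹)⁻¹ := by
    rw [Ctx.r, hc', e1]
    simp only [List.cons_append, ex_mk_cons, ex_mk_append, ex_mk_nil, Dia_lt_bar, ea]
    group
  obtain ⟨-, -, -, -, -, sy, tr, cj, fl, -⟩ := hR (Fin (2 * h + 2))
  obtain ⟨-, -, a3, -, a5, -, a7⟩ := hA _ c
  have p2 := h2 _ c
  rw [hr] at a3 a5 a7 p2
  have q0 := cj _ y (aa h) _ _ r1 rfl
  obtain ⟨z, hz, q1⟩ := h1 _ cA c' B [bar A] (R ++ [A]) hcA hc' _ (u * aa h) (aa h)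
    (hB1 ▸ Gam_io le_rfl) (a3 _ _ _ hy q0) (by
      convert hu.conj (r' := cA.r) (isConj_iff.2 ⟨(aa h)⁻¹, by rw [inv_inv, r1]⟩) using 1
      group)
  obtain ⟨v, q2⟩ : ∃ v, Rel (rr h) y (rr h) (v⁻¹ * z * v) := by
    rcases q1 with q1 | q1
    · exact ⟨(aa h)⁻¹, tr _ _ _ _ _ _ (tr _ _ _ _ _ _ q0 q1)
        (cj _ _ _ _ _ (by rw [r1]; group) rfl)⟩
    · exact ⟨_, tr _ _ _ _ _ _ (tr _ _ _ _ _ _ q0 q1) (cj _ _ _ _ _ r2 rfl)⟩
  have hd1 := a3 _ _ _ hy q2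
  have d0 : IsD c (aa h :: [lt B] ++ (aa h)⁻¹ :: (lt B)⁻¹ :: R.map lt) := by
    have := (diaSt _ c).2.1
    rwa [Ctx.D0, e, List.map_cons, List.map_cons, List.map_cons, List.map_cons, Dia_lt_bar,
      Dia_lt_bar, ea] at this
  have ha : Hd (rr h) (aa h) := hr ▸ ⟨_, d0⟩
  have key : Cv (aa h) z ∨ Cv (aa h * ev (2 * h + 2) (rW h)) z := by
    rw [hB1] at hz
    obtain ⟨w, k | k⟩ := a5 _ _ _ q2
    · refine Fin_cv hC h hz (t := v * w * u⁻¹) (Or.inl rfl) ?_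
      simp only [cg_iff, map_mul, map_inv, zpow_one] at k hu ⊢
      rw [← hu, ← mul_right_inj (pj (rr h) v)⁻¹, ← mul_left_inj (pj (rr h) v), k]
      group
    · refine Fin_cv hC h hz (t := v * w * u⁻¹) (Or.inr rfl) ?_
      simp only [cg_iff, map_mul, map_inv, zpow_neg, zpow_one] at k hu ⊢
      rw [← hu, ← mul_right_inj (pj (rr h) v)⁻¹, ← mul_left_inj (pj (rr h) v), k]
      group
  have cz : IsConj z (v⁻¹ * z * v) := isConj_iff.2 ⟨v⁻¹, by rw [inv_inv]⟩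
  rcases key with k | k
  · exact tr _ _ _ _ _ _ q2 (p2 _ _ ha hd1 (k.imp (·.trans cz) (·.trans cz)))
  · have q3 : Rel (rr h) (aa h) (rr h) (aa h * ev (2 * h + 2) (rW h)) := by
      convert tr _ _ _ _ _ _ (tr _ _ _ _ _ _ (a7 _ _ _ d0)
        (cj _ _ (rr h)⁻¹ (rr h) _ (by group) rfl)) (fl _ _) using 1
      rw [List.prod_cons, ← Dia_mk_prod, ← er, e1]
      group
    exact tr _ _ _ _ _ _ (tr _ _ _ _ _ _ q2
      (p2 _ _ (a3 _ _ _ ha q3) hd1 (k.imp (·.trans cz) (·.trans cz)))) (sy _ _ _ _ q3)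

end Pool.Agent.MI
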