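import Pool.Agent.Lib.MP_c86c76_al.Bi.Defs

/-!
The stabiliser of the first arc acts faithfully on the surface group.
-/

set_option autoImplicit false

namespace Pool.Agent.MI

open Pool.Agent.MB Pool.Agent.MN Pool.Agent.MG Pool.Agent.MT
open FreeGroup hiding map_mul map_inv map_one

theorem Gam_ch_zpow {β : Type} (a : β → ℤ) (u : FreeGroup β) (k : ℤ) :
    ch a (u ^ k) = k * ch a u := by
  rw [ch, map_zpow, toAdd_zpow, ch, smul_eq_mul]

theorem Gam_null (n m : ℕ) : Null (ev n (rW m)) := fun a => by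
  induction m with
  | zero => rw [rW, ev, Raw_nil, ch_one]
  | succ m ih =>
    simp only [Lick_rW, ch_mul, ch_inv, ih]
    omega

theorem Gam_ch_io {n : ℕ} (j : Fin n) (i : ℕ) :
    ch (Pi.single j 1) (MB.io n i) = if i = j then 1 else 0 := by
  by_cases h : i < n
  · rw [MB.io, dif_pos h, ch_of, Pi.single_apply]
    simp only [Fin.ext_iff]
  · rw [Lick_big (by omega), ch_one, if_neg (by omega)]

/-- The last letter. -/
abbrev Gam_b (h : ℕ) : Fin (2 * h + 2) := ⟨2 * h + 1, by omega⟩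

theorem Gam_io {h i : ℕ} (hi : i ≤ 2 * h) : MB.io (2 * h + 2) i ∈ Fr {Gam_b h} := by
  rw [MB.io, dif_pos (by omega)]
  refine Subgroup.subset_closure ⟨_, fun e => ?_, rfl⟩
  have := congrArg Fin.val (Set.mem_singleton_iff.1 e)
  simp only at this
  omega

theorem Gam_r (h : ℕ) : ∀ m ≤ h, ev (2 * h + 2) (rW m) ∈ Fr {Gam_b h} := fun m hm => by
  induction m with
  | zero =>
    rw [rW, ev, Raw_nil]
    exact one_mem _
  | succ m ih =>
    rw [Lick_rW]
    exact mul_mem (mul_mem (mul_mem (mul_mem (Gam_io (by omega)) (Gam_io (by omega)))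
      (inv_mem (Gam_io (by omega)))) (inv_mem (Gam_io (by omega)))) (ih (by omega))

theorem Gam_a (h : ℕ) : ch (Pi.single ⟨2 * h, by omega⟩ 1) (aa h) = 1 := by
  rw [Gam_ch_io, if_pos rfl]

/-- The consequence of the hypothesis on the base group. -/
theorem Gam_col (hC : ColSt) (h : ℕ) : ∀ f ∈ Fr {Gam_b h}, ∀ f' ∈ Fr {Gam_b h},
    (Cg (rr h) f f' → f = f') ∧ ∀ u, Cg (rr h) (u * f * u⁻¹) f' →
      (∃ u' ∈ Fr {Gam_b h}, Cg (rr h) u u') ∨ ∃ k : ℤ, IsConj ((aa h)⁻¹ ^ k) f' ∨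
        IsConj ((ev (2 * h + 2) (rW h) * aa h) ^ k) f' := by
  have ha : aa h ∈ Fr {Gam_b h} := Gam_io le_rfl
  have k1 : IsConj (rr h) ((aa h)⁻¹ * rr h * aa h) := isConj_iff.2 ⟨(aa h)⁻¹, by rw [inv_inv]⟩
  have key := hC _ (Gam_b h, true) (aa h)⁻¹ (ev (2 * h + 2) (rW h) * aa h)
    ((aa h)⁻¹ * rr h * aa h) (inv_mem ha) (mul_mem (Gam_r h h le_rfl) ha)
    (fun e => by
      have := Gam_a h
      rw [inv_eq_one.1 e, ch_one] at this
      omega)
    (fun e => by
      have := congrArg (ch (Pi.single (⟨2 * h, by omega⟩ : Fin (2 * h + 2)) 1)) e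
      rw [ch_mul, Gam_null, Gam_a, ch_one] at this
      omega)
    (by
      rw [show lt (Gam_b h, true) = MB.io (2 * h + 2) (2 * h + 1) from (io_of (Gam_b h)).symm,
        rr, Lick_rW]
      group)
  intro f hf f' hf'
  obtain ⟨p, q⟩ := key f hf f' hf'
  refine ⟨fun e => p (e.conj k1), fun u e => (q u (e.conj k1)).imp_left ?_⟩
  rintro ⟨u', m, e'⟩
  exact ⟨u', m, e'.conj k1.symm⟩

/-- The second embedding of the free group of odd rank. -/
def Gam_kap (h : ℕ) : FN (2 * h + 1) →* FN (2 * h + 2) := lift fun i =>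
  if (i : ℕ) < 2 * h then MB.io (2 * h + 2) i else ev (2 * h + 2) (rW h) * aa h

theorem Gam_mem (h : ℕ) (x : FN (2 * h + 1)) : Gam_kap h x ∈ Fr {Gam_b h} := by
  have : ∀ i, Gam_kap h (of i) ∈ Fr {Gam_b h} := fun i => by
    rw [Gam_kap, lift_apply_of]
    split_ifs with k
    exacts [Gam_io k.le, mul_mem (Gam_r h h le_rfl) (Gam_io le_rfl)]
  induction x using FreeGroup.induction_on with
  | C1 => simp
  | of i => exact this i
  | inv_of i _ => rw [map_inv]; exact inv_mem (this i)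
  | mul x y h h' => rw [map_mul]; exact mul_mem h h'

theorem Gam_emb (h : ℕ) (x : FN (2 * h + 1)) :
    pj (rr h) (emb (2 * h) x) = pj (rr h) (Gam_kap h x) := by
  refine DFunLike.congr_fun (ext_hom ((pj (rr h)).comp (emb (2 * h)))
    ((pj (rr h)).comp (Gam_kap h)) fun i => ?_) x
  rw [MonoidHom.comp_apply, MonoidHom.comp_apply, Gam_kap, lift_apply_of, ← io_of]
  obtain k | k : (i : ℕ) < 2 * h ∨ (i : ℕ) = 2 * h := by omega
  · rw [emb_io k, if_pos k]
  · rw [if_neg (by omega), k, emb_e, show ev (2 * h + 2) (rW h) * aa h =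
      MB.io _ (2 * h + 1) * aa h * (MB.io _ (2 * h + 1))⁻¹ * ((aa h)⁻¹ * rr h * aa h) by
        rw [rr, Lick_rW]
        group]
    simp only [map_mul, map_inv, pj_r]
    group

theorem Gam_inj (h : ℕ) : Function.Injective (Gam_kap h) := by
  let L : FN (2 * h + 2) →* FN (2 * h + 1) := lift fun i =>
    if (i : ℕ) < 2 * h then MB.io (2 * h + 1) i else (ev (2 * h + 1) (rW h))⁻¹ * eG h
  have l1 : ∀ i < 2 * h, L (MB.io _ i) = MB.io _ i := fun i k => by
    rw [MB.io, dif_pos (by omega), lift_apply_of, if_pos k]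
  have l2 : L (aa h) = (ev (2 * h + 1) (rW h))⁻¹ * eG h := by
    rw [aa, MB.io, dif_pos (by omega), lift_apply_of, if_neg (lt_irrefl _)]
  refine Function.LeftInverse.injective (g := L)
    (DFunLike.congr_fun (ext_hom (L.comp (Gam_kap h)) (MonoidHom.id _) fun i => ?_))
  rw [MonoidHom.comp_apply, MonoidHom.id_apply, Gam_kap, lift_apply_of, ← io_of]
  obtain k | k : (i : ℕ) < 2 * h ∨ (i : ℕ) = 2 * h := by omega
  · rw [if_pos k, l1 i k]
  · rw [if_neg (by omega), map_mul, l2, ev, Raw_map, RwB_congr _ _ h l1, k, ev, eG,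
      mul_inv_cancel_left]

theorem Gam_two (hC : ColSt) {h : ℕ} (h1 : 1 ≤ h) : ∀ γ ∈ Gam h, ∀ u,
    (∀ w, Cg (rr h) (γ w) (u * w * u⁻¹)) → ∃ k : ℤ, Cg (rr h) u (aa h ^ k) := by
  intro γ hγ u hu
  have ha : aa h ∈ Fr {Gam_b h} := Gam_io le_rfl
  have e0 := cg_iff.1 (hu (emb (2 * h) (MB.io _ 0)))
  rw [← emb_res ⟨γ, hγ⟩, Gam_emb, emb_io (by omega)] at e0
  rcases (Gam_col hC h _ (Gam_mem h (resG h ⟨γ, hγ⟩ (MB.io _ 0))) _
    (Gam_io (Nat.zero_le _))).2 u⁻¹ (cg_iff.2 (by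
      simp only [map_mul, map_inv, e0]
      group)) with ⟨v, hv, e⟩ | ⟨k, e⟩
  · have e1 := cg_iff.1 (hu (aa h))
    rw [show γ (aa h) = aa h from hγ.2] at e1
    have e2 := cg_iff.1 e
    rw [map_inv, inv_eq_iff_eq_inv] at e2
    have e3 := (Gam_col hC h _ ha _ (mul_mem (mul_mem (inv_mem hv) ha) hv)).1 (cg_iff.2 (by
      rw [e1]
      simp only [map_mul, map_inv, e2, inv_inv]))
    obtain ⟨k, hk⟩ := cen_of ⟨2 * h, by omega⟩ v (by
      rw [← io_of]
      change v * aa h = aa h * v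
      conv_lhs => rw [e3]
      group)
    rw [← io_of] at hk
    refine ⟨-k, cg_iff.2 ?_⟩
    rw [e2, ← hk, zpow_neg, map_inv]
  · exfalso
    have z : ch (Pi.single (⟨0, by omega⟩ : Fin (2 * h + 2)) 1) (aa h) = 0 := by
      rw [Gam_ch_io, if_neg (by simp only; omega)]
    rcases e with e | e <;> have := ch_conj e (Pi.single ⟨0, by omega⟩ 1)
    · rw [Gam_ch_zpow, ch_inv, z, Gam_ch_io, if_pos rfl] at this
      omega
    · rw [Gam_ch_zpow, ch_mul, z, Gam_null, Gam_ch_io, if_pos rfl] at this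
      omega

theorem gamSt (hC : ColSt) : GamSt := fun h h1 => by
  refine ⟨fun γ hγ hw => ?_, Gam_two hC h1, fun u hu => ?_⟩
  · have key : ∀ x y, pj (rr h) (emb (2 * h) x) = pj (rr h) (emb (2 * h) y) → x = y :=
      fun x y e => Gam_inj h ((Gam_col hC h _ (Gam_mem h x) _ (Gam_mem h y)).1 (cg_iff.2 (by
        rwa [← Gam_emb, ← Gam_emb])))
    obtain ⟨w, w1, -⟩ := res_e ⟨γ, hγ⟩
    have e := cg_iff.1 (hw (MB.io _ (2 * h + 1)))
    rw [w1, map_mul, mul_eq_right, ← map_one (pj (rr h)), ← map_one (emb (2 * h))] at e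
    rw [key _ _ e, map_one, one_mul] at w1
    refine MulEquiv.toMonoidHom_injective (emb_ext (fun x => ?_) w1)
    change γ _ = emb _ x
    rw [← emb_res ⟨γ, hγ⟩, key (resG h ⟨γ, hγ⟩ x) x (by
      rw [emb_res]
      exact cg_iff.1 (hw _))]
  · obtain ⟨k, hk⟩ := Gam_two hC h1 1 (one_mem _) u fun w => cg_iff.2 (cg_iff.1 (hu w)).symm
    have ha : aa h ^ k ∈ Fr {Gam_b h} := zpow_mem (Gam_io le_rfl) k
    have h0 : MB.io (2 * h + 2) 0 ∈ Fr {Gam_b h} := Gam_io (Nat.zero_le _)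
    have e := (Gam_col hC h _ (mul_mem (mul_mem ha h0) (inv_mem ha)) _ h0).1 (cg_iff.2 (by
      rw [map_mul, map_mul, map_inv, ← cg_iff.1 hk, ← map_inv, ← map_mul, ← map_mul]
      exact cg_iff.1 (hu _)))
    obtain ⟨j, hj⟩ := cen_of ⟨0, by omega⟩ (aa h ^ k) (by
      rw [← io_of]
      exact mul_inv_eq_iff_eq_mul.1 e)
    rw [← io_of] at hj
    have := congrArg (ch (Pi.single (⟨2 * h, by omega⟩ : Fin (2 * h + 2)) 1)) hj
    rw [Gam_ch_zpow, Gam_ch_zpow, Gam_a, Gam_ch_io, if_neg (by simp only; omega)] at this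
    rwa [show k = 0 by omega, zpow_zero] at hk

end Pool.Agent.MI
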