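import Pool.Agent.Lib.MP_c86c76_al.Bi.Defs

/-!
Translates of the sides of a diagram do not cross.
-/

set_option autoImplicit false

namespace Pool.Agent.MI

open Pool.Agent.MB Pool.Agent.MN Pool.Agent.MG Pool.Agent.MT
open FreeGroup hiding map_mul map_inv map_one

section Abs

variable {G : Type} [Group G] [LinearOrder G] {C : G → G → G → Prop} {D : List G}

theorem Gap_mono (hm : ∀ A s E, D = A ++ s :: E → A.prod < A.prod * s) (B : List G) :
    ∀ A E, D = A ++ B ++ E → A.prod ≤ A.prod * B.prod := by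
  induction B with
  | nil => simp
  | cons s B ih =>
    intro A E e
    have := ih (A ++ [s]) E (by simp [e])
    simp only [List.prod_append, List.prod_cons, List.prod_nil, mul_one, mul_assoc] at this
    exact (hm A s (B ++ E) (by simp [e])).le.trans this

theorem Gap_abs (hn : D.Nodup) (hi : ∀ s ∈ D, s⁻¹ ∈ D)
    (hm : ∀ A s E, D = A ++ s :: E → A.prod < A.prod * s)
    (hc : Subgroup.closure (DualLoop D '' {s | s ∈ D}) = ⊤)
    (h1 : ∀ u v w, C u v w → C v w u) (h2 : ∀ g u v w, C u v w → C (g * u) (g * v) (g * w))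
    (h4 : ∀ u v w, C u v w → ¬ C u w v) (h7 : ∀ u v w, u < v → v < w → C u v w)
    (h8 : ∀ u v w, u < w → C u v w → u < v ∧ v < w)
    (h9 : ∀ u v w, C u v w → v ≠ w ∧ u ≠ w) :
    (∀ A E g, D = A ++ E → ∀ w ∈ D, ¬ (g < A.prod ∧ A.prod < g * w)) ∧
    ∀ g h, ∀ w ∈ D, ∀ w' ∈ D, ¬ (C g h (g * w) ∧ C g (g * w) (h * w')) := by
  have mo := Gap_mono hm
  have lt : ∀ s ∈ D, DualPre D s < DualPre D s * s := fun s hs => by
    obtain ⟨A, E, e⟩ := List.append_of_mem hs
    rw [Dual_pre_nodup hn e]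
    exact hm A s E e
  have vx : ∀ s ∈ D, (∃ A E, D = A ++ E ∧ DualPre D s = A.prod) ∧
      ∃ A E, D = A ++ E ∧ DualPre D s * s = A.prod := fun s hs => by
    obtain ⟨A, E, e⟩ := List.append_of_mem hs
    exact ⟨⟨A, _, e, Dual_pre_nodup hn e⟩, A ++ [s], E, by simp [e], by
      simp [Dual_pre_nodup hn e]⟩
  have k1 : ∀ A E, D = A ++ E → ∀ s ∈ D, A.prod ≤ DualPre D s ∨ DualPre D s * s ≤ A.prod := by
    intro A E e s hs
    obtain ⟨A', E', e'⟩ := List.append_of_mem hs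
    rw [Dual_pre_nodup hn e']
    rcases List.append_eq_append_iff.1 (e.symm.trans e') with ⟨B, rfl, rfl⟩ | ⟨B, rfl, k⟩
    · exact Or.inl (by simpa using mo B A (s :: E') e')
    · rcases B with _ | ⟨t, B⟩
      · simp
      · obtain ⟨rfl, rfl⟩ := List.cons.inj k
        exact Or.inr (by simpa [mul_assoc] using mo B (A' ++ [s]) E (by simp [e]))
  have k2 : ∀ s ∈ D, ∀ t ∈ D, s ≠ t →
      DualPre D s * s ≤ DualPre D t ∨ DualPre D t * t ≤ DualPre D s := by
    have k : ∀ s t A B E, D = A ++ s :: (B ++ t :: E) → DualPre D s * s ≤ DualPre D t := by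
      intro s t A B E e
      rw [Dual_pre_nodup hn e, Dual_pre_nodup hn (l1 := A ++ s :: B) (l2 := E) (by simp [e])]
      simpa [mul_assoc] using mo B (A ++ [s]) (t :: E) (by simp [e])
    intro s hs t ht n
    obtain ⟨A, B, E, e⟩ := ex_two D s t hs ht n
    exact e.imp (k _ _ _ _ _) (k _ _ _ _ _)
  have k3 : ∀ s ∈ D, ∀ v, v ≤ DualPre D s⁻¹ ∨ DualPre D s⁻¹ * s⁻¹ ≤ v →
      DualPre D s ≤ DualLoop D s * v ∧ DualLoop D s * v ≤ DualPre D s * s := by
    intro s hs v h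
    have e1 : DualLoop D s * DualPre D s⁻¹ = DualPre D s * s := by simp [DualLoop]
    have e2 : DualLoop D s * (DualPre D s⁻¹ * s⁻¹) = DualPre D s := by simp [DualLoop, mul_assoc]
    have k : C (DualPre D s⁻¹ * s⁻¹) v (DualPre D s⁻¹) →
        DualPre D s ≤ DualLoop D s * v ∧ DualLoop D s * v ≤ DualPre D s * s := fun k => by
      have := h2 (DualLoop D s) _ _ _ k
      rw [e1, e2] at this
      exact (h8 _ _ _ (lt s hs) this).imp le_of_lt le_of_lt
    rcases h with h | h <;> rcases h.eq_or_lt with h | h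
    · rw [h, e1]
      exact ⟨(lt s hs).le, le_rfl⟩
    · exact k (h1 _ _ _ (h1 _ _ _ (h7 _ _ _ h (lt _ (hi s hs)))))
    · rw [← h, e2]
      exact ⟨le_rfl, (lt s hs).le⟩
    · exact k (h1 _ _ _ (h7 _ _ _ (lt _ (hi s hs)) h))
  have k4 : ∀ g, ∃ L : List G, (∀ s ∈ L, s ∈ D) ∧ L.IsChain (fun s t => t ≠ s⁻¹) ∧
      g = (L.map (DualLoop D)).prod := by
    have st : ∀ s ∈ D, ∀ g, (∃ L : List G, (∀ s ∈ L, s ∈ D) ∧ L.IsChain (fun s t => t ≠ s⁻¹) ∧
        g = (L.map (DualLoop D)).prod) → ∃ L : List G, (∀ s ∈ L, s ∈ D) ∧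
        L.IsChain (fun s t => t ≠ s⁻¹) ∧ DualLoop D s * g = (L.map (DualLoop D)).prod := by
      rintro s hs g ⟨_ | ⟨t, L⟩, a1, a2, rfl⟩
      · exact ⟨[s], by simpa using hs, by simp, by simp⟩
      · by_cases e : t = s⁻¹
        · exact ⟨L, fun u hu => a1 u (by simp [hu]), a2.tail, by simp [e, Dual_loop_inv]⟩
        · exact ⟨s :: t :: L, List.forall_mem_cons.2 ⟨hs, a1⟩, List.isChain_cons_cons.2 ⟨e, a2⟩,
            by simp⟩
    intro g
    have hg : g ∈ Subgroup.closure (DualLoop D '' {s | s ∈ D}) := hc ▸ Subgroup.mem_top g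
    induction hg using Subgroup.closure_induction_left with
    | one => exact ⟨[], by simp, by simp, by simp⟩
    | mul_left x hx y _ ih =>
      obtain ⟨s, hs, rfl⟩ := hx
      exact st s hs y ih
    | inv_mul_cancel x hx y _ ih =>
      obtain ⟨s, hs, rfl⟩ := hx
      rw [← Dual_loop_inv]
      exact st _ (hi s hs) y ih
  have k5 : ∀ A E, D = A ++ E → ∀ (L : List G) s, (∀ t ∈ s :: L, t ∈ D) →
      (s :: L).IsChain (fun s t => t ≠ s⁻¹) →
      DualPre D s ≤ ((s :: L).map (DualLoop D)).prod * A.prod ∧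
        ((s :: L).map (DualLoop D)).prod * A.prod ≤ DualPre D s * s := by
    intro A E e L
    induction L with
    | nil =>
      intro s a1 _
      have hs := a1 s (by simp)
      simpa using k3 s hs _ (k1 A E e _ (hi s hs))
    | cons t L ih =>
      intro s a1 a2
      have hs := a1 s (by simp)
      obtain ⟨b1, b2⟩ := ih t (List.forall_mem_cons.1 a1).2 a2.tail
      rw [List.map_cons, List.prod_cons, mul_assoc]
      exact k3 s hs _ ((k2 t (a1 t (by simp)) _ (hi s hs) (List.isChain_cons_cons.1 a2).1).imp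
        b2.trans fun k => k.trans b1)
  have f1 : ∀ A E g, D = A ++ E → ∀ w ∈ D, ¬ (g < A.prod ∧ A.prod < g * w) := by
    rintro A E g e w hw ⟨a, b⟩
    obtain ⟨_ | ⟨s, L⟩, a1, a2, a3⟩ := k4 (g * (DualPre D w)⁻¹)
    · rw [List.map_nil, List.prod_nil, mul_inv_eq_one] at a3
      subst a3
      exact (k1 A E e w hw).elim (not_le.2 a) (not_le.2 b)
    · obtain ⟨⟨A1, E1, e1, p1⟩, A2, E2, e2, p2⟩ := vx w hw
      have q1 := (k5 A1 E1 e1 L s a1 a2).1
      have q2 := (k5 A2 E2 e2 L s a1 a2).2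
      rw [← a3, ← p1, inv_mul_cancel_right] at q1
      rw [← a3, ← p2, ← mul_assoc, inv_mul_cancel_right] at q2
      exact (k1 A E e s (a1 s (by simp))).elim (not_le.2 (q1.trans_lt a)) (not_le.2 (b.trans_le q2))
  refine ⟨f1, ?_⟩
  rintro g h w hw w' hw' ⟨a, b⟩
  have a' := h2 (DualPre D w * g⁻¹) _ _ _ a
  have b' := h2 (DualPre D w * g⁻¹) _ _ _ b
  simp only [← mul_assoc, inv_mul_cancel_right] at a' b'
  generalize DualPre D w * g⁻¹ * h = k at a' b'
  obtain ⟨c1, c2⟩ := h8 _ _ _ (lt w hw) a'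
  obtain ⟨⟨A1, E1, e1, p1⟩, A2, E2, e2, p2⟩ := vx w hw
  rcases (h9 _ _ _ b').1.lt_or_gt with n | n
  · exact f1 A2 E2 k e2 w' hw' (p2 ▸ ⟨c2, n⟩)
  rcases (h9 _ _ _ b').2.lt_or_gt with m | m
  · exact h4 _ _ _ b' (h7 _ _ _ m n)
  · exact f1 A1 E1 (k * w') e1 _ (hi w' hw') (p1 ▸ ⟨m, by rwa [mul_inv_cancel_right]⟩)

end Abs

theorem gapSt (hCh : ChSt) (hUp : UpSt) : GapSt := by
  intro α _ _ c D hD
  obtain ⟨h1, h2, -, h4, h5, h6, h7, h8, -⟩ := cycA α c.ρ
  obtain ⟨hn, -, -, hi, -⟩ := (diaSt α c).2.2.2.2 D hD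
  have : IsStrictTotalOrder (FreeGroup α) (Lo c.ρ) :=
    { trichotomous := fun a b k k' => by_contra fun n => ((hUp α c).1 a b n).elim k k'
      irrefl := h5
      trans := h6 }
  classical
  let _ := linearOrderOfSTO (Lo c.ρ)
  refine Gap_abs (C := Cyc c.ρ) hn (fun s hs => (hi s hs).1) (fun A s E e => ?_)
    ((hCh α c).2.2.2.2.1 D hD) h1 h2 h4 h7 h8 fun u v w k => (cycDist k).2
  have := plIncr_all cycA diaSt adjLA mvA connA c D hD
  rw [e, plIncr_append, one_mul] at this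
  exact this.2.1

end Pool.Agent.MI
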