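import Pool.Agent.Lib.MP_c86c76_al.Bi.Defs

/-!
The one-relator group inside an HNN extension.
-/

set_option autoImplicit false

namespace Pool.Agent.MI

open Pool.Agent.MB Pool.Agent.MN Pool.Agent.MG Pool.Agent.MT
open FreeGroup hiding map_mul map_inv map_one

theorem Hn_iso {α : Type} {V X : FreeGroup α} (hV : V ≠ 1) (hX : X ≠ 1) :
    ∃ φ : Subgroup.zpowers V ≃* Subgroup.zpowers X,
      ∀ k : ℤ, (φ ⟨V ^ k, Subgroup.zpow_mem_zpowers V k⟩).1 = X⁻¹ ^ k := by
  have i : ∀ {U : FreeGroup α}, U ≠ 1 → Function.Injective (zpowersHom _ U) := fun h =>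
    injective_zpow_iff_not_isOfFinOrder.2 (not_isOfFinOrder_of_isMulTorsionFree h)
  refine ⟨((MonoidHom.ofInjective (i hV)).symm.trans (MonoidHom.ofInjective
    (i (inv_ne_one.2 hX)))).trans (MulEquiv.subgroupCongr Subgroup.zpowers_inv), fun k => ?_⟩
  have : (MonoidHom.ofInjective (i hV)).symm ⟨V ^ k, Subgroup.zpow_mem_zpowers V k⟩ =
      Multiplicative.ofAdd k := (MulEquiv.symm_apply_eq _).2 rfl
  exact congrArg (fun m => (MonoidHom.ofInjective (i (inv_ne_one.2 hX)) m).1) this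

theorem Hn_ext {α G : Type} [Group G] {x : α} {p q : FreeGroup α →* G}
    (h : ∀ y, y ≠ x → p (of y) = q (of y)) {f : FreeGroup α} (hf : f ∈ Fr {x}) : p f = q f :=
  MonoidHom.eqOn_closure (by rintro _ ⟨y, m, rfl⟩; exact h y m) hf

theorem hnSt : HnSt := by
  intro α _ l V X hV hX hV1 hX1
  obtain ⟨φ, hφ⟩ := Hn_iso hV1 hX1
  let Ψ : FreeGroup α →* HNNExtension _ _ _ φ := lift fun y =>
    if y = l.1 then cond l.2 HNNExtension.t HNNExtension.t⁻¹ else HNNExtension.of (of y)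
  let κ : FreeGroup α →* FreeGroup α := lift fun y => if y = l.1 then 1 else of y
  have a : Ψ (lt l) = HNNExtension.t := by
    obtain ⟨x, _ | _⟩ := l
    · simp [Ψ, Dia_lt_false]
    · simp [Ψ, Dia_lt_true]
  have b : ∀ f ∈ Fr {l.1}, Ψ f = HNNExtension.of f := fun f => Hn_ext fun y h => by simp [Ψ, h]
  have k : ∀ f ∈ Fr {l.1}, κ f = f := fun f =>
    Hn_ext (q := MonoidHom.id _) fun y h => by simp [κ, h]
  have k' : ∀ f, κ f ∈ Fr {l.1} := fun f => by
    induction f using FreeGroup.induction_on with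
    | C1 => exact (map_one κ).symm ▸ one_mem _
    | of y =>
      by_cases h : y = l.1
      · simp [κ, h]
      · rw [k (of y) (Dia_mem_Fr (l := (y, true)) h)]
        exact Dia_mem_Fr (l := (y, true)) h
    | inv_of y ih => exact (map_inv κ _).symm ▸ inv_mem ih
    | mul u v hu hv => exact (map_mul κ _ _).symm ▸ mul_mem hu hv
  refine ⟨φ, Ψ, a, b, ?_, fun u f e => ⟨κ f, k' f, cg_iff.2 ?_⟩⟩
  · have := HNNExtension.equiv_eq_conj (φ := φ) ⟨V ^ (1 : ℤ), Subgroup.zpow_mem_zpowers V 1⟩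
    rw [hφ, zpow_one, map_inv] at this
    simp only [map_mul, map_inv, a, b V hV, b X hX]
    simp only [zpow_one] at this
    rw [← this, inv_mul_cancel]
  · generalize hr : lt l * V * (lt l)⁻¹ * X = r
    have e1 : pj r (lt l) * pj r V * (pj r (lt l))⁻¹ = (pj r X)⁻¹ := by
      rw [eq_inv_iff_mul_eq_one, ← map_inv, ← map_mul, ← map_mul, ← map_mul, hr, pj_r]
    let Λ : HNNExtension _ _ _ φ →* OneRel r := HNNExtension.lift ((pj r).comp κ) (pj r (lt l)) (by
      rintro ⟨_, m, rfl⟩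
      change _ * pj r (κ (V ^ m)) = pj r (κ (φ ⟨V ^ m, _⟩).1) * _
      rw [hφ, map_zpow, map_zpow, map_zpow, map_zpow, map_inv, map_inv, k V hV, k X hX, ← e1,
        conj_zpow, inv_mul_cancel_right])
    have : Λ.comp Ψ = pj r := ext_hom _ _ fun y => by
      by_cases h : y = l.1
      · obtain ⟨x, _ | _⟩ := l <;> subst h
        · simp [Λ, Ψ, Dia_lt_false]
        · simp [Λ, Ψ, Dia_lt_true]
      · simp [Λ, Ψ, κ, h]
    rw [← DFunLike.congr_fun this u, MonoidHom.comp_apply, e]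
    exact HNNExtension.lift_of _ _ _ _

end Pool.Agent.MI
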