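import Pool.Agent.Lib.MP_c86c76_al.Bi.Defs

/-!
Conjugates of a letter and the exceptional arcs.
-/

set_option autoImplicit false

namespace Pool.Agent.MI

open Pool.Agent.MB Pool.Agent.MN Pool.Agent.MG Pool.Agent.MT
open FreeGroup hiding map_mul map_inv map_one

theorem Let_pow {α : Type} [DecidableEq α] (w : FreeGroup α) (k : ℕ) :
    FreeGroup.norm (w ^ k) ≤ k * FreeGroup.norm w := by
  induction k with
  | zero => simp
  | succ k ih =>
    rw [pow_succ, Nat.succ_mul]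
    exact (FreeGroup.norm_mul_le _ _).trans (Nat.add_le_add_right ih _)

theorem Let_len {α : Type} [DecidableEq α] {z w : FreeGroup α}
    (hz : IsCyclicallyReduced z.toWord) (h : IsConj w z) : z.toWord.length ≤ FreeGroup.norm w := by
  obtain ⟨u, rfl⟩ := isConj_iff.1 h
  have k : ∀ k : ℕ, k * (u * w * u⁻¹).toWord.length ≤
      2 * FreeGroup.norm u + k * FreeGroup.norm w := fun k => by
    have e : FreeGroup.norm ((u * w * u⁻¹) ^ k) = k * (u * w * u⁻¹).toWord.length := by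
      rw [FreeGroup.norm, toWord_pow, (hz.flatten_replicate k).isReduced.reduce_eq]
      simp
    rw [← e, conj_pow]
    have h1 := FreeGroup.norm_mul_le (u * w ^ k) u⁻¹
    have h2 := FreeGroup.norm_mul_le u (w ^ k)
    have h3 := Let_pow w k
    rw [FreeGroup.norm_inv_eq] at h1
    omega
  by_contra hn
  have h1 := k (2 * FreeGroup.norm u + 1)
  have h2 := Nat.mul_le_mul_left (2 * FreeGroup.norm u + 1) (Nat.succ_le_of_lt (not_le.1 hn))
  rw [Nat.mul_succ] at h2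
  omega

theorem Let_one (hCn : CnSt) {α : Type} [DecidableEq α] (l : α × Bool) (z : FreeGroup α)
    (h : Hs l z) (hc : cn l.1 ((lt l)⁻¹ * z * lt l) = cn l.1 z) (hv : Cv (lt l) z) :
    z = lt l := by
  obtain ⟨-, c2, -, -, -, c6, -⟩ := hCn α
  obtain ⟨Z, hZ⟩ := List.head?_eq_some_iff.1 h
  have rz : IsReduced (l :: Z) := hZ ▸ isReduced_toWord
  have ez : z = lt l * mk Z := by rw [← mk_toWord (x := z), hZ, lt, mul_mk]; rfl
  have e1 : (lt l)⁻¹ * z = mk Z := by rw [ez, inv_mul_cancel_left]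
  have hz : IsCyclicallyReduced z.toWord := by
    refine ⟨isReduced_toWord, fun a ha b hb e => ?_⟩
    obtain rfl : l = b := Option.some.inj (h.symm.trans hb)
    rcases Dia_eq_or_bar e with rfl | rfl
    · rfl
    exfalso
    rw [hZ] at ha
    rcases List.eq_nil_or_concat Z with rfl | ⟨Z0, a, rfl⟩
    · exact Dia_bar_ne l (Option.some.inj ha).symm
    rw [List.concat_eq_append] at *
    rw [← List.cons_append, List.getLast?_concat] at ha
    obtain rfl : a = bar l := Option.some.inj ha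
    have k : Hs l (mk (Z0 ++ [bar l]))⁻¹ := by
      have r : IsReduced (Z0 ++ [bar l]) := List.IsChain.tail rz
      rw [Hs, toWord_inv, toWord_mk, r.reduce_eq]
      simp [invRev, bar]
    have k1 := c6 l _ k
    have k2 := c6 l _ h
    rw [← mul_inv_rev, c2, c2, ← e1, hc] at k1
    omega
  have n : FreeGroup.norm (lt l) ≤ 1 := norm_mk_le
  have k : z.toWord.length ≤ 1 := by
    rcases hv with hv | hv
    · exact (Let_len hz hv).trans n
    · exact (Let_len hz hv).trans (by rwa [FreeGroup.norm_inv_eq])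
  rw [hZ, List.length_cons] at k
  obtain rfl : Z = [] := List.length_eq_zero_iff.1 (by omega)
  exact ez.trans (mul_one _)

theorem letSt (hCn : CnSt) : LetSt := by
  intro α _ l
  obtain ⟨c1, c2, c3, c4, c5, c6, c7, c8, c9, -⟩ := hCn α
  obtain ⟨d1, d2, -⟩ := c5 l
  refine ⟨Let_one hCn l, fun X f hX hf hv => ?_, fun X y hX hE hy => ?_⟩
  · have ht : f * X⁻¹ ∈ Fr {l.1} := mul_mem hf (inv_mem hX)
    have hs : Hs l (lt l * (f * X⁻¹)) := by
      by_contra hn
      have k := c7 l _ hn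
      rw [inv_mul_cancel_left, (c3 _ _).2 ht] at k
      omega
    have j : IsConj (X⁻¹ * lt l * f) (lt l * (f * X⁻¹)) := isConj_iff.2 ⟨X, by group⟩
    have k := Let_one hCn l _ hs
      (by rw [inv_mul_cancel_left, (c4 _ _ _ ht).1, (c4 _ _ _ ht).2])
      (hv.imp (fun k => k.trans j) fun k => k.trans j)
    exact mul_inv_eq_one.1 (mul_eq_left.1 k)
  obtain ⟨g0, w, hw, n0, h0⟩ := c9 l y hy
  obtain rfl := hE g0 w hw n0 h0
  have cw : cn l.1 w = cn l.1 y := by
    rcases hw with rfl | rfl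
    · rfl
    · exact c2 _ _
  have cf := c6 l _ h0
  rw [(c4 _ _ _ hX).2] at cf
  obtain ⟨f, rfl⟩ : ∃ f, w = g0⁻¹ * lt l * f := ⟨(lt l)⁻¹ * (g0 * w), by group⟩
  rw [show (lt l)⁻¹ * (g0 * (g0⁻¹ * lt l * f)) = f by group] at cf
  by_cases f0 : cn l.1 f = 0
  · exact Or.inl ⟨f, (c3 _ _).1 f0, hw.imp Eq.symm fun e => by rw [e, inv_inv]⟩
  obtain ⟨g, f', hf, n1, h1⟩ := c9 l f f0
  have a1 := c8 l.1 l g _ n1 h1
  rw [inv_mul_cancel_left] at a1
  have li : cn l.1 (lt l)⁻¹ = 1 := by rw [c2, d1]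
  rcases hf with rfl | rfl
  · exfalso
    have e : g * (lt l)⁻¹ * g0 * (g0⁻¹ * lt l * f') = g * f' := by group
    have n2 : ¬ Hs l (g * (lt l)⁻¹ * g0) := fun k => by
      have k1 := c6 l _ k
      have k2 := c6 l _ h1
      have k3 := c1 l.1 ((lt l)⁻¹ * (g * (lt l)⁻¹ * g0))⁻¹ ((lt l)⁻¹ * (g * f'))
      have k4 := c1 l.1 g (lt l)⁻¹
      rw [(c4 _ _ _ hX).1] at k1
      rw [c2, show ((lt l)⁻¹ * (g * (lt l)⁻¹ * g0))⁻¹ * ((lt l)⁻¹ * (g * f')) =
        g0⁻¹ * lt l * f' by group] at k3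
      omega
    have k := hE _ _ hw n2 (by rwa [e])
    rw [mul_inv_eq_one.1 (mul_eq_right.1 k)] at n1
    exact n1 d2
  · right
    rw [c2] at a1
    have k2 := c6 l _ h1
    have h2 : Hs l (g * (g0⁻¹ * lt l * f)⁻¹) := by
      by_contra hn
      have k1 := c7 l _ hn
      have k3 := c1 l.1 g⁻¹ (g * (g0⁻¹ * lt l * f)⁻¹)
      have k4 := c1 l.1 ((lt l)⁻¹ * (g * f⁻¹)) (lt l)⁻¹
      rw [inv_mul_cancel_left, c2, c2] at k3
      rw [show (lt l)⁻¹ * (g * (g0⁻¹ * lt l * f)⁻¹) = (lt l)⁻¹ * (g * f⁻¹) * (lt l)⁻¹ * g0 by group,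
        (c4 _ _ _ hX).1] at k1
      omega
    obtain rfl := hE g _ (hw.symm.imp (fun e => by rw [e, inv_inv]) fun e => by rw [e]) n1 h2
    have k0 := (c3 _ _).2 hX
    rcases hw with e | e
    · rw [← e, show (g⁻¹ * lt l)⁻¹ * (g⁻¹ * lt l * f) * (g⁻¹ * lt l) =
        ((lt l)⁻¹ * (g * f⁻¹))⁻¹ by group, c2]
      omega
    · rw [← cw, ← inv_inv y, ← e, show (g⁻¹ * lt l)⁻¹ * (g⁻¹ * lt l * f)⁻¹ * (g⁻¹ * lt l) =
        (lt l)⁻¹ * (g * f⁻¹) by group]
      omega

end Pool.Agent.MI
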