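import Pool.Agent.Lib.MP_c86c76_al.Bi.Defs

/-!
The hole goes round the vertex.
-/

set_option autoImplicit false

namespace Pool.Agent.MI

open Pool.Agent.MB Pool.Agent.MN Pool.Agent.MG Pool.Agent.MT
open FreeGroup hiding map_mul map_inv map_one

variable {α : Type} [DecidableEq α] [Fintype α] {c : Ctx α} {D : List (FreeGroup α)}
  {Γ : Subgroup (MulAut (FreeGroup α) × FreeGroup α)}

theorem Om_step (hT : TauSt) (hD : IsD c D)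
    (hΓ : ∀ s ∈ D, ∀ τ, Tau D s τ → (τ, (DualLoop D s)⁻¹) ∈ Γ) {t : FreeGroup α} (ht : t ∈ D)
    (h : ∃ ξ, (ξ, (DualPre D t)⁻¹) ∈ Γ ∧ ξ (rot D t) = c.r ∧
      ∀ w ∈ D, ξ w = (ee c.r (Lo c.ρ t w))⁻¹ * w * ee c.r (Lo c.ρ t w⁻¹)) :
    ∃ ξ, (ξ, (DualPre D t⁻¹ * t⁻¹)⁻¹) ∈ Γ ∧ ξ (t * rot D t⁻¹ * t⁻¹) = c.r ∧ ∀ w ∈ D,
      ξ w = (ee c.r (w = t ∨ Lo c.ρ t w))⁻¹ * w * ee c.r (w⁻¹ = t ∨ Lo c.ρ t w⁻¹) := by
  obtain ⟨ξ, h1, h2, h3⟩ := h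
  obtain ⟨⟨τ, k⟩, k'⟩ := (hT α c D hD).2.2 t ht
  obtain ⟨k1, k2, -⟩ := k' τ k
  have n := (((diaSt α c).2.2.2.2 D hD).2.2.2.1 t ht).2.2.1
  have e : (ξ * τ⁻¹) t = c.r⁻¹ * t * ee c.r (Lo c.ρ t t⁻¹) := by
    have := k1.1
    rw [map_inv, inv_inv, inv_eq_iff_eq_inv] at this
    rw [MulAut.mul_apply, this, map_inv, map_mul, map_inv, h2, h3 t ht,
      ee_neg ((cycA α c.ρ).2.2.2.2.1 t)]
    group
  refine ⟨ξ * τ⁻¹, ?_, by rw [← k2, MulAut.mul_apply, MulAut.inv_apply_self, h2], fun w hw => ?_⟩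
  · convert Γ.mul_mem h1 (Γ.inv_mem (hΓ t ht τ k)) using 1
    refine Prod.ext rfl ?_
    simp [DualLoop, mul_assoc]
  by_cases e1 : w = t
  · rw [e1, e, ee_pos (Or.inl rfl), or_iff_right n.symm]
  by_cases e2 : w⁻¹ = t
  · obtain rfl := inv_eq_iff_eq_inv.1 e2
    rw [map_inv, e, ee_pos (Or.inl e2), or_iff_right e1]
    group
  · rw [MulAut.mul_apply, k1.2 w hw fun q => q.elim (fun q => e2 (by rw [q, inv_inv]))
      fun q => e1 (q.trans (inv_inv t)), h3 w hw, or_iff_right e1, or_iff_right e2]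

theorem omSt (hCh : ChSt) (hT : TauSt) : OmSt := by
  intro α _ _ c D Γ hD hΓ
  obtain ⟨n1, -, n2, n3, -⟩ := (diaSt α c).2.2.2.2 D hD
  obtain ⟨c1, c2, c3, c4, -⟩ := hCh α c
  have k : ∀ s ∈ D, ∃ ξ, (ξ, (DualPre D s)⁻¹) ∈ Γ ∧ ξ (rot D s) = c.r ∧
      ∀ w ∈ D, ξ w = (ee c.r (Lo c.ρ s w))⁻¹ * w * ee c.r (Lo c.ρ s w⁻¹) := by
    rcases D with _ | ⟨a, E⟩
    · exact fun _ h => nomatch h
    refine c1 a E _ hD ?_ fun t u h q => ?_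
    · have e : DualPre (a :: E) a = 1 := if_pos rfl
      have : ∀ w ∈ a :: E, ¬ Lo c.ρ a w := fun w hw h => (cycA α c.ρ).2.2.2.2.1 a (by
        rcases List.mem_cons.1 hw with rfl | hw
        exacts [h, (cycA α c.ρ).2.2.2.2.2.1 _ _ _ h (c2 a E hD w hw)])
      refine ⟨1, by rw [e, inv_one]; exact Γ.one_mem, by simp [rot, e, ← n2], fun w hw => ?_⟩
      simp [ee_neg (this w hw), ee_neg (this _ (n3 w hw).1)]
    · obtain ⟨l1, l2, e⟩ := id h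
      have ht : t ∈ a :: E := inv_inv t ▸ (n3 t⁻¹ (by simp [e])).1
      have e' : DualPre (a :: E) u = DualPre (a :: E) t⁻¹ * t⁻¹ := by
        rw [Dual_pre_nodup n1 e, Dual_pre_nodup (l1 := l1 ++ [t⁻¹]) (l2 := l2) n1 (by simp [e]),
          List.prod_append, List.prod_singleton]
      obtain ⟨ξ, h1, h2, h3⟩ := Om_step hT hD hΓ ht q
      refine ⟨ξ, e' ▸ h1, ?_, fun w hw => ?_⟩
      · rw [← h2, rot, rot, e']
        group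
      · rw [h3 w hw, c3 _ t u hD h w hw, c3 _ t u hD h _ (n3 w hw).1]
  refine ⟨k, fun h => ?_⟩
  obtain ⟨E, z, rfl⟩ := (List.eq_nil_or_concat' D).resolve_left h
  have hz := (n3 z (by simp)).1
  obtain ⟨ξ, h1, -, h3⟩ := Om_step hT hD hΓ hz (k _ hz)
  rw [inv_inv, Dual_pre_nodup n1 rfl, ← List.prod_concat, List.concat_eq_append, n2] at h1
  rwa [(hT α c _ hD).1 (MulAut.conj c.r⁻¹) ξ fun w hw => ?_]
  rw [h3 w hw, ee_pos (c4 E z hD w hw), ee_pos (c4 E z hD _ (n3 w hw).1), MulAut.conj_apply,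
    inv_inv]

end Pool.Agent.MI
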