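import Pool.Agent.Lib.MP_c86c76_al.Bi.Defs

/-!
One step of the reduction of an arc.
-/

set_option autoImplicit false

namespace Pool.Agent.MI

open Pool.Agent.MB Pool.Agent.MN Pool.Agent.MG Pool.Agent.MT
open FreeGroup hiding map_mul map_inv map_one

section

variable {α : Type} [DecidableEq α]

omit [DecidableEq α] in
theorem One_mk (l : α × Bool) (V Z : List (α × Bool)) :
    mk (l :: V ++ [bar l] ++ Z) = lt l * mk V * (lt l)⁻¹ * mk Z := by
  rw [← Dia_lt_bar, lt, lt, mul_mk, mul_mk, mul_mk]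
  rfl

theorem One_word {l : α × Bool} {V : List (α × Bool)} (h : IsReduced (l :: V ++ [bar l]))
    {f : FreeGroup α} (hf : ¬ Hs l f) :
    l :: V ++ [bar l] <+: (lt l * mk V * (lt l)⁻¹ * f).toWord := by
  have r : IsReduced (l :: V ++ [bar l] ++ f.toWord) := by
    refine List.IsChain.append h isReduced_toWord fun a ha b hb e => ?_
    rw [List.getLast?_concat] at ha
    obtain rfl : bar l = a := Option.some.inj ha
    rcases Dia_eq_or_bar (l := l) (u := b) e.symm with rfl | rfl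
    · exact absurd hb hf
    · rfl
  conv_rhs => rw [← mk_toWord (x := f), ← One_mk, toWord_mk, r.reduce_eq]
  exact ⟨_, rfl⟩

theorem One_split {l : α × Bool} {V : List (α × Bool)} {q : FreeGroup α}
    (h : l :: V ++ [bar l] <+: q.toWord) :
    ∃ f, q = lt l * mk V * (lt l)⁻¹ * f ∧ cn l.1 f + 2 ≤ cn l.1 q := by
  obtain ⟨Z, e⟩ := h
  have r : IsReduced Z := List.IsChain.right_of_append (e ▸ isReduced_toWord (x := q))
  refine ⟨mk Z, by rw [← One_mk, e, mk_toWord], ?_⟩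
  rw [cn, cn, toWord_mk, r.reduce_eq, ← e]
  simp [List.countP_append, bar]

end

theorem oneSt (hCn : CnSt) (hL : LetSt) (hUp : UpSt) (hG : GapSt) (hR : RelSt) (hA : ArcSt)
    (hS : ShSt) (hP : SpSt) : OneSt := by
  intro α _ _ c c' l V X hW hW' y hy
  obtain ⟨c1, c2, c3, c4, c5, c6, c7, c8, -, -⟩ := hCn α
  obtain ⟨-, -, -, -, -, -, r7, r8, r9, -⟩ := hR α
  obtain ⟨er, hV, hX, -, -, -, sh⟩ := hS α c l V X hW
  have er' : c'.r = (lt l)⁻¹ * mk X * lt l * mk V := by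
    rw [(hS α c' (bar l) X V hW').1, Dia_lt_bar, inv_inv]
  obtain ⟨E0, hD⟩ := id hy
  have pm : ∀ {u v : FreeGroup α}, Pm u v → cn l.1 u = cn l.1 v := by
    rintro u v (rfl | rfl)
    · rfl
    · exact c2 _ _
  have cl : cn l.1 (lt l) = 1 := (c5 l).1
  have le : ∀ u, cn l.1 ((lt l)⁻¹ * u) ≤ cn l.1 u + 1 := fun u => by
    have := c1 l.1 (lt l)⁻¹ u
    rw [c2, cl] at this
    omega
  have sp := hP α c l V X hW _ y hD List.mem_cons_self
  -- the exceptional case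
  have exc : Exc l (mk X) y → cn l.1 y ≠ 0 → (∃ f ∈ Fr {l.1}, Pm y ((mk X)⁻¹ * lt l * f)) ∨
      ∃ z, Cv y z ∧ Rel c.r y c'.r z ∧ cn l.1 z < cn l.1 y := fun h h0 =>
    ((hL α l).2.2 _ y hX h h0).imp_right fun k =>
      ⟨_, Or.inl (isConj_iff.2 ⟨((mk X)⁻¹ * lt l)⁻¹, by rw [inv_inv]⟩),
        r8 _ _ ((mk X)⁻¹ * lt l) _ _ (by rw [er, er']; group) rfl, k⟩
  refine ⟨fun h0 => ?_, ?_⟩
  · rcases sp with ⟨A, ζ, E, hD', hζ, hp, hq⟩ | h
    · have rz := (hA α c).2.1 y ζ A E hy hD' hζ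
      have e1 : cn l.1 y = cn l.1 A.prod + cn l.1 (A.prod * ζ) := by
        rw [← c8 l.1 l _ _ hp hq, inv_mul_cancel_left, pm hζ]
      have cv : ∀ u : FreeGroup α, Cv y (u * ζ * u⁻¹) := fun u => by
        rcases hζ with rfl | rfl
        exacts [Or.inl (isConj_iff.2 ⟨u, rfl⟩), Or.inr (isConj_iff.2 ⟨u, rfl⟩)]
      have e2 := c1 l.1 (A.prod * ζ) A.prod⁻¹
      rw [c2] at e2
      rcases (show cn l.1 (A.prod * ζ * A.prod⁻¹) ≤ cn l.1 y by omega).lt_or_eq with k | k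
      · exact Or.inl ⟨_, cv _, rz, Or.inl k⟩
      have hz : Hs l (A.prod * ζ * A.prod⁻¹) := by
        by_contra n
        have a1 := c7 l _ n
        have a2 := c6 l _ hq
        have a3 := c1 l.1 ((lt l)⁻¹ * (A.prod * ζ)) A.prod⁻¹
        rw [c2, mul_assoc] at a3
        omega
      have a1 := c6 l _ hz
      have a2 := c1 l.1 ((lt l)⁻¹ * (A.prod * ζ * A.prod⁻¹)) (lt l)
      rcases (show cn l.1 ((lt l)⁻¹ * (A.prod * ζ * A.prod⁻¹) * lt l) ≤
        cn l.1 (A.prod * ζ * A.prod⁻¹) by omega).lt_or_eq with k' | k'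
      · refine Or.inr (Or.inl ⟨(mk V)⁻¹ * ((lt l)⁻¹ * (A.prod * ζ * A.prod⁻¹) * lt l) * mk V, ?_,
          r7 _ _ _ _ _ _ rz (r8 _ _ (lt l * mk V) _ _ (by rw [er, er']; group) (by group)), ?_⟩)
        · have := cv ((lt l * mk V)⁻¹ * A.prod)
          rwa [show (lt l * mk V)⁻¹ * A.prod * ζ * ((lt l * mk V)⁻¹ * A.prod)⁻¹ =
            (mk V)⁻¹ * ((lt l)⁻¹ * (A.prod * ζ * A.prod⁻¹) * lt l) * mk V by group] at this
        · rw [(c4 _ _ _ hV).1, (c4 _ _ _ (inv_mem hV)).2]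
          omega
      · exact Or.inl ⟨_, cv _, rz, Or.inr ⟨k, hz, k'⟩⟩
    · exact Or.inr (exc h h0).symm
  · rintro ⟨g, f, m, e, n⟩
    have b1 : cn l.1 y ≤ cn l.1 ((lt l)⁻¹ * g) + cn l.1 ((lt l)⁻¹ * f) := by
      have := c1 l.1 (((lt l)⁻¹ * g)⁻¹ * mk V ^ m) ((lt l)⁻¹ * f)
      rwa [(c4 _ _ _ (zpow_mem hV m)).1, c2, show ((lt l)⁻¹ * g)⁻¹ * mk V ^ m * ((lt l)⁻¹ * f) = y by
        rw [e]; group] at this
    have hg : ¬ Hs l g := fun k => by
      have := c6 l g k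
      have := le f
      omega
    have hf : ¬ Hs l f := fun k => by
      have := c6 l f k
      have := le g
      omega
    have m0 : m ≠ 0 := by
      rintro rfl
      have := c1 l.1 g⁻¹ f
      rw [c2, show g⁻¹ * f = y by rw [e]; group] at this
      omega
    have m1 := sh _ g f m hD y List.mem_cons_self hg hf (by rw [e]; group)
    have m2 := sh _ f g (-m) hD y⁻¹
      (((diaSt α c).2.2.2.2 _ hD).2.2.2.1 y List.mem_cons_self).1 hf hg (by rw [e]; group)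
    obtain ⟨g, w, f, hw, hg, e⟩ : ∃ g w f, Pm w y ∧ ¬ Hs l g ∧ ¬ Hs l f ∧
        g * w = lt l * mk V * (lt l)⁻¹ * f := by
      rcases (show m = 1 ∨ m = -1 by omega) with rfl | rfl
      · exact ⟨g, y, f, Or.inl rfl, hg, hf, by rw [e]; group⟩
      · exact ⟨f, y⁻¹, g, Or.inr rfl, hf, hg, by rw [e]; group⟩
    rcases sp with ⟨A, ζ, E, hD', hζ, hp, hq⟩ | h
    · have rz := (hA α c).2.1 y ζ A E hy hD' hζ
      have e1 : cn l.1 y = cn l.1 A.prod + cn l.1 (A.prod * ζ) := by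
        rw [← c8 l.1 l _ _ hp hq, inv_mul_cancel_left, pm hζ]
      have mζ : ζ ∈ A ++ ζ :: E := by simp
      have mw : w ∈ A ++ ζ :: E := by
        have i := (((diaSt α c).2.2.2.2 _ hD').2.2.2.1 ζ mζ).1
        rcases hw with rfl | rfl <;> rcases hζ with rfl | rfl
        · exact mζ
        · rwa [inv_inv] at i
        · exact i
        · exact mζ
      obtain ⟨u1, u2, -, u4⟩ := hUp α c
      have gp := (hG α c _ hD').1 (A ++ [ζ]) E g (by simp) w mw
      rw [List.prod_append, List.prod_singleton] at gp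
      have eW : l :: V ++ [bar l] ++ X = c.W := by rw [hW]; simp
      have pW : l :: V ++ [bar l] <+: c.W := ⟨X, eW⟩
      have p1 := One_word (List.IsChain.left_of_append (eW ▸ (diaSt α c).1)) e.1
      rw [← e.2] at p1
      have p2 : l :: V ++ [bar l] <+: (A.prod * ζ).toWord := by
        by_cases k : g * w = A.prod * ζ
        · exact k ▸ p1
        · exact u2 _ _ _ pW p1 ((u1 _ _ k).resolve_right fun k' => gp ⟨u4 l _ _ _ hW hg hq, k'⟩)
      obtain ⟨f', e', n'⟩ := One_split p2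
      refine ⟨_, Or.inl (r7 _ _ _ _ _ _ rz (r9 _ _)), ?_⟩
      have := c1 l.1 A.prod f'⁻¹
      rw [show (A.prod * ζ * A.prod⁻¹)⁻¹ * c.r = A.prod * f'⁻¹ * mk X by rw [e', er]; group,
        (c4 _ _ _ hX).1]
      rw [c2] at this
      omega
    · rcases exc h (by omega) with ⟨f', hf', k⟩ | ⟨z, -, k, k'⟩
      · have := pm k
        rw [(c4 _ _ _ hf').1, (c4 _ _ _ (inv_mem hX)).2] at this
        omega
      · exact ⟨z, Or.inr k, k'⟩

end Pool.Agent.MI
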