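import Pool.Agent.Lib.MP_c86c76_al.Bi.Defs

/-!
The first phase of the reduction of an arc.
-/

set_option autoImplicit false

namespace Pool.Agent.MI

open Pool.Agent.MB Pool.Agent.MN Pool.Agent.MG Pool.Agent.MT
open FreeGroup hiding map_mul map_inv map_one

theorem P1_ch {α : Type} [DecidableEq α] {x : α} {f : FreeGroup α} (h : f ∈ Fr {x}) :
    ch (Pi.single x 1) f = 0 := by
  rw [(om_Fr h).1 _ 0 fun y m => Pi.single_eq_of_ne m _, ch_zero]

theorem P1_lt {α : Type} [DecidableEq α] (l : α × Bool) : ch (Pi.single l.1 1) (lt l) ≠ 0 := by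
  rw [ch_lt, Pi.single_eq_same]
  cases l.2 <;> simp

theorem p1St (hCn : CnSt) (hR : RelSt) (hA : ArcSt) (hS : ShSt) (hO : OneSt) (hP : PinSt) :
    P1St := by
  intro α _ _
  obtain ⟨-, -, c3, c4, -⟩ := hCn α
  obtain ⟨-, -, -, -, -, -, r7, r8, -⟩ := hR α
  suffices H : ∀ (n : ℕ) (c c' : Ctx α) (l : α × Bool) (V X : List (α × Bool)),
      c.W = l :: V ++ bar l :: X → c'.W = bar l :: X ++ bar (bar l) :: V →
      ∀ y u, ∀ f ∈ Fr {l.1}, cn l.1 y < n → Hd c.r y → Cg c.r (u * y * u⁻¹) f →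
        ∃ z ∈ Fr {l.1}, Rel c.r y c.r z ∨ Rel c.r y c'.r z from
    fun c c' l V X h h' y u f hf => H _ c c' l V X h h' y u f hf (Nat.lt_succ_self _)
  intro n
  induction n with
  | zero => exact fun _ _ _ _ _ _ _ _ _ _ _ h => absurd h (Nat.not_lt_zero _)
  | succ n ih =>
    intro c c' l V X hW hW' y u f hf hn hy hu
    have hW2 : c.W = bar (bar l) :: V ++ bar (bar (bar l)) :: X := by
      rw [Dia_bar_bar, hW]
    obtain ⟨er, hV, hX, hV1, hX1, -⟩ := hS α c l V X hW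
    have er' : c'.r = (lt l * mk V)⁻¹ * c.r * (lt l * mk V) := by
      rw [(hS α c' (bar l) X V hW').1, Dia_lt_bar, er]
      group
    have cj : IsConj c.r c'.r := isConj_iff.2 ⟨_, by rw [inv_inv, er']⟩
    obtain ⟨-, -, a3, -, a5, -⟩ := hA α c
    have tr : ∀ r' z, Rel c.r y r' z → ∃ u', ∃ f' ∈ Fr {l.1}, Cg c.r (u' * z * u'⁻¹) f' :=
      fun r' z h => by
        have e := cg_iff.1 hu
        simp only [map_mul, map_inv] at e
        obtain ⟨v, k | k⟩ := a5 y r' z h <;> replace k := cg_iff.1 k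
        · refine ⟨u * v⁻¹, f, hf, cg_iff.2 ?_⟩
          simp only [map_mul, map_inv] at k ⊢
          rw [k, ← e]
          group
        · refine ⟨u * v⁻¹, f⁻¹, inv_mem hf, cg_iff.2 ?_⟩
          simp only [map_mul, map_inv] at k ⊢
          rw [k, ← e]
          group
    have step : ∀ z, (Rel c.r y c.r z ∨ Rel c.r y c'.r z) → cn l.1 z < cn l.1 y →
        ∃ z ∈ Fr {l.1}, Rel c.r y c.r z ∨ Rel c.r y c'.r z := by
      rintro z (h | h) lt'
      · obtain ⟨u', f', m, k⟩ := tr _ _ h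
        obtain ⟨z', m', k'⟩ := ih c c' l V X hW hW' z u' f' m (by omega) (a3 _ _ _ hy h) k
        exact ⟨z', m', k'.imp (r7 _ _ _ _ _ _ h) (r7 _ _ _ _ _ _ h)⟩
      · obtain ⟨u', f', m, k⟩ := tr _ _ h
        obtain ⟨z', m', k'⟩ := ih c' c (bar l) X V hW' hW2 z u' f' m
          (show cn l.1 z < n by omega) (a3 _ _ _ hy h) (k.conj cj)
        exact ⟨z', m', k'.symm.imp (r7 _ _ _ _ _ _ h) (r7 _ _ _ _ _ _ h)⟩
    by_cases h0 : cn l.1 y = 0
    · exact ⟨y, (c3 _ _).1 h0, .inl (r8 _ _ 1 _ _ (by group) (by group))⟩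
    obtain ⟨z, -, h, k | ⟨k1, k2, k3⟩⟩ | ⟨z, -, h, k⟩ | ⟨f', m, k⟩ :=
      (hO α c c' l V X hW hW' y hy).1 h0
    · exact step z (.inl h) k
    · obtain ⟨u', f', m, k⟩ := tr _ _ h
      have hz := a3 _ _ _ hy h
      rcases hP α l _ _ _ hV hX hV1 hX1 er z u' f' m k2 k3 k with p | p
      · obtain ⟨z', h', k'⟩ := (hO α c c' l V X hW hW' z hz).2 p
        exact step z' (h'.imp (r7 _ _ _ _ _ _ h) (r7 _ _ _ _ _ _ h)) (by omega)
      · have h1 := r8 c.r z (lt l * mk V) c'.r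
          ((mk V)⁻¹ * ((lt l)⁻¹ * z * lt l) * mk V) er' (by group)
        obtain ⟨z', h', k'⟩ := (hO α c' c (bar l) X V hW' hW2 _ (a3 _ _ _ hz h1)).2 p
        have h2 := r7 _ _ _ _ _ _ h h1
        refine step z' (h'.symm.imp (r7 _ _ _ _ _ _ h2) (r7 _ _ _ _ _ _ h2)) ?_
        change cn l.1 z' < cn l.1 _ at k'
        rw [(c4 _ _ _ hV).1, (c4 _ _ _ (inv_mem hV)).2] at k'
        omega
    · exact step z (.inr h) k
    · have e := hu.ch (null_full c.full) (Pi.single l.1 1)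
      have := P1_lt l
      rcases k with rfl | rfl <;>
        simp only [ch_mul, ch_inv, P1_ch hf, P1_ch hX, P1_ch m] at e <;> omega

end Pool.Agent.MI
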