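import Pool.Agent.Lib.MP_c86c76_al.Bi.P1

/-!
The second phase of the reduction of an arc.
-/

set_option autoImplicit false

namespace Pool.Agent.MI

open Pool.Agent.MB Pool.Agent.MN Pool.Agent.MG Pool.Agent.MT
open FreeGroup hiding map_mul map_inv map_one

theorem P2_inv {G : Type} [Group G] {u v : G} (h : IsConj u v) : IsConj u⁻¹ v⁻¹ := by
  obtain ⟨g, rfl⟩ := isConj_iff.1 h
  exact isConj_iff.2 ⟨g, by group⟩

theorem P2_tr {G : Type} [Group G] {u v w : G} (h : Cv u v) (k : Cv v w) : Cv u w := by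
  rcases h with h | h <;> rcases k with k | k
  exacts [.inl (h.trans k), .inr ((P2_inv h).trans k), .inr (h.trans k),
    .inl ((inv_inv u ▸ P2_inv h).trans k)]

theorem p2St (hCn : CnSt) (hL : LetSt) (hCh : ChSt) (hR : RelSt) (hA : ArcSt) (hS : ShSt)
    (hO : OneSt) : P2St := by
  intro α _ _
  obtain ⟨-, -, c3, -⟩ := hCn α
  obtain ⟨-, r2, -, -, -, r6, r7, r8, -, r10⟩ := hR α
  have H : ∀ (n : ℕ) (c c' : Ctx α) (l : α × Bool) (V X : List (α × Bool)),
      c.W = l :: V ++ bar l :: X → c'.W = bar l :: X ++ bar (bar l) :: V →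
      ∀ y, cn l.1 y < n → Hd c.r y → Cv (lt l) y → Rel c.r y c.r (lt l) := by
    intro n
    induction n with
    | zero => exact fun _ _ _ _ _ _ _ _ h => absurd h (Nat.not_lt_zero _)
    | succ n ih =>
      intro c c' l V X hW hW' y hn hy hc
      have hW2 : c.W = bar (bar l) :: V ++ bar (bar (bar l)) :: X := by
        rw [Dia_bar_bar, hW]
      obtain ⟨er, -, hX, -⟩ := hS α c l V X hW
      obtain ⟨-, -, a3, a4, -, -, a7⟩ := hA α c
      have hD : IsD c (lt l :: V.map lt ++ (lt l)⁻¹ :: X.map lt) := by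
        have := (diaSt α c).2.1
        rwa [Ctx.D0, hW, List.map_append, List.map_cons, List.map_cons, Dia_lt_bar] at this
      have k7 := a7 _ _ _ hD
      rw [← Dia_mk_prod] at k7
      have h0 : cn l.1 y ≠ 0 := fun h => by
        have e := P1_ch ((c3 _ _).1 h)
        have := P1_lt l
        rcases hc with k | k <;> replace k := ch_conj k (Pi.single l.1 1)
        · omega
        · rw [ch_inv] at k
          omega
      obtain ⟨z, cv, h, k | ⟨-, k2, k3⟩⟩ | ⟨z, cv, h, k⟩ | ⟨f, m, k⟩ :=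
        (hO α c c' l V X hW hW' y hy).1 h0
      · exact r7 _ _ _ _ _ _ h (ih c c' l V X hW hW' z (by omega) (a3 _ _ _ hy h) (P2_tr hc cv))
      · exact (hL α l).1 z k2 k3 (P2_tr hc cv) ▸ h
      · refine r7 _ _ _ _ _ _ (r7 _ _ _ _ _ _ (r7 _ _ _ _ _ _ h (ih c' c (bar l) X V hW' hW2 z
          (show cn l.1 z < n by omega) (a3 _ _ _ hy h) (P2_tr (P2_tr (.inr ?_) hc) cv)))
          (r8 _ _ ((mk X)⁻¹ * lt l)⁻¹ _ _ ?_ ?_)) (r6 _ _ _ _ k7)
        · rw [Dia_lt_bar, inv_inv]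
        · rw [(hS α c' (bar l) X V hW').1, Dia_lt_bar, er]
          group
        · rw [Dia_lt_bar]
          group
      · obtain rfl : f = mk X := (hL α l).2.1 _ f hX m (P2_tr hc (by
          rcases k with rfl | rfl
          exacts [.inl (IsConj.refl _), .inr (by rw [inv_inv])]))
        have e : ((mk X)⁻¹ * lt l * mk X)⁻¹ = (mk X)⁻¹ * (lt l)⁻¹ * mk X := by group
        rcases k with rfl | rfl
        · exact absurd (e ▸ a3 _ _ _ ⟨_, hD⟩ k7) (a4 _ hy)
        · exact e ▸ r6 _ _ _ _ k7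
  rintro c m y ⟨E, θ, W, hW, e, hr⟩ hy hc
  rw [e, Dia_map_prod] at hr
  obtain _ | ⟨l, W⟩ := W
  · exact absurd e (List.cons_ne_nil _ _)
  obtain rfl : m = θ (lt l) := (List.cons.inj e).1
  obtain ⟨V, X, rfl⟩ := List.append_of_mem
    ((List.mem_cons.1 (hW.2 (bar l))).resolve_left (Dia_bar_ne l))
  obtain ⟨c1, e1⟩ := (hCh α c).2.2.2.2.2 θ _ hW hr
  obtain ⟨c2, e2⟩ := (hS α c1 l V X e1).2.2.2.2.2.1
  have r1 : θ c1.r = c.r := by rw [Ctx.r, e1, hr]
  have := r10 θ _ _ _ _ (H _ c1 c2 l V X e1 e2 (θ⁻¹ y) (Nat.lt_succ_self _)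
    (by simpa only [← r1, MulAut.inv_apply_self] using r2 θ⁻¹ _ _ hy)
    (hc.imp (fun k => by simpa using (θ⁻¹ : MulAut _).toMonoidHom.map_isConj k)
      fun k => by simpa using (θ⁻¹ : MulAut _).toMonoidHom.map_isConj k))
  rwa [r1, MulAut.apply_inv_self] at this

end Pool.Agent.MI
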