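import Pool.Agent.Lib.MP_c86c76_al.Bi.Defs

/-!
A cyclically reduced word that is conjugate into the base group has a pinch.
-/

set_option autoImplicit false

namespace Pool.Agent.MI

open Pool.Agent.MB Pool.Agent.MN Pool.Agent.MG Pool.Agent.MT
open FreeGroup hiding map_mul map_inv map_one

section Hnn

open HNNExtension HNNExtension.NormalWord

variable {G : Type} [Group G] {A B : Subgroup G} (φ : A ≃* B)

/-- `g` is the product of a reduced word with at most `n` syllables. -/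
def Pin_rd (n : ℕ) (g : HNNExtension G A B φ) : Prop :=
  ∃ w : ReducedWord G A B, w.prod φ = g ∧ w.toList.length ≤ n

theorem Pin_of {n : ℕ} {g : HNNExtension G A B φ} (f : G) (h : Pin_rd φ n g) :
    Pin_rd φ n (HNNExtension.of f * g) := by
  obtain ⟨w, rfl, hw⟩ := h
  exact ⟨⟨f * w.head, w.toList, w.chain⟩, by simp [ReducedWord.prod, mul_assoc], hw⟩

theorem Pin_conj (u : ℤˣ) (h : G) (hh : h ∈ toSubgroup A B u) : ∃ k : G,
    (t ^ (u : ℤ) * HNNExtension.of h * t ^ ((-u : ℤˣ) : ℤ) : HNNExtension G A B φ) =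
      HNNExtension.of k := by
  rcases Int.units_eq_one_or u with rfl | rfl
  · exact ⟨φ ⟨h, hh⟩, by simp [equiv_eq_conj]⟩
  · exact ⟨φ.symm ⟨h, hh⟩, by simp [equiv_symm_eq_conj]⟩

theorem Pin_t (u : ℤˣ) {n : ℕ} {g : HNNExtension G A B φ} (h : Pin_rd φ n g) :
    Pin_rd φ (n + 1) (t ^ (u : ℤ) * g) := by
  obtain ⟨⟨h, L, ch⟩, rfl, hw⟩ := h
  by_cases hc : ∀ y ∈ L.head?, h ∈ toSubgroup A B u → u = y.1
  · exact ⟨⟨1, (u, h) :: L, List.isChain_cons.2 ⟨hc, ch⟩⟩, by simp [ReducedWord.prod, mul_assoc],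
      by simpa using hw⟩
  · push Not at hc
    obtain ⟨y, hy, hh, hne⟩ := hc
    obtain ⟨L', rfl⟩ : ∃ L', L = y :: L' := by
      cases L with
      | nil => simp at hy
      | cons a L' => exact ⟨L', by simp at hy; rw [hy]⟩
    obtain ⟨k, hk⟩ := Pin_conj φ u h hh
    have hy1 : y.1 = -u := Int.units_ne_iff_eq_neg.1 hne.symm
    refine ⟨⟨k * y.2, L', ch.tail⟩, ?_, by simp at hw ⊢; omega⟩
    simp only [ReducedWord.prod, List.map_cons, List.prod_cons, map_mul, ← hk, hy1, mul_assoc]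

theorem Pin_bd (x : HNNExtension G A B φ) : ∃ C : ℕ, ∀ n g, Pin_rd φ n g →
    Pin_rd φ (n + C) (x * g) ∧ Pin_rd φ (n + C) (x⁻¹ * g) := by
  induction x using HNNExtension.induction_on with
  | of f => exact ⟨0, fun n g h => ⟨Pin_of φ f h, by rw [← map_inv]; exact Pin_of φ _ h⟩⟩
  | t => exact ⟨1, fun n g h => ⟨by simpa using Pin_t φ 1 h, by simpa using Pin_t φ (-1) h⟩⟩
  | mul x y hx hy =>
    obtain ⟨C, hC⟩ := hx
    obtain ⟨D, hD⟩ := hy
    refine ⟨C + D, fun n g h => ⟨?_, ?_⟩⟩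
    · rw [mul_assoc, add_comm C, ← add_assoc]
      exact (hC _ _ (hD _ _ h).1).1
    · rw [mul_inv_rev, mul_assoc, ← add_assoc]
      exact (hD _ _ (hC _ _ h).2).2
  | inv x hx =>
    obtain ⟨C, hC⟩ := hx
    exact ⟨C, fun n g h => ⟨(hC n g h).2, by rw [inv_inv]; exact (hC n g h).1⟩⟩

theorem Pin_rep {β : Type} {R : β → β → Prop} {a : β} {L : List β}
    (h : List.IsChain R (a :: L ++ [a])) (k : ℕ) :
    ∃ M, (List.replicate k (a :: L)).flatten ++ [a] = a :: M ∧ List.IsChain R (a :: M) := by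
  induction k with
  | zero => exact ⟨[], by simp, by simp⟩
  | succ k ih =>
    obtain ⟨M, e, hM⟩ := ih
    refine ⟨L ++ a :: M, by rw [List.replicate_succ, List.flatten_cons, List.append_assoc, e]; rfl,
      ?_⟩
    exact List.isChain_split (l₁ := a :: L).2 ⟨h, hM⟩

theorem Pin_cyc (a : ℤˣ × G) (L : List (ℤˣ × G))
    (h : List.IsChain (fun a b => a.2 ∈ toSubgroup A B a.1 → a.1 = b.1) (a :: L ++ [a]))
    (y : HNNExtension G A B φ) (f : G) :
    y * ((a :: L).map fun x => t ^ (x.1 : ℤ) * HNNExtension.of x.2).prod * y⁻¹ ≠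
      HNNExtension.of f := by
  intro e
  obtain ⟨C, hC⟩ := Pin_bd φ y
  obtain ⟨M, e1, hM⟩ := Pin_rep h (2 * C + 1)
  rw [← e1] at hM
  have h0 : Pin_rd φ 0 1 := ⟨ReducedWord.empty G A B, by simp [ReducedWord.prod], by simp⟩
  obtain ⟨w, hw, hl⟩ := (hC _ _ (Pin_of φ (f ^ (2 * C + 1)) (hC _ _ h0).1)).2
  have := (ReducedWord.map_fst_eq_and_of_prod_eq φ (w₁ := w) (w₂ := ⟨1, _, hM.left_of_append⟩)
    (by
      rw [hw, map_pow, ← e, conj_pow]
      simp only [ReducedWord.prod, map_one, one_mul, List.map_flatten, List.prod_flatten,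
        List.map_replicate, List.prod_replicate]
      group)).1
  have := congrArg List.length this
  simp only [List.length_map, List.length_flatten, List.map_replicate, List.sum_replicate,
    List.length_cons, smul_eq_mul] at this
  nlinarith

end Hnn

variable {α : Type} [DecidableEq α]

/-- The product of a list of syllables. -/
def Pin_P (l : α × Bool) (L : List (ℤˣ × FreeGroup α)) : FreeGroup α :=
  (L.map fun p => lt l ^ (p.1 : ℤ) * p.2).prod

theorem Pin_cn (hCn : CnSt) (l : α × Bool) (L : List (ℤˣ × FreeGroup α))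
    (hL : ∀ p ∈ L, p.2 ∈ Fr {l.1}) : cn l.1 (Pin_P l L) ≤ L.length := by
  obtain ⟨c1, c2, c3, c4, c5, -⟩ := hCn α
  induction L with
  | nil => exact ((c3 _ _).2 (one_mem _)).le
  | cons p L ih =>
    have h1 := ih fun q hq => hL q (List.mem_cons_of_mem _ hq)
    have h2 : cn l.1 (lt l ^ (p.1 : ℤ) * p.2) = 1 := by
      rw [(c4 _ _ _ (hL p List.mem_cons_self)).1]
      rcases Int.units_eq_one_or p.1 with h | h <;> simp [h, c2, (c5 l).1]
    have h3 := c1 l.1 (lt l ^ (p.1 : ℤ) * p.2) (Pin_P l L)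
    simp only [Pin_P, List.map_cons, List.prod_cons, List.length_cons] at *
    omega

theorem Pin_chain (hCn : CnSt) (l s : α × Bool) (e : ℤˣ) (hs : s.1 = l.1)
    (he : lt s = lt l ^ (e : ℤ)) (T c₁ c₂ w : FreeGroup α) (hT : T ∈ Fr {l.1}) (h₁ : c₁ ∈ Fr {l.1})
    (h₂ : c₂ ∈ Fr {l.1}) (M : List (ℤˣ × FreeGroup α)) (hM : ∀ p ∈ M, p.2 ∈ Fr {l.1})
    (hw : w = c₁ * Pin_P l M * c₂) (hn : cn l.1 w = M.length) (hp : ¬ Pin s T w) :
    M.IsChain fun a b => a.1 = e → a.2 ∈ Subgroup.zpowers T → b.1 = e := by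
  rw [List.isChain_iff_forall_rel_of_append_cons_cons]
  rintro a b l₁ l₂ rfl ha ⟨m, hm⟩
  by_contra hb
  have hb' : b.1 = -e := Int.units_ne_iff_eq_neg.1 hb
  have k1 := Pin_cn hCn l l₁ fun p h => hM p (by simp [h])
  have k2 := Pin_cn hCn l l₂ fun p h => hM p (by simp [h])
  obtain ⟨c1, c2, c3, c4, c5, -⟩ := hCn α
  have hm' : T ^ m = a.2 := hm
  have ew : w = ((c₁ * Pin_P l l₁)⁻¹)⁻¹ * lt s * T ^ m * (lt s)⁻¹ * (b.2 * Pin_P l l₂ * c₂) := by
    rw [hw, he, hm']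
    simp only [Pin_P, List.map_append, List.map_cons, List.prod_append, List.prod_cons, ha, hb',
      Units.val_neg, zpow_neg, inv_inv, mul_assoc]
  refine hp ⟨_, _, m, ew, ?_⟩
  have e1 : cn l.1 (c₁ * Pin_P l l₁)⁻¹ = cn l.1 (Pin_P l l₁) := by rw [c2, (c4 _ _ _ h₁).2]
  have e2 : cn l.1 (b.2 * Pin_P l l₂ * c₂) = cn l.1 (Pin_P l l₂) := by
    rw [(c4 _ _ _ h₂).1, (c4 _ _ _ (hM b (by simp))).2]
  have e3 : cn l.1 (lt s) = 1 := hs ▸ (c5 s).1
  have a1 := c1 l.1 ((c₁ * Pin_P l l₁)⁻¹)⁻¹ (lt s)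
  have a2 := (c4 l.1 (((c₁ * Pin_P l l₁)⁻¹)⁻¹ * lt s) _ (zpow_mem hT m)).1
  have a3 := c1 l.1 (((c₁ * Pin_P l l₁)⁻¹)⁻¹ * lt s * T ^ m) (lt s)⁻¹
  have a4 := c1 l.1 (((c₁ * Pin_P l l₁)⁻¹)⁻¹ * lt s * T ^ m * (lt s)⁻¹) (b.2 * Pin_P l l₂ * c₂)
  rw [← ew] at a4
  rw [c2] at a1 a3
  simp only [List.length_append, List.length_cons] at hn
  rw [hs]
  omega

theorem pinSt (hCn : CnSt) (hH : HnSt) : PinSt := by
  intro α _ l V X r hV hX hV1 hX1 hr z u f hf hz hc hg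
  by_contra hcon
  obtain ⟨n1, n2⟩ := not_or.1 hcon
  obtain ⟨φ, Ψ, p1, p2, p3, -⟩ := hH α l V X hV hX hV1 hX1
  obtain ⟨-, -, -, c4, -, c6, -, -, -, c10⟩ := hCn α
  obtain ⟨h, hh, L, hL, e, hl⟩ := c10 l ((lt l)⁻¹ * z)
  have e' : (lt l)⁻¹ * z = h * Pin_P l L := e
  have hz' := c6 l z hz
  have hL1 : ∀ p ∈ ((1 : ℤˣ), h) :: L, p.2 ∈ Fr {l.1} := by
    intro p hp
    rcases List.mem_cons.1 hp with rfl | hp
    exacts [hh, hL p hp]
  have ez : z = Pin_P l ((1, h) :: L) := by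
    rw [inv_mul_eq_iff_eq_mul.1 e']
    simp [Pin_P, mul_assoc]
  have k1 := Pin_chain hCn l l 1 rfl (by simp) V 1 1 z hV (one_mem _) (one_mem _) _ hL1
    (by simpa using ez) (by simp only [List.length_cons]; omega) n1
  have k2 := Pin_chain hCn l (bar l) (-1) rfl (by simp [Dia_lt_bar]) X (V⁻¹ * h) (h⁻¹ * V) _ hX
    (mul_mem (inv_mem hV) hh) (mul_mem (inv_mem hh) hV) (L ++ [(1, h)])
    (fun p hp => hL1 p (by simpa [or_comm] using hp))
    (by rw [e']; simp [Pin_P, mul_assoc])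
    (by
      rw [(c4 _ _ _ hV).1, (c4 _ _ _ (inv_mem hV)).2, hc]
      simp only [List.length_append, List.length_singleton]
      omega) n2
  have k3 := k1.append (List.isChain_singleton ((1 : ℤˣ), h)) (by simp)
  have k4 := k2.cons (x := ((1 : ℤˣ), h)) (by simp)
  refine Pin_cyc φ (1, h) L ?_ (Ψ u) f ?_
  · rw [List.isChain_iff_getElem] at k3 k4 ⊢
    intro i hi hm
    rcases Int.units_eq_one_or (((1 : ℤˣ), h) :: L ++ [((1 : ℤˣ), h)])[i].1 with q | q
    · rw [q] at hm ⊢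
      exact (k3 i hi q hm).symm
    · rw [q] at hm ⊢
      exact (k4 i hi q hm).symm
  · have := hg.hom Ψ (hr ▸ p3)
    rw [map_mul, map_mul, map_inv, p2 f hf, ez, Pin_P, map_list_prod, List.map_map] at this
    rw [← this]
    congr 3
    refine List.map_congr_left fun p hp => ?_
    simp [p1, p2 _ (hL1 p hp)]

end Pool.Agent.MI
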