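import Pool.Agent.Lib.MP_c86c76_al.Bi.Defs

/-!
Formal properties of the equivalence of arcs.
-/

set_option autoImplicit false

namespace Pool.Agent.MI

open Pool.Agent.MB Pool.Agent.MN Pool.Agent.MG Pool.Agent.MT
open FreeGroup hiding map_mul map_inv map_one

theorem Rel_pre {G : Type} [Group G] (θ : MulAut G) (D : List G) (s : G) :
    DualPre (D.map θ) (θ s) = θ (DualPre D s) := by
  induction D with
  | nil => simp [DualPre]
  | cons x t ih =>
    by_cases h : x = s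
    · simp [DualPre, h]
    · simp [DualPre, h, ih]

theorem Rel_rot {G : Type} [Group G] (θ : MulAut G) (D : List G) (s : G) :
    rot (D.map θ) (θ s) = θ (rot D s) := by
  simp only [rot, Rel_pre, map_mul, map_inv, map_list_prod]

variable {α : Type}

theorem Rel_dg (θ : MulAut (FreeGroup α)) (r : FreeGroup α) (D : List (FreeGroup α))
    (h : Dg r D) : Dg (θ r) (D.map θ) := by
  obtain ⟨θ0, W, hW, e, rfl⟩ := h
  refine ⟨θ * θ0, W, hW, ?_, (map_list_prod θ D).symm⟩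
  rw [e, List.map_map]
  rfl

theorem Rel_conj (r u : FreeGroup α) : MulAut.conj u ∈ Xi r :=
  Subgroup.subset_closure (Or.inr ⟨u, rfl⟩)

theorem Rel_xi (θ : MulAut (FreeGroup α)) (r : FreeGroup α) :
    ∀ ξ ∈ Xi r, θ * ξ * θ⁻¹ ∈ Xi (θ r) := by
  intro ξ h
  induction h using Subgroup.closure_induction with
  | mem τ h =>
    rcases h with ⟨D, s, hD, hs, h1, h2⟩ | ⟨u, rfl⟩
    · refine Subgroup.subset_closure (Or.inl ⟨D.map θ, θ s, Rel_dg θ r D hD,
        List.mem_map_of_mem hs, ?_, fun w hw hp => ?_⟩)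
      · rw [← map_inv, Rel_rot, ← map_mul, ← h1]
        simp
      · obtain ⟨v, hv, rfl⟩ := List.mem_map.1 hw
        have : τ v = v := h2 v hv fun a => hp (a.imp (congrArg θ) fun e => by rw [e, map_inv])
        simp [this]
    · have : θ * MulAut.conj u * θ⁻¹ = MulAut.conj (θ u) := by
        ext w
        simp
      rw [this]
      exact Rel_conj _ _
  | one => simp
  | mul a b _ _ ha hb =>
    have : θ * (a * b) * θ⁻¹ = θ * a * θ⁻¹ * (θ * b * θ⁻¹) := by group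
    rw [this]
    exact Subgroup.mul_mem _ ha hb
  | inv a _ ha =>
    have : θ * a⁻¹ * θ⁻¹ = (θ * a * θ⁻¹)⁻¹ := by group
    rw [this]
    exact Subgroup.inv_mem _ ha

theorem Rel_eq {r : FreeGroup α} {ξ : MulAut (FreeGroup α)} (h : ξ ∈ Xi r) : Xi (ξ r) = Xi r := by
  refine le_antisymm (fun η hη => ?_) fun η hη => ?_
  · have a := Rel_xi ξ⁻¹ _ η hη
    rw [MulAut.inv_apply_self] at a
    have e : η = ξ * (ξ⁻¹ * η * ξ⁻¹⁻¹) * ξ⁻¹ := by group
    rw [e]
    exact Subgroup.mul_mem _ (Subgroup.mul_mem _ h a) (Subgroup.inv_mem _ h)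
  · have a := Rel_xi ξ r _ (Subgroup.mul_mem _ (Subgroup.mul_mem _ (Subgroup.inv_mem _ h) hη) h)
    have e : η = ξ * (ξ⁻¹ * η * ξ) * ξ⁻¹ := by group
    rw [e]
    exact a

theorem relSt : RelSt := by
  intro α
  refine ⟨Rel_dg, ?_, ?_, Rel_xi, Rel_conj, ?_, ?_, ?_, ?_, ?_⟩
  · rintro θ r y ⟨E, h⟩
    exact ⟨E.map θ, Rel_dg θ r _ h⟩
  · rintro r ζ A E ⟨θ, W, hW, e, rfl⟩
    obtain ⟨W1, W2, rfl, e1, e2⟩ := List.map_eq_append_iff.1 e.symm
    have h : Dg (ζ :: E ++ A).prod (ζ :: E ++ A) :=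
      ⟨θ, W2 ++ W1, ⟨List.perm_append_comm.nodup hW.1,
        fun l => List.perm_append_comm.subset (hW.2 l)⟩, by rw [List.map_append, e1, e2], rfl⟩
    have k := Rel_dg (MulAut.conj A.prod) _ _ h
    have e3 : MulAut.conj A.prod (ζ :: E ++ A).prod = (A ++ ζ :: E).prod := by
      simp only [MulAut.conj_apply, List.prod_append, List.prod_cons]
      group
    rw [e3] at k
    exact ⟨_, k⟩
  · rintro r y _ y' ⟨ξ, h, rfl, k⟩
    have a : ξ⁻¹ ∈ Xi (ξ r) := by
      rw [Rel_eq h]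
      exact Subgroup.inv_mem _ h
    rcases k with rfl | k
    · exact ⟨ξ⁻¹, a, by simp, Or.inl (by simp)⟩
    · have e : y' = ξ (r * y⁻¹) := by
        rw [map_mul, map_inv, k]
        group
      refine ⟨MulAut.conj r⁻¹ * ξ⁻¹, Subgroup.mul_mem _ (Rel_conj _ _) a, by simp, Or.inr ?_⟩
      rw [e, MulAut.mul_apply, MulAut.inv_apply_self, MulAut.conj_apply]
      group
  · rintro r y _ y' _ y'' ⟨ξ, h, rfl, k⟩ ⟨η, h', rfl, k'⟩
    rw [Rel_eq h] at h'
    have a := Subgroup.mul_mem _ h' h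
    rcases k with rfl | k
    · exact ⟨η * ξ, a, rfl, k'⟩
    · rcases k' with rfl | k'
      · refine ⟨η * ξ, a, rfl, Or.inr ?_⟩
        rw [MulAut.mul_apply, k, map_mul, map_inv]
      · refine ⟨MulAut.conj (η (ξ r)) * (η * ξ), Subgroup.mul_mem _ (Rel_conj _ _) a, by simp,
          Or.inl ?_⟩
        rw [MulAut.mul_apply, MulAut.mul_apply, k, map_mul, map_inv, k', MulAut.conj_apply]
        group
  · rintro r y u _ _ rfl rfl
    exact ⟨MulAut.conj u⁻¹, Rel_conj _ _, by simp, Or.inl (by simp)⟩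
  · intro r y
    refine ⟨MulAut.conj r⁻¹, Rel_conj _ _, by simp, Or.inr ?_⟩
    rw [MulAut.conj_apply]
    group
  · rintro θ r y _ y' ⟨ξ, h, rfl, k⟩
    refine ⟨θ * ξ * θ⁻¹, Rel_xi θ r ξ h, by simp, ?_⟩
    rcases k with rfl | k
    · exact Or.inl (by simp)
    · exact Or.inr (by simp [k])

end Pool.Agent.MI
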