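import Pool.Agent.Lib.MP_c86c76_al.Bi.Defs

/-!
The shape of the base word.
-/

set_option autoImplicit false

namespace Pool.Agent.MI

open Pool.Agent.MB Pool.Agent.MN Pool.Agent.MG Pool.Agent.MT
open FreeGroup hiding map_mul map_inv map_one

section

variable {α : Type} [DecidableEq α]

theorem Sh_red {l : α × Bool} {y : FreeGroup α} (h : ¬ Hs l y) : IsReduced (bar l :: y.toWord) := by
  refine List.IsChain.cons isReduced_toWord ?_
  intro b hb e
  by_contra k
  refine h ?_
  rcases Dia_eq_or_bar (l := l) (u := b) e.symm with rfl | rfl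
  · exact hb
  · exact (k rfl).elim

theorem Sh_head {l : α × Bool} {y : FreeGroup α} (h : ¬ Hs l y) :
    ((lt l)⁻¹ * y).toWord.head? = some (bar l) := by
  have : (lt l)⁻¹ * y = mk (bar l :: y.toWord) := by rw [ex_mk_cons, Dia_lt_bar, mk_toWord]
  rw [this, toWord_mk, (Sh_red h).reduce_eq]
  rfl

theorem Sh_head2 (hCn : CnSt) {l a : α × Bool} {y T : FreeGroup α} (hT : T ∈ Fr {l.1})
    (ha : T.toWord.head? = some a) (h : ¬ Hs l y) :
    (T * ((lt l)⁻¹ * y)).toWord.head? = some a := by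
  have e : T * ((lt l)⁻¹ * y) = mk (T.toWord ++ bar l :: y.toWord) := by
    rw [ex_mk_append, ex_mk_cons, Dia_lt_bar, mk_toWord, mk_toWord]
  have r : IsReduced (T.toWord ++ bar l :: y.toWord) := by
    refine List.IsChain.append isReduced_toWord (Sh_red h) ?_
    intro b hb d hd k
    obtain rfl : bar l = d := by simpa using hd
    have := List.countP_eq_zero.1 (((hCn α).2.2.1 l.1 T).2 hT) b (List.mem_of_getLast? hb)
    exact (this (by simpa [bar] using k)).elim
  rw [e, toWord_mk, r.reduce_eq, List.head?_append, ha]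
  rfl

theorem Sh_pow {V : List (α × Bool)} {a z : α × Bool} (hV : IsReduced V) (ha : V.head? = some a)
    (hz : V.getLast? = some z) (h : a ≠ bar z) (n : ℕ) :
    (mk V ^ (n + 1)).toWord.head? = some a ∧ (mk V ^ (n + 1))⁻¹.toWord.head? = some (bar z) := by
  have c : IsCyclicallyReduced V := by
    refine ⟨hV, fun u hu v hv e => ?_⟩
    obtain rfl : z = u := Option.some_injective _ (hz.symm.trans hu)
    obtain rfl : a = v := Option.some_injective _ (ha.symm.trans hv)
    rcases Dia_eq_or_bar e.symm with k | k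
    · rw [k]
    · exact (h k).elim
  have e : (mk V ^ (n + 1)).toWord = (List.replicate (n + 1) V).flatten := by
    rw [toWord_pow, toWord_mk, hV.reduce_eq, (c.flatten_replicate _).isReduced.reduce_eq]
  constructor
  · rw [e, List.replicate_succ, List.flatten_cons, List.head?_append, ha]
    rfl
  · rw [toWord_inv, e, List.replicate_succ', List.flatten_append, invRev, List.head?_reverse,
      List.getLast?_map, List.getLast?_append]
    simp [hz, bar]

end

theorem shSt (hCn : CnSt) (hCh : ChSt) (hG : GapSt) : ShSt := by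
  intro α _ _ c l V X e
  have hn : (l :: bar l :: (V ++ X)).Nodup := by
    refine (List.Perm.nodup_iff ?_).1 (e ▸ c.full.1)
    exact List.perm_middle.trans (List.Perm.swap ..)
  have hx : ∀ u ∈ V ++ X, u.1 ≠ l.1 := by
    intro u hu k
    rcases Dia_eq_or_bar k with rfl | rfl
    · exact (List.nodup_cons.1 hn).1 (List.mem_cons_of_mem _ hu)
    · exact (List.nodup_cons.1 (List.nodup_cons.1 hn).2).1 hu
  have hr : c.r = lt l * mk V * (lt l)⁻¹ * mk X := by
    rw [Ctx.r, e, ex_mk_append, ex_mk_cons, ex_mk_cons, Dia_lt_bar, mul_assoc _ _ (mk X)]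
  have fV : mk V ∈ Fr {l.1} := ex_mk_mem _ _ fun u hu => hx u (List.mem_append_left _ hu)
  have fX : mk X ∈ Fr {l.1} := ex_mk_mem _ _ fun u hu => hx u (List.mem_append_right _ hu)
  have rW : IsReduced (l :: V ++ bar l :: X) := e ▸ (diaSt α c).1
  have rV : IsReduced V := List.IsChain.tail (List.IsChain.left_of_append rW)
  have nV : V ≠ [] := by
    rintro rfl
    have := (List.isChain_cons_cons.1 rW).1 rfl
    simp [bar] at this
  refine ⟨hr, fV, fX, fun k => nV ?_, fun k => ?_, ?_, ?_⟩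
  · rw [← rV.reduce_eq, ← toWord_mk, k, toWord_one]
  · refine c.ess (MulAut.conj (lt l)⁻¹) l.1 ?_
    change MulAut.conj (lt l)⁻¹ c.r ∈ _
    rw [hr, k]
    simpa [mul_assoc] using fV
  · refine (hCh α c).2.2.2.2.2 (MulAut.conj (lt l * mk V)) _ ?_ ?_
    · have p : (bar l :: X ++ bar (bar l) :: V).Perm c.W := by
        rw [e, Dia_bar_bar]
        exact List.perm_append_comm
      exact ⟨p.nodup_iff.2 c.full.1, fun u => p.symm.subset (c.full.2 u)⟩
    · rw [hr, Dia_bar_bar, ex_mk_append, ex_mk_cons, ex_mk_cons, Dia_lt_bar, MulAut.conj_apply]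
      group
  · intro D g f m hD w hw hg hf k
    by_contra hm
    obtain ⟨n, rfl⟩ : ∃ n : ℕ, m = ((n + 1 + 1 : ℕ) : ℤ) := ⟨(m - 2).toNat, by omega⟩
    rw [zpow_natCast] at k
    obtain ⟨a, V1, e1⟩ := List.exists_cons_of_ne_nil nV
    obtain ⟨V2, z, e2⟩ := (List.eq_nil_or_concat V).resolve_left nV
    have ha : V.head? = some a := by simp [e1]
    have hz : V.getLast? = some z := by simp [e2]
    have r1 : c.ρ a < c.ρ (bar l) := c.ch l a ⟨[], V1 ++ bar l :: X, by simp [e, e1]⟩
    have r2 : c.ρ (bar l) < c.ρ (bar z) := c.ch z (bar l) ⟨l :: V2, X, by simp [e, e2]⟩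
    have hp := Sh_pow rV ha hz (fun q => by rw [q] at r1; omega)
    refine (hG α c D hD).2 g (lt l * (mk V)⁻¹ * (lt l)⁻¹ * g) w hw w hw
      ⟨⟨lt l, ?_⟩, ⟨lt l * mk V ^ (n + 1), ?_⟩⟩
    · have d2 : (lt l)⁻¹ * (lt l * (mk V)⁻¹ * (lt l)⁻¹ * g) =
          (mk V ^ (0 + 1))⁻¹ * ((lt l)⁻¹ * g) := by group
      have d3 : (lt l)⁻¹ * (g * w) = mk V ^ (n + 1 + 1) * ((lt l)⁻¹ * f) := by
        rw [k]; group
      rw [dir, dir, dir, d2, d3, Sh_head hg, Sh_head2 hCn (inv_mem (pow_mem fV _)) (hp 0).2 hg,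
        Sh_head2 hCn (pow_mem fV _) (hp _).1 hf]
      simp only [rk, pos3]
      omega
    · have d1 : (lt l * mk V ^ (n + 1))⁻¹ * g = (mk V ^ (n + 1))⁻¹ * ((lt l)⁻¹ * g) := by group
      have d2 : (lt l * mk V ^ (n + 1))⁻¹ * (g * w) = mk V ^ (0 + 1) * ((lt l)⁻¹ * f) := by
        rw [k]; group
      have d3 : (lt l * mk V ^ (n + 1))⁻¹ * (lt l * (mk V)⁻¹ * (lt l)⁻¹ * g * w) =
          (lt l)⁻¹ * f := by
        rw [mul_assoc _ g, k]; group
      rw [dir, dir, dir, d1, d2, d3, Sh_head hf,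
        Sh_head2 hCn (inv_mem (pow_mem fV _)) (hp n).2 hg, Sh_head2 hCn (pow_mem fV _) (hp 0).1 hf]
      simp only [rk, pos3]
      omega

end Pool.Agent.MI
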