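import Pool.Agent.Lib.MP_c86c76_al.Bi.Defs

/-!
The pushes of the base diagram generate all pushes.
-/

set_option autoImplicit false

namespace Pool.Agent.MI

open Pool.Agent.MB Pool.Agent.MN Pool.Agent.MG Pool.Agent.MT
open FreeGroup hiding map_mul map_inv map_one

theorem Sl_rot {G : Type} [Group G] {D : List G} {a b : G} (hD : D.Nodup)
    (hD' : (slide D a b).Nodup) (hp : (slide D a b).prod = D.prod) (h : Adj D a b) (ha : a⁻¹ ∈ D)
    (haa : a ≠ a⁻¹) (hba' : b ≠ a⁻¹) :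
    rot D b = a⁻¹ * rot D a * a ∧ rot (slide D a b) (a * b)⁻¹ = b⁻¹ * rot D a⁻¹ * b ∧
      ∀ x ∈ D, x ≠ a → x ≠ a⁻¹ → x ≠ b → rot (slide D a b) x = rot D x := by
  refine ⟨?_, ?_, fun x hx h1 h2 h3 => ?_⟩
  · obtain ⟨l1, l2, e⟩ := id h
    rw [rot, rot, Dual_pre_nodup hD e,
      Dual_pre_nodup (l1 := l1 ++ [a]) (l2 := l2) hD (by simp [e]), List.prod_append,
      List.prod_singleton]
    group
  · obtain ⟨m1, m2, e⟩ := List.append_of_mem ha
    have e' : slide D a b = slide m1 a b ++ b :: (a * b)⁻¹ :: slide m2 a b := by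
      rw [e]
      simp [slide, haa.symm, hba'.symm]
    rw [rot, rot, hp, Dual_pre_nodup hD e, ← Dual_init hD h e hba'.symm,
      Dual_pre_nodup (l1 := slide m1 a b ++ [b]) (l2 := slide m2 a b) hD' (by simp [e']),
      List.prod_append, List.prod_singleton]
    group
  · obtain ⟨m1, m2, e⟩ := List.append_of_mem hx
    have : DualPre (slide D a b) x = DualPre D x := by
      rw [Dual_pre_nodup hD e, ← Dual_init hD h e h3]
      refine Dual_pre_nodup (l2 := slide m2 a b) hD' ?_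
      rw [e]
      simp [slide, h1, h2, h3]
    rw [rot, rot, hp, this]

theorem Sl_pm {G : Type} [Group G] {x y : G} (h : Pm x y) : Pm y x :=
  h.imp Eq.symm fun e => by rw [e, inv_inv]

variable {α : Type} [DecidableEq α] [Fintype α] {c : Ctx α} {J : Subgroup (MulAut (FreeGroup α))}

theorem Sl_uq (hT : TauSt) {D : List (FreeGroup α)} (h : IsD c D) {s : FreeGroup α}
    {τ : MulAut (FreeGroup α)} (h1 : Tau D s τ) : (∀ τ', Tau D s τ' → τ' ∈ J) ↔ τ ∈ J := by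
  refine ⟨fun k => k τ h1, fun k τ' h2 => ?_⟩
  rwa [(hT α c D h).1 τ' τ fun w hw => ?_]
  by_cases e : Pm w s
  · rcases e with rfl | rfl
    · rw [h1.1, h2.1]
    · rw [map_inv, map_inv, h1.1, h2.1]
  · rw [h1.2 w hw e, h2.2 w hw e]

theorem Sl_inv (hT : TauSt) {D : List (FreeGroup α)} (h : IsD c D) {s : FreeGroup α}
    (hs : s⁻¹ ∈ D) (k : ∀ τ, Tau D s τ → τ ∈ J) : ∀ τ, Tau D s⁻¹ τ → τ ∈ J := fun τ h1 => by
  have := (((hT α c D h).2.2 _ hs).2 τ h1).1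
  rw [inv_inv] at this
  exact J.inv_mem_iff.1 (k _ this)

theorem Sl_iff (hT : TauSt) {D : List (FreeGroup α)} {a b : FreeGroup α} (h : IsD c D)
    (hab : Adj D a b) : (∀ s ∈ D, ∀ τ, Tau D s τ → τ ∈ J) ↔
      ∀ s ∈ slide D a b, ∀ τ, Tau (slide D a b) s τ → τ ∈ J := by
  obtain ⟨n1, -, p1, n2, n3⟩ := (diaSt α c).2.2.2.2 D h
  obtain ⟨ha, hb, hba, hba', -, h', hR⟩ := n3 a b hab
  obtain ⟨n1', -, p2, n2', -⟩ := (diaSt α c).2.2.2.2 _ h'
  obtain ⟨r1, r2, r3⟩ := Sl_rot n1 n1' (p2.trans p1.symm) hab (n2 a ha).1 (n2 a ha).2.2.1 hba'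
  obtain ⟨ta, a1⟩ := ((hT α c D h).2.2 a ha).1
  obtain ⟨tb, b1⟩ := ((hT α c D h).2.2 b hb).1
  have a2 := (((hT α c D h).2.2 a ha).2 ta a1).1
  have b2 := (((hT α c D h).2.2 b hb).2 tb b1).2.1
  have nba : ¬ Pm b a := fun e => e.elim hba hba'
  have nab : ¬ Pm a b := fun e => nba (Sl_pm e)
  have two : ∀ τ : MulAut (FreeGroup α), τ (a * b) = a * b → ∀ (Q : FreeGroup α → Prop),
      (∀ w ∈ D, w ≠ a → w ≠ a⁻¹ → Q w → τ w = w) → ∀ w ∈ slide D a b, Q w → τ w = w := by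
    intro τ e Q k w hw hq
    rcases (hR w).1 hw with e' | rfl | rfl
    · exact k w e'.1 e'.2.1 e'.2.2 hq
    · exact e
    · rw [map_inv, e]
  have c1 : Tau (slide D a b) (a * b) ta := by
    refine ⟨by rw [map_mul, a1.1, a1.2 b hb nba, r2]; group, fun w hw e => ?_⟩
    rcases (hR w).1 hw with e' | rfl | rfl
    · exact a1.2 w e'.1 fun k => k.elim e'.2.1 e'.2.2
    · exact absurd (Or.inl rfl) e
    · exact absurd (Or.inr rfl) e
  have c2 : ∀ y ∈ D, ¬ Pm y a → ¬ Pm y b → ∀ τ, Tau D y τ → Tau (slide D a b) y τ := by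
    intro y hy e1 e2 τ k
    refine ⟨?_, two τ ?_ _ fun w hw _ _ e => k.2 w hw e⟩
    · rw [k.1, r3 _ (n2 y hy).1 (fun e => e1 (Or.inr (by rw [← e, inv_inv])))
        (fun e => e1 (Or.inl (inv_injective e))) fun e => e2 (Or.inr (by rw [← e, inv_inv]))]
    · rw [map_mul, k.2 a ha fun e => e1 (Sl_pm e), k.2 b hb fun e => e2 (Sl_pm e)]
  have f1 : ∀ w ∈ D, ¬ Pm w a → ta⁻¹ w = w := fun w hw e =>
    ta.symm_apply_eq.2 (a1.2 w hw e).symm
  have c3 : Tau (slide D a b) b (tb * ta⁻¹) := by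
    refine ⟨?_, two _ ?_ _ fun w hw e1 e2 e => ?_⟩
    · rw [MulAut.mul_apply, f1 b hb nba, b1.1, r3 _ (n2 b hb).1
        (fun e => hba' (by rw [← e, inv_inv])) (fun e => hba (inv_injective e))
        (n2 b hb).2.2.1.symm]
    · have e : ta⁻¹ a = a * (rot D b)⁻¹ := by
        have := a2.1
        rw [map_inv, inv_inv, inv_eq_iff_eq_inv] at this
        rw [this, r1]
        group
      rw [MulAut.mul_apply, map_mul, e, f1 b hb nba, map_mul, map_mul, map_inv, b2, b1.1,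
        b1.2 a ha nab]
      group
    · rw [MulAut.mul_apply, f1 w hw fun k => k.elim e1 e2, b1.2 w hw e]
  have mb : b ∈ slide D a b := (hR _).2 (Or.inl ⟨hb, hba, hba'⟩)
  have me : a * b ∈ slide D a b := (hR _).2 (Or.inr (Or.inl rfl))
  constructor
  · intro hQ w hw
    have ka := hQ a ha ta a1
    have kb := (Sl_uq hT h' c3).2 (J.mul_mem (hQ b hb tb b1) (J.inv_mem ka))
    have ke := (Sl_uq hT h' c1).2 ka
    rcases (hR w).1 hw with e | rfl | rfl
    · by_cases e1 : Pm w b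
      · rcases e1 with rfl | rfl
        · exact kb
        · exact Sl_inv hT h' hw kb
      obtain ⟨τ, k⟩ := ((hT α c D h).2.2 w e.1).1
      exact (Sl_uq hT h' (c2 w e.1 (fun k => k.elim e.2.1 e.2.2) e1 τ k)).2 (hQ w e.1 τ k)
    · exact ke
    · exact Sl_inv hT h' hw ke
  · intro hQ w hw
    have ka := hQ _ me ta c1
    have kb := J.mul_mem (hQ b mb _ c3) ka
    rw [inv_mul_cancel_right] at kb
    by_cases e1 : Pm w a
    · rcases e1 with rfl | rfl
      · exact (Sl_uq hT h a1).2 ka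
      · exact Sl_inv hT h hw ((Sl_uq hT h a1).2 ka)
    by_cases e2 : Pm w b
    · rcases e2 with rfl | rfl
      · exact (Sl_uq hT h b1).2 kb
      · exact Sl_inv hT h hw ((Sl_uq hT h b1).2 kb)
    exact fun τ k => hQ w ((hR w).2 (Or.inl ⟨hw, fun e => e1 (Or.inl e), fun e => e1 (Or.inr e)⟩))
      τ (c2 w hw e1 e2 τ k)

theorem slSt (hT : TauSt) : SlSt := by
  intro α _ _ c J h0 D hD
  refine (connA α c).2.2 ∅ (fun D => ∀ s ∈ D, ∀ τ, Tau D s τ → τ ∈ J) h0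
    (fun D D' hm _ _ hQ => ?_) D hD fun _ h => h.elim
  rcases (mvA α c).2.2.1 D D' hm with ⟨a, b, hab, rfl⟩ | ⟨a, b, hab, rfl⟩
  · exact (Sl_iff hT hm.1 hab).2 hQ
  · exact (Sl_iff hT hm.2.1 hab).1 hQ

end Pool.Agent.MI
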