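import Pool.Agent.Lib.MP_c86c76_al.Bi.Defs

/-!
The strand next to the hole.
-/

set_option autoImplicit false

namespace Pool.Agent.MI

open Pool.Agent.MB Pool.Agent.MN Pool.Agent.MG Pool.Agent.MT
open FreeGroup hiding map_mul map_inv map_one

theorem Sp_split {G : Type} [Group G] (P : G → Prop) (D : List G) : ∀ p, ¬ P p → P (p * D.prod) →
    ∃ A ζ E, D = A ++ ζ :: E ∧ ¬ P (p * A.prod) ∧ P (p * A.prod * ζ) := by
  induction D with
  | nil => exact fun p h k => absurd (by simpa using k) h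
  | cons s D ih =>
    intro p h k
    by_cases n : P (p * s)
    · exact ⟨[], s, D, rfl, by simpa using h, by simpa using n⟩
    · obtain ⟨A, ζ, E, rfl, a, b⟩ := ih (p * s) n (by simpa [mul_assoc] using k)
      exact ⟨s :: A, ζ, E, rfl, by simpa [mul_assoc] using a, by simpa [mul_assoc] using b⟩

theorem Sp_head {α : Type} [DecidableEq α] {l : α × Bool} {T : FreeGroup α} (h : T ≠ 1)
    (h0 : cn l.1 T = 0) : ¬ Hs l (T * lt l) := by
  have k : ∀ u ∈ T.toWord, u.1 ≠ l.1 := by simpa [cn] using h0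
  have r : IsReduced (T.toWord ++ [l]) :=
    List.IsChain.append isReduced_toWord (by simp) fun a ha b hb e => by
      obtain rfl : l = b := Option.some.inj hb
      exact absurd e (k a (List.mem_of_getLast? ha))
  have e : (T * lt l).toWord = T.toWord ++ [l] := by
    conv_lhs => rw [← mk_toWord (x := T), lt, mul_mk, toWord_mk, r.reduce_eq]
  rw [Hs, e]
  rcases e' : T.toWord with _ | ⟨u, W⟩
  · exact absurd (toWord_eq_nil_iff.1 e') h
  · exact fun q => k u (by simp [e']) (congrArg Prod.fst (Option.some.inj q))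

theorem Sp_ch {α : Type} [DecidableEq α] {x : α} {w : FreeGroup α} (h : w ∈ Fr {x}) :
    ch (Pi.single x 1) w = 0 := by
  rw [(om_Fr h).1 _ 0 fun y hy => Pi.single_eq_of_ne hy _, ch_zero]

theorem Sp_two (hCn : CnSt) {α : Type} [DecidableEq α] (l : α × Bool) {y : FreeGroup α}
    (h : cn l.1 (lt l * y) = cn l.1 y + 1) : cn l.1 (y * lt l) ≤ cn l.1 (lt l * y * lt l) := by
  obtain ⟨c1, c2, c3, -, c5, c6, c7, c8, -, -⟩ := hCn α
  by_contra n
  have a1 := c1 l.1 (lt l * y * lt l) (lt l)⁻¹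
  have a2 := c1 l.1 y (lt l)
  have a3 := (c5 l).1
  rw [mul_inv_cancel_right, c2] at a1
  have b1 : Hs l (lt l * y)⁻¹ := by_contra fun k => by
    have := c7 l _ k
    rw [← mul_inv_rev, c2, c2] at this
    omega
  have b2 : ¬ Hs l y⁻¹ := fun k => by
    have := c6 l _ k
    rw [← mul_inv_rev, c2, c2] at this
    omega
  have b3 := c8 l.1 l _ _ b2 b1
  rw [inv_inv, c2, c2, mul_inv_rev, mul_inv_cancel_left, c2] at b3
  have d1 := Sp_ch ((c3 l.1 y).1 (by omega))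
  have d2 := Sp_ch ((c3 l.1 (lt l * y * lt l)).1 (by omega))
  rw [ch_mul, ch_mul, d1, ch_lt, Pi.single_eq_same] at d2
  rcases l with ⟨x, _ | _⟩ <;> simp at d2

theorem spSt (hCn : CnSt) (hUp : UpSt) (hG : GapSt) (hE : ExSt) (hS : ShSt) : SpSt := by
  intro α _ _ c l V X hW
  obtain ⟨c1, c2, c3, c4, c5, c6, c7, c8, -, -⟩ := hCn α
  obtain ⟨er, hV, hX, nV, -⟩ := hS α c l V X hW
  obtain ⟨u1, -, u3, u4⟩ := hUp α c
  replace u4 := fun g h => u4 l (V ++ bar l :: X) g h (by simp [hW])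
  obtain ⟨h1, h2, -, -, -, -, h7, -⟩ := cycA α c.ρ
  have hr : Hs l c.r := by
    rw [Hs, Ctx.r, toWord_mk, (diaSt α c).1.reduce_eq, hW]
    rfl
  generalize mk V = v at *
  generalize mk X = x at *
  obtain ⟨σ, hσ⟩ : ∃ σ, σ = x⁻¹ * lt l := ⟨_, rfl⟩
  have s1 : cn l.1 σ = 1 := by rw [hσ, (c4 _ _ _ (inv_mem hX)).2, (c5 l).1]
  obtain ⟨co, hco⟩ : ∃ co : FreeGroup α → ℕ, ∀ w,
    co w = 4 * cn l.1 w + cn l.1 (σ⁻¹ * w) + cn l.1 (w * σ) := ⟨_, fun _ => rfl⟩
  have ci : ∀ w, co w⁻¹ = co w := fun w => by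
    rw [hco, hco, ← mul_inv_rev, c2, c2, ← c2 _ (w⁻¹ * σ), mul_inv_rev, inv_inv]
    omega
  have cb : ∀ w, co w ≤ 6 * cn l.1 w + 2 ∧ 6 * cn l.1 w ≤ co w + 2 := fun w => by
    have a1 := c1 l.1 σ⁻¹ w
    have a2 := c1 l.1 w σ
    have a3 := c1 l.1 σ (σ⁻¹ * w)
    have a4 := c1 l.1 (w * σ) σ⁻¹
    rw [mul_inv_cancel_left] at a3
    rw [mul_inv_cancel_right] at a4
    rw [c2] at a1 a4
    rw [hco]
    omega
  intro D y hD hy
  induction hn : (D.map co).sum using Nat.strong_induction_on generalizing D with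
  | _ n ih =>
  subst hn
  obtain ⟨-, -, hp, hi, -⟩ := (diaSt α c).2.2.2.2 D hD
  obtain ⟨A, ζ, E, e, a, b⟩ := Sp_split (Hs l) D 1 (c5 l).2.2 (by rwa [one_mul, hp])
  rw [one_mul] at a b
  by_cases pm : Pm ζ y
  · exact Or.inl ⟨A, ζ, E, e ▸ hD, pm, a, b⟩
  have n1 : y ≠ ζ := fun k => pm (Or.inl k.symm)
  have n2 : y ≠ ζ⁻¹ := fun k => pm (Or.inr (by rw [k, inv_inv]))
  have z1 := c8 l.1 l _ _ a b
  have z2 := c6 l _ b
  rw [inv_mul_cancel_left] at z1
  obtain ⟨i1, -, i2, -⟩ := hi ζ (by simp [e])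
  rw [e, List.mem_append, List.mem_cons] at i1
  rcases i1 with i1 | i1 | i1
  · obtain ⟨A1, B, rfl⟩ := List.append_of_mem i1
    refine ih _ ?_ _ ((hE α c.r ζ⁻¹ _ A1 B E (by rw [inv_inv, ← e]; exact hD)).1 rfl) ?_ rfl
    · have := cb ζ
      have := cb (A1 ++ ζ⁻¹ :: B).prod
      simp only [e, List.map_append, List.map_cons, List.sum_append, List.sum_cons, ci,
        List.prod_append, List.prod_cons, ← mul_assoc] at *
      omega
    · simp only [e, List.mem_append, List.mem_cons] at hy ⊢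
      tauto
  · exact absurd i1.symm i2
  obtain ⟨B, E1, rfl⟩ := List.append_of_mem i1
  by_cases px : A.prod = x
  · refine Or.inr fun g w hw k1 k2 => by_contra fun n => ?_
    have mw : w ∈ D := hw.elim (fun k => k ▸ hy) fun k => k ▸ (hi y hy).1
    have g1 := (hG α c D hD).1 A _ g e w mw
    rw [px] at g1 a
    refine (u1 g x n).elim (fun k => g1 ⟨k, u4 _ _ a k2⟩) fun k => ?_
    have t1 : cn l.1 (v⁻¹ * lt (bar l)) = 1 := by
      rw [(c4 _ _ _ (inv_mem hV)).2]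
      exact (c5 (bar l)).1
    have t2 := c7 (bar l) _ (Sp_head (l := bar l) (inv_ne_one.2 nV) ((c3 _ _).2 (inv_mem hV)))
    have t3 : Hs l ((lt (bar l))⁻¹ * (v⁻¹ * lt (bar l))) := by_contra fun q => by
      have := c7 l _ q
      rw [Dia_lt_bar, inv_inv] at *
      rw [inv_mul_cancel_left] at this
      change cn l.1 _ = cn l.1 _ + 1 at t2
      omega
    have t4 := h1 _ _ _ (h1 _ _ _ (h2 ((lt (bar l))⁻¹ * (v⁻¹ * lt (bar l)))⁻¹ _ _ _
      (h7 _ _ _ k (u4 _ _ k1 t3))))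
    rw [inv_mul_cancel, show ((lt (bar l))⁻¹ * (v⁻¹ * lt (bar l)))⁻¹ * x = c.r by
      rw [er, Dia_lt_bar]; group] at t4
    exact u3 _ (Or.inr t4)
  obtain ⟨q, hq⟩ : ∃ q, q = (lt l)⁻¹ * (A.prod * ζ) := ⟨_, rfl⟩
  have ed : B.prod * ζ⁻¹ * E1.prod = q⁻¹ * v * (lt l)⁻¹ * x := by
    have : lt l * v * (lt l)⁻¹ * x = A.prod * (ζ * (B.prod * (ζ⁻¹ * E1.prod))) := by
      rw [← er, ← hp, e]
      simp
    rw [hq, ← mul_right_inj (A.prod * ζ)]
    simp only [mul_assoc] at this ⊢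
    rw [← this]
    group
  refine ih _ ?_ _ ((hE α c.r ζ _ A B E1 (by
    rw [List.append_assoc, List.cons_append, ← e]; exact hD)).2 rfl) ?_ rfl
  · have key : co (q⁻¹ * v * (lt l)⁻¹ * x) < co ζ := by
      have d1 : cn l.1 (q⁻¹ * v * (lt l)⁻¹ * x) ≤ cn l.1 q + 1 := by
        rw [(c4 _ _ _ hX).1]
        refine (c1 _ _ _).trans ?_
        rw [(c4 _ _ _ hV).1, c2, c2, (c5 l).1]
      rw [← hq] at z2
      by_cases p0 : cn l.1 A.prod = 0
      · have pF := (c3 _ _).1 p0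
        have eq : A.prod * ζ = lt l * q := by rw [hq, mul_inv_cancel_left]
        have ez : ζ = A.prod⁻¹ * (lt l * q) := by rw [← eq, inv_mul_cancel_left]
        have d2 : cn l.1 (q⁻¹ * v * (lt l)⁻¹ * x * σ) = cn l.1 q := by
          rw [show q⁻¹ * v * (lt l)⁻¹ * x * σ = q⁻¹ * v by rw [hσ]; group, (c4 _ _ _ hV).1, c2]
        have d3 : cn l.1 (σ⁻¹ * (q⁻¹ * v * (lt l)⁻¹ * x)) ≤ cn l.1 (q * x⁻¹ * lt l) + 1 := by
          rw [show σ⁻¹ * (q⁻¹ * v * (lt l)⁻¹ * x) = (q * x⁻¹ * lt l)⁻¹ * v * (lt l)⁻¹ * x by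
            rw [hσ]; group, (c4 _ _ _ hX).1]
          refine (c1 _ _ _).trans ?_
          rw [(c4 _ _ _ hV).1, c2, c2, (c5 l).1]
        have d4 : cn l.1 (q * x⁻¹ * lt l) ≤ cn l.1 (ζ * σ) := by
          rw [show ζ * σ = A.prod⁻¹ * (lt l * (q * x⁻¹) * lt l) by rw [hσ, ez]; group,
            (c4 _ _ _ (inv_mem pF)).2]
          refine Sp_two hCn l ?_
          rw [← mul_assoc, (c4 _ _ _ (inv_mem hX)).1, (c4 _ _ _ (inv_mem hX)).1, ← eq, z2]
        have tF := mul_mem pF (inv_mem hX)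
        have d5 := c8 l.1 l _ _ (Sp_head (mul_inv_eq_one.not.2 px) ((c3 _ _).2 tF)) b
        rw [(c4 _ _ _ tF).2, (c5 l).1, show (A.prod * x⁻¹ * lt l)⁻¹ * (A.prod * ζ) =
          σ⁻¹ * ζ by rw [hσ]; group] at d5
        rw [hco, hco]
        omega
      · have := cb ζ
        have := cb (q⁻¹ * v * (lt l)⁻¹ * x)
        omega
    simp only [e, ed, List.map_append, List.map_cons, List.map_nil, List.sum_append, List.sum_cons,
      List.sum_nil, ci]
    omega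
  · simp only [e, List.mem_append, List.mem_cons] at hy ⊢
    tauto

end Pool.Agent.MI
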