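import Pool.Agent.Lib.MP_c86c76_al.Bi.Defs

/-!
The order on the free group: totality, initial segments of the base word, the largest element.
-/

set_option autoImplicit false

namespace Pool.Agent.MI

open Pool.Agent.MB Pool.Agent.MN Pool.Agent.MG Pool.Agent.MT
open FreeGroup hiding map_mul map_inv map_one

section

variable {α : Type} [DecidableEq α]

theorem Up_self (p : FreeGroup α) : dir p p = none := by
  rw [dir, inv_mul_cancel, toWord_one]
  rfl

theorem Up_lt (l : α × Bool) : dir 1 (lt l) = some l := by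
  rw [dir, inv_one, one_mul, lt, toWord_mk]
  simp

theorem Up_let {ρ : α × Bool → ℕ} {l u : α × Bool} (h : ρ l < ρ u) : Lo ρ (lt l) (lt u) := by
  refine Or.inr ⟨1, ?_⟩
  rw [Up_self, Up_lt, Up_lt]
  simp only [rk, pos3]
  omega

theorem Up_ne {p c q : FreeGroup α} (h : Bt p c q) (hn : p ≠ q) : dir c p ≠ dir c q := by
  refine ((btDir p c q).1 h).elim (fun e k => hn ?_) id
  subst e
  rw [Up_self, dir, eq_comm, List.head?_eq_none_iff, toWord_eq_nil_iff, inv_mul_eq_one] at k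
  exact k

theorem Up_pre {U Z : List (α × Bool)} {g : FreeGroup α} (h : U ++ Z = g.toWord) :
    Bt 1 (mk U) g ∧ dir (mk U) g = Z.head? := by
  have hU : IsReduced U := by
    have := isReduced_toWord (x := g)
    rw [← h] at this
    exact List.IsChain.left_of_append this
  have e : ((1 : FreeGroup α)⁻¹ * g).toWord = ((1 : FreeGroup α)⁻¹ * mk U).toWord ++ Z := by
    rw [inv_one, one_mul, one_mul, toWord_mk, hU.reduce_eq, h]
  have k := btRest e
  exact ⟨by rw [Bt, k, e], by rw [dir, k]⟩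

theorem Up_last {U : List (α × Bool)} {s : α × Bool} (h : IsReduced (U ++ [s])) :
    dir (mk (U ++ [s])) 1 = some (bar s) := by
  rw [dir, mul_one, toWord_inv, toWord_mk, h.reduce_eq]
  simp [invRev, bar]

omit [DecidableEq α] in
theorem Up_mem (c : Ctx α) (l : α × Bool) : lt l ∈ c.D0 := List.mem_map_of_mem (c.full.2 l)

theorem Up_step (c : Ctx α) {s t : FreeGroup α}
    (h : Relation.TransGen (fun s t => Adj c.D0 t⁻¹ s) s t) :
    ∃ l u, s = lt l ∧ t = lt u ∧ c.ρ l < c.ρ u := by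
  have h1 : ∀ s t, Adj c.D0 t⁻¹ s → ∃ l u, s = lt l ∧ t = lt u ∧ c.ρ l < c.ρ u := by
    intro s t e
    obtain ⟨a, b, k, ha, hb⟩ := std_adj e
    exact ⟨b, bar a, hb.symm, by rw [Dia_lt_bar, ha, inv_inv], c.ch a b k⟩
  induction h with
  | single e => exact h1 _ _ e
  | tail _ e ih =>
    obtain ⟨l, u, e1, e2, k⟩ := ih
    obtain ⟨l', u', e3, e4, k'⟩ := h1 _ _ e
    obtain rfl := Dia_lt_inj (e2.symm.trans e3)
    exact ⟨l, u', e1, e4, k.trans k'⟩

variable [Fintype α]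

theorem Up_tri (c : Ctx α) {l u : α × Bool} (h : l ≠ u) : c.ρ l < c.ρ u ∨ c.ρ u < c.ρ l := by
  have key : ∀ l u, Relation.TransGen (fun s t => Adj c.D0 t⁻¹ s) (lt l) (lt u) →
      c.ρ l < c.ρ u := by
    intro l u e
    obtain ⟨l', u', e1, e2, k⟩ := Up_step c e
    rwa [Dia_lt_inj e1, Dia_lt_inj e2]
  exact (ord_tot cycA diaSt plA (diaSt α c).2.1 _ (Up_mem c l) _ (Up_mem c u)
    fun e => h (Dia_lt_inj e)).imp (key l u) (key u l)

theorem Up_of (c : Ctx α) {l u : α × Bool} (h : Lo c.ρ (lt l) (lt u)) : c.ρ l < c.ρ u := by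
  have hi := (cycA α c.ρ).2.2.2.2.1
  refine (Up_tri c fun e : l = u => hi (lt u) (e ▸ h)).resolve_right fun k => hi (lt l) ?_
  exact (cycA α c.ρ).2.2.2.2.2.1 _ _ _ h (Up_let k)

theorem Up_rk (c : Ctx α) {a b : Option (α × Bool)} (h : a ≠ b) : rk c.ρ a ≠ rk c.ρ b := by
  rcases a with _ | a <;> rcases b with _ | b <;> simp only [rk]
  · exact absurd rfl h
  · omega
  · omega
  · have := Up_tri c (l := a) (u := b) fun e => h (congrArg some e)
    omega

theorem Up_tot (c : Ctx α) (u v : FreeGroup α) (h : u ≠ v) : Lo c.ρ u v ∨ Lo c.ρ v u := by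
  by_cases hu : u = 1
  · exact Or.inl (Or.inl ⟨hu, fun e => h (hu.trans e.symm)⟩)
  by_cases hv : v = 1
  · exact Or.inr (Or.inl ⟨hv, hu⟩)
  obtain ⟨m, b1, b2, b3⟩ := btMedian 1 u v
  have k1 := Up_rk c (Up_ne b1 (Ne.symm hu))
  have k2 := Up_rk c (Up_ne b2 h)
  have k3 := Up_rk c (Up_ne b3 (Ne.symm hv))
  have : pos3 (rk c.ρ (dir m 1)) (rk c.ρ (dir m u)) (rk c.ρ (dir m v)) ∨
      pos3 (rk c.ρ (dir m 1)) (rk c.ρ (dir m v)) (rk c.ρ (dir m u)) := by
    unfold pos3
    omega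
  exact this.imp (fun k => Or.inr ⟨m, k⟩) fun k => Or.inr ⟨m, k⟩

/-- Along the base word the next letter is the direction just before the way back. -/
theorem Up_gap (hCh : ChSt) (c : Ctx α) {U : List (α × Bool)} {t : α × Bool}
    (hU : U ++ [t] <+: c.W) {d : Option (α × Bool)} (h1 : dir (mk U) 1 ≠ d) (h2 : d ≠ some t) :
    pos3 (rk c.ρ (dir (mk U) 1)) (rk c.ρ d) (rk c.ρ (some t)) := by
  obtain ⟨Y, hY⟩ := hU
  obtain ⟨hW, hD, -⟩ := diaSt α c
  rcases U.eq_nil_or_concat' with rfl | ⟨U, s, rfl⟩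
  · have e : dir (mk ([] : List (α × Bool))) 1 = none := Up_self 1
    rw [e] at h1 ⊢
    obtain ⟨z, rfl⟩ := Option.ne_none_iff_exists'.1 h1.symm
    have e0 : c.D0 = lt t :: Y.map lt := by rw [Ctx.D0, ← hY]; rfl
    have hz := Up_mem c z
    rw [e0] at hD hz
    have := Up_of c ((hCh α c).2.1 _ _ hD _ ((List.mem_cons.1 hz).resolve_left
      fun k => h2 (congrArg some (Dia_lt_inj k))))
    simp only [rk, pos3]
    omega
  · have hr : IsReduced (U ++ [s]) := by
      rw [← hY, List.append_assoc] at hW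
      exact List.IsChain.left_of_append hW
    have ha : Adj c.W s t := ⟨U, Y, by rw [← hY]; simp⟩
    have k := c.ch s t ha
    rw [Up_last hr] at h1 ⊢
    rcases d with _ | z
    · simp only [rk, pos3]
      omega
    have ha' : Adj c.D0 (lt (bar s))⁻¹ (lt t) := by
      rw [Dia_lt_bar, inv_inv]
      exact ord_adj_map lt ha
    have : c.ρ z < c.ρ t ∨ c.ρ (bar s) < c.ρ z :=
      (Up_tri c fun e => h2 (congrArg some e)).imp id fun e =>
        Up_of c ((((hCh α c).2.2.1 _ _ _ hD ha' _ (Up_mem c z)).1 (Up_let e)).resolve_left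
          fun e' => h1 (congrArg some (Dia_lt_inj e').symm))
    simp only [rk, pos3]
    omega

theorem Up_seg (hCh : ChSt) (c : Ctx α) (U : List (α × Bool)) (g h : FreeGroup α)
    (hU : U <+: c.W) (hg : U <+: g.toWord) (k : Lo c.ρ g h) : U <+: h.toWord := by
  induction U using List.reverseRecOn with
  | nil => exact List.nil_prefix
  | append_singleton U t ih =>
    obtain ⟨Z, hZ⟩ := ih ((List.prefix_append _ _).trans hU) ((List.prefix_append _ _).trans hg)
    obtain ⟨Y, hY⟩ := hg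
    have k' : Cyc c.ρ 1 g h := k.resolve_left fun e => by
      rw [e.1, toWord_one] at hY
      simp at hY
    by_contra hn
    obtain ⟨b, e⟩ := Up_pre hZ
    have e' : dir (mk U) g = some t := (Up_pre (Z := t :: Y) (by rw [← hY]; simp)).2
    refine cycAsym btSt k' ⟨mk U, ?_⟩
    rw [e']
    refine Up_gap hCh c hU (Up_ne b (cycDist k').2.2) fun e2 => hn ?_
    rw [e] at e2
    obtain ⟨Z', rfl⟩ := List.head?_eq_some_iff.1 e2
    exact ⟨Z', by rw [← hZ]; simp⟩

theorem Up_top (hCh : ChSt) (c : Ctx α) (h : FreeGroup α) : ¬ Lo c.ρ c.r h := by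
  intro k
  obtain ⟨hW, hD, -⟩ := diaSt α c
  have er : c.r.toWord = c.W := by rw [Ctx.r, toWord_mk, hW.reduce_eq]
  obtain ⟨Z, hZ⟩ := Up_seg hCh c c.W c.r h List.prefix_rfl (er ▸ List.prefix_rfl) k
  obtain ⟨b, -⟩ := Up_pre hZ
  have hne : c.r ≠ h := fun e => (cycA α c.ρ).2.2.2.2.1 h (e ▸ k)
  obtain ⟨y, hy⟩ := Option.ne_none_iff_exists'.1
    ((Up_self c.r).symm ▸ Up_ne ((btDir c.r c.r h).2 (Or.inl rfl)) hne).symm
  rcases c.W.eq_nil_or_concat' with e | ⟨E, z, e⟩
  · exact List.not_mem_nil (e ▸ c.full.2 y)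
  have k' : Cyc c.ρ 1 c.r h := k.resolve_left fun e' => by
    rw [e'.1, toWord_one, e] at er
    simp at er
  have e1 : dir c.r 1 = some (bar z) := by
    rw [Ctx.r, e]
    exact Up_last (e ▸ hW)
  have h1 : dir c.r 1 ≠ dir c.r h := Up_ne b (cycDist k').2.2
  have e0 : c.D0 = E.map lt ++ [lt z] := by rw [Ctx.D0, e]; simp
  have hm := Up_mem c y
  rw [e0] at hD hm
  rw [e1, hy] at h1
  have k2 := (hCh α c).2.2.2.1 _ _ hD _ hm
  rw [← Dia_lt_bar] at k2
  have := Up_of c (k2.resolve_left fun e' => h1 (congrArg some (Dia_lt_inj e').symm))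
  refine cycAsym btSt k' ⟨c.r, ?_⟩
  rw [e1, hy, Up_self]
  simp only [rk, pos3]
  omega

end

theorem upSt (hCh : ChSt) : UpSt := by
  intro α _ _ c
  refine ⟨Up_tot c, Up_seg hCh c, Up_top hCh c, fun l W g h e hg hh => ?_⟩
  refine (Up_tot c g h fun e' => hg (e' ▸ hh)).resolve_right fun k => hg ?_
  obtain ⟨Z, hZ⟩ := List.head?_eq_some_iff.1 hh
  obtain ⟨Y, hY⟩ := Up_seg hCh c [l] h g ⟨W, e.symm⟩ ⟨Z, hZ.symm⟩ k
  rw [Hs, ← hY]
  rfl

end Pool.Agent.MI
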