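import Pool.Agent.Lib.MP_c86c76_al.Bi.Defs

/-!
The kernel of the action on the surface group, from the steps.
-/

set_option autoImplicit false

namespace Pool.Agent.MI

open Pool.Agent.MB Pool.Agent.MG Pool.Agent.MT Pool.Agent.Lib.MP_c86c76_al
open Pool.Agent.MN hiding io
open FreeGroup hiding map_mul map_inv map_one

/-- An automorphism is conjugation by `u` modulo `r`. -/
def Inr {G : Type} [Group G] (r : G) (φ : MulAut G) (u : G) : Prop :=
  ∀ w, Cg r (φ w) (u * w * u⁻¹)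

theorem Inr.mul {G : Type} [Group G] {r u v : G} {φ ψ : MulAut G} (h : Inr r φ u)
    (k : Inr r ψ v) : Inr r (φ * ψ) (u * v) := fun w => by
  have h1 := cg_iff.1 (h (ψ w))
  have h2 := cg_iff.1 (k w)
  simp only [cg_iff, map_mul, map_inv, MulAut.mul_apply] at h1 h2 ⊢
  rw [h1, h2]
  group

theorem Inr.inv {G : Type} [Group G] {r u : G} {φ : MulAut G} (h : Inr r φ u) :
    Inr r φ⁻¹ u⁻¹ := fun w => by
  have h1 := cg_iff.1 (h (φ⁻¹ w))
  simp only [cg_iff, map_mul, map_inv, MulAut.apply_inv_self] at h1 ⊢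
  rw [h1]
  group

theorem Inr.conj {G : Type} [Group G] (r u : G) : Inr r (MulAut.conj u) u := fun _ => cg_iff.2 rfl

theorem Inr.one {G : Type} [Group G] {r : G} {φ : MulAut G} :
    Inr r φ 1 ↔ ∀ w, Cg r (φ w) w := by simp only [Inr, one_mul, inv_one, mul_one]

theorem Inr.congr {G : Type} [Group G] {r u v : G} {φ : MulAut G} (h : Inr r φ u)
    (k : Cg r u v) : Inr r φ v := fun w => by
  have h1 := cg_iff.1 (h w)
  simp only [cg_iff, map_mul, map_inv] at h1 k ⊢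
  rw [h1, k]

theorem asm_ctx (h : ℕ) : ∃ c : Ctx (Fin (2 * h + 2)), c.r = rr h ∧ Hd c.r (aa h) := by
  obtain ⟨c, hr, -, E, hE⟩ := key_base rwASt (n := 2 * h) (g := h) rfl
  exact ⟨c, hr, _, hE⟩

/-- Automorphisms that are inner modulo `r` are products of pushes and inner automorphisms. -/
theorem asm_xi (hR : RelSt) (hA : ArcSt) (hG : GamSt) (hF : FinSt) {h : ℕ} (h1 : 1 ≤ h)
    {φ : MulAut (FN (2 * h + 2))} (hφ : φ (rr h) = rr h) {u : FN (2 * h + 2)}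
    (hu : Inr (rr h) φ u) : φ ∈ Xi (rr h) := by
  obtain ⟨c, hr, ha⟩ := asm_ctx h
  obtain ⟨a1, -, -, -, -, a6, -⟩ := hA _ c
  have nul : Null (rr h) := hr ▸ null_full c.full
  rw [hr] at ha a1 a6
  obtain ⟨ξ, hξ, e1, e2⟩ := hF h h1 (φ (aa h)) u⁻¹ (hφ ▸ (hR _).2.1 φ _ _ ha) (by
    have := cg_iff.1 (hu (aa h))
    simp only [cg_iff, map_mul, map_inv] at this ⊢
    rw [this]
    group)
  obtain ⟨-, v, hv⟩ := a1 ξ hξ
  have hi : Inr (rr h) (ξ * φ) (v * u) := Inr.mul hv hu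
  have e3 : ξ (φ (aa h)) = aa h := e2.resolve_right fun e => by
    have := (hi (aa h)).ch nul (Pi.single ⟨2 * h, by omega⟩ 1)
    rw [MulAut.mul_apply, e] at this
    simp only [ch_mul, ch_inv, nul _] at this
    rw [aa, show io (2 * h + 2) (2 * h) = of ⟨2 * h, by omega⟩ from dif_pos _, ch_of,
      Pi.single_eq_same] at this
    omega
  obtain ⟨g1, g2, -⟩ := hG h h1
  have m : ξ * φ ∈ Gam h := ⟨show ξ (φ _) = _ by rw [hφ, e1], e3⟩
  obtain ⟨k, hk⟩ := g2 _ m _ hi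
  obtain ⟨η, hη, n1, n2, n3⟩ := a6 _ ha
  have key : ∀ k : ℤ, ∃ π ∈ Xi (rr h), π ∈ Gam h ∧ Inr (rr h) π (aa h ^ k) := fun k => by
    have p1 : MulAut.conj (aa h)⁻¹ * η ∈ Xi (rr h) := mul_mem ((hR _).2.2.2.2.1 _ _) hη
    have p2 : MulAut.conj (aa h)⁻¹ * η ∈ Gam h :=
      ⟨show MulAut.conj _ (η _) = _ by rw [n3, MulAut.conj_apply]; group,
        show MulAut.conj _ (η _) = _ by rw [n2, MulAut.conj_apply]; group⟩
    have p3 : Inr (rr h) (MulAut.conj (aa h)⁻¹ * η) (aa h)⁻¹ := by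
      simpa only [mul_one] using (Inr.conj _ (aa h)⁻¹).mul (Inr.one.2 n1)
    induction k using Int.induction_on with
    | zero =>
      exact ⟨1, one_mem _, one_mem _, by rw [zpow_zero]; exact Inr.one.2 fun _ => cg_iff.2 rfl⟩
    | succ k ih =>
      obtain ⟨π, q1, q2, q3⟩ := ih
      exact ⟨_, mul_mem q1 (inv_mem p1), mul_mem q2 (inv_mem p2), by
        simpa only [inv_inv, zpow_add_one] using q3.mul p3.inv⟩
    | pred k ih =>
      obtain ⟨π, q1, q2, q3⟩ := ih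
      exact ⟨_, mul_mem q1 p1, mul_mem q2 p2, by rw [zpow_sub_one]; exact q3.mul p3⟩
  obtain ⟨π, q1, q2, q3⟩ := key k
  have := g1 _ (mul_mem (inv_mem q2) m) (Inr.one.1 (by
    simpa only [inv_mul_cancel] using q3.inv.mul (hi.congr hk)))
  rw [inv_mul_eq_one] at this
  rw [show φ = ξ⁻¹ * π by rw [this, inv_mul_cancel_left]]
  exact mul_mem (inv_mem hξ) q1

theorem asm_one (hR : RelSt) (hA : ArcSt) (hG : GamSt) (hF : FinSt) (hK : KerSt) {h : ℕ}
    (h1 : 1 ≤ h) {φ : MulAut (FN (2 * h + 2))} (hφ : φ (rr h) = rr h)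
    (hu : ∀ w, Cg (rr h) (φ w) w) : φ ∈ Subgroup.zpowers (MulAut.conj (rr h)) := by
  obtain ⟨c, hr, -⟩ := asm_ctx h
  have := hK _ c
  rw [hr] at this
  exact this (hG h h1).2.2 φ (asm_xi hR hA hG hF h1 hφ (Inr.one.2 hu)) hφ hu

/-- The push of the boundary along the first arc. -/
def IsPush (h : ℕ) (p : MulAut (FN (2 * h + 2))) : Prop :=
  p (aa h) = aa h ∧
    p (io _ (2 * h + 1)) = (aa h)⁻¹ * rr h * io _ (2 * h + 1) * aa h ∧
    ∀ i < 2 * h, p (io _ i) = (aa h)⁻¹ * rr h * io _ i * ((aa h)⁻¹ * rr h)⁻¹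

theorem ex_push (h : ℕ) : ∃ p ∈ Gam h, IsPush h p := by
  obtain ⟨φ, e1, e2⟩ := res_onto (h := h) (MulAut.conj (sG h)) (sG h * eG h)
    (by rw [MulAut.conj_apply]; group) (by rw [MulAut.conj_apply]; group)
  have s : emb (2 * h) (sG h) = (aa h)⁻¹ * rr h := eq_inv_mul_of_mul_eq (emb_s h)
  refine ⟨φ.1, φ.2, φ.2.2, ?_, fun i hi => ?_⟩
  · rw [e2, map_mul, s, eG, emb_e, ← mul_assoc, ← mul_assoc, inv_mul_cancel_right]
  · rw [← emb_io hi, ← emb_res, e1, MulAut.conj_apply, map_mul, map_mul, map_inv, s]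

theorem IsPush.inr {h : ℕ} {p : MulAut (FN (2 * h + 2))} (hp : IsPush h p) :
    Inr (rr h) p (aa h)⁻¹ := fun w => by
  refine cg_iff.2 (DFunLike.congr_fun (ext_hom ((pj (rr h)).comp p.toMonoidHom)
    ((pj (rr h)).comp (MulAut.conj (aa h)⁻¹).toMonoidHom) fun i => ?_) w)
  change pj _ (p _) = pj _ (MulAut.conj _ _)
  rw [← io_of, MulAut.conj_apply]
  obtain k | k | k : (i : ℕ) < 2 * h ∨ (i : ℕ) = 2 * h ∨ (i : ℕ) = 2 * h + 1 := by omega
  · simp only [hp.2.2 i k, map_mul, map_inv, pj_r, mul_one]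
  · rw [k, hp.1]
    congr 1
    group
  · simp only [k, hp.2.1, map_mul, map_inv, pj_r, mul_one, inv_inv]

/-- A normal subgroup that contains the push induces all inner automorphisms. -/
theorem push_onto {h : ℕ} (J : Subgroup (St (h + 1))) [hJ : J.Normal] {p : St (h + 1)}
    (hp : IsPush h p.1) (m : p ∈ J) (u : FN (2 * h + 2)) : ∃ j ∈ J, Inr (rr h) j.1 u := by
  obtain ⟨c, hr, -⟩ := asm_ctx h
  let K : Subgroup (FN (2 * h + 2)) :=
    { carrier := {u | ∃ j ∈ J, Inr (rr h) j.1 u}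
      one_mem' := ⟨1, one_mem _, Inr.one.2 fun _ => cg_iff.2 rfl⟩
      mul_mem' := fun ⟨_, a, b⟩ ⟨_, a', b'⟩ => ⟨_, mul_mem a a', b.mul b'⟩
      inv_mem' := fun ⟨_, a, b⟩ => ⟨_, inv_mem a, b.inv⟩ }
  have key : ∀ x q, Pr c x q → x⁻¹ ∈ K := fun x q hx => by
    obtain ⟨σ, s1, s2, -⟩ := (normSt rwBSt _ c).2.1 (h + 1) x q rfl hx
    rw [hr] at s1
    refine ⟨_, hJ.conj_mem p m ⟨σ, s1⟩, fun w => ?_⟩
    have := (hp.inr (σ⁻¹ w)).hom ((pj (rr h)).comp σ.toMonoidHom)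
      ((congrArg (pj _) s1).trans (pj_r _))
    refine cg_iff.2 (this.trans ?_)
    change pj _ (σ _) = _
    rw [map_mul σ, map_mul σ, map_inv σ, map_inv σ, map_inv σ, MulAut.apply_inv_self, ← s2]
    rfl
  change u ∈ K
  induction u using FreeGroup.induction_on with
  | C1 => exact one_mem _
  | of i =>
    obtain ⟨q, e | e⟩ := (normSt rwBSt _ c).2.2 c.D0 (of i) (diaSt _ c).2.1
      (List.mem_map_of_mem (c.full.2 (i, true)))
    · exact inv_mem_iff.1 (key _ q e)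
    · exact inv_inv (of i) ▸ key _ q e
  | inv_of i ih => exact inv_mem ih
  | mul u v hu hv => exact mul_mem hu hv

theorem toMod_one {g : ℕ} {φ : St g} : toMod g φ = 1 ↔ ∃ u, Inr (ev _ (rW g)) φ.1 u := by
  have key : ∀ w, ((MulAut.congr (surfI g)).toMonoidHom.comp (ind _)) φ (surfI g (pj _ w)) =
      surfI g (pj _ (φ.1 w)) := fun w => by
    change surfI g (ind _ φ ((surfI g).symm (surfI g (pj _ w)))) = _
    rw [MulEquiv.symm_apply_apply]
    rfl
  refine cls_one.trans ⟨fun ⟨u, hu⟩ => ?_,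
    fun ⟨u, hu⟩ => ⟨surfI g (pj _ u), MulEquiv.ext fun x => ?_⟩⟩
  · obtain ⟨u, rfl⟩ := (surfI g).surjective u
    obtain ⟨u, rfl⟩ := QuotientGroup.mk'_surjective _ u
    refine ⟨u, fun w => cg_iff.2 ((surfI g).injective ?_)⟩
    rw [← key, ← hu, MulAut.conj_apply]
    simp only [map_mul, map_inv]
    rfl
  · obtain ⟨x, rfl⟩ := (surfI g).surjective x
    obtain ⟨w, rfl⟩ := QuotientGroup.mk'_surjective _ x
    refine Eq.trans ?_ (key w).symm
    rw [cg_iff.1 (hu w), MulAut.conj_apply]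
    simp only [map_mul, map_inv]
    rfl

end Pool.Agent.MI
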