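import Pool.Agent.Lib.MP_c86c76_al.Bi.Defs

/-!
The structure of the group of pushes.
-/

set_option autoImplicit false

namespace Pool.Agent.MI

open Pool.Agent.MB Pool.Agent.MN Pool.Agent.MG Pool.Agent.MT
open FreeGroup hiding map_mul map_inv map_one

theorem Ker_conj {G : Type} [Group G] (θ : MulAut G) (u : G) :
    θ * MulAut.conj u = MulAut.conj (θ u) * θ := by
  ext w
  simp

theorem Ker_normal {G : Type} [Group G] : (MulAut.conj (G := G)).range.Normal :=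
  ⟨by
    rintro _ ⟨u, rfl⟩ θ
    exact ⟨θ u, by rw [Ker_conj, mul_inv_cancel_right]⟩⟩

theorem kerSt (hCh : ChSt) (hT : TauSt) (hS : SlSt) (hO : OmSt) : KerSt := by
  intro α _ _ c hu φ hφ h1 h2
  by_cases hW : c.W = []
  · have : IsEmpty α := ⟨fun x => by simpa [hW] using c.full.2 (x, true)⟩
    rw [show φ = 1 from MulEquiv.ext fun w => Subsingleton.elim _ _]
    exact one_mem _
  have hD := (diaSt α c).2.1
  obtain ⟨t1, -, t3⟩ := hT α c _ hD
  have n3 := ((diaSt α c).2.2.2.2 _ hD).2.2.2.1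
  have mo : ∀ y, of y ∈ c.D0 := fun y => List.mem_map.2 ⟨(y, true), c.full.2 _, rfl⟩
  choose τ hτ using fun y => (t3 _ (mo y)).1
  have uq : ∀ y t, Tau c.D0 (of y) t → t = τ y := fun y t k => t1 _ _ fun w hw => by
    by_cases e : Pm w (of y)
    · rcases e with rfl | rfl
      · rw [k.1, (hτ y).1]
      · rw [map_inv, map_inv, k.1, (hτ y).1]
    · rw [k.2 w hw e, (hτ y).2 w hw e]
  obtain ⟨ν, hν⟩ : ∃ ν : FreeGroup α →* MulAut (FreeGroup α), ∀ y, ν (of y) = τ y :=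
    ⟨FreeGroup.lift τ, fun y => FreeGroup.lift_apply_of⟩
  obtain ⟨β, hβ⟩ : ∃ β : FreeGroup α →* FreeGroup α, ∀ y, β (of y) = (DualLoop c.D0 (of y))⁻¹ :=
    ⟨FreeGroup.lift _, fun y => FreeGroup.lift_apply_of⟩
  have key : ∀ s ∈ c.D0, ∀ t, Tau c.D0 s t → ∃ w, ν w = t ∧ β w = (DualLoop c.D0 s)⁻¹ := by
    intro s hs t k
    obtain ⟨⟨y, b⟩, -, rfl⟩ := List.mem_map.1 hs
    cases b
    · have k1 := ((t3 _ hs).2 t k).1
      rw [Dia_lt_false, inv_inv] at k1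
      exact ⟨(of y)⁻¹, by rw [map_inv, hν, ← uq y _ k1, inv_inv],
        by rw [map_inv, hβ, Dia_lt_false, Dual_loop_inv]⟩
    · exact ⟨of y, (hν y).trans (uq y t k).symm, hβ y⟩
  obtain ⟨w0, e0⟩ := (hO α c _ (ν.prod β).range hD fun s hs t k =>
    (key s hs t k).imp fun w e => Prod.ext e.1 e.2).2 (by simpa [Ctx.D0] using hW)
  have sj : Function.Surjective β := by
    rw [← MonoidHom.range_eq_top, eq_top_iff, ← (hCh α c).2.2.2.2.1 _ hD, Subgroup.closure_le]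
    rintro _ ⟨s, hs, rfl⟩
    obtain ⟨t, k⟩ := (t3 s hs).1
    obtain ⟨w, -, e⟩ := key s hs t k
    exact ⟨w⁻¹, by rw [map_inv, e, inv_inv]⟩
  have iv : ∀ w, (∀ x, Cg c.r (ν w x) x) ∧
      ∃ m, ν w c.r = m * c.r * m⁻¹ ∧ Cg c.r m (β w)⁻¹ := by
    intro w
    induction w using FreeGroup.induction_on with
    | C1 => exact ⟨fun x => cg_iff.2 (by simp), 1, by simp, cg_iff.2 (by simp)⟩
    | of y =>
      obtain ⟨-, -, a, b, -⟩ := (t3 _ (mo y)).2 _ (hτ y)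
      rw [hν, hβ, inv_inv]
      exact ⟨b, a⟩
    | inv_of y _ =>
      obtain ⟨-, -, a, b, -⟩ := (t3 _ (n3 _ (mo y)).1).2 _ ((t3 _ (mo y)).2 _ (hτ y)).1
      rw [map_inv, map_inv, hν, hβ, inv_inv, ← Dual_loop_inv]
      exact ⟨b, a⟩
    | mul x y hx hy =>
      obtain ⟨a1, m1, b1, c1⟩ := hx
      obtain ⟨a2, m2, b2, c2⟩ := hy
      simp only [cg_iff] at a1 a2 c1 c2 ⊢
      refine ⟨fun z => by rw [map_mul, MulAut.mul_apply, a1, a2], ν x m2 * m1, ?_, ?_⟩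
      · rw [map_mul, MulAut.mul_apply, b2, map_mul, map_mul, map_inv, b1]
        group
      · rw [map_mul, a1, c1, c2, map_mul β, mul_inv_rev, map_mul]
  have nf : ∀ ξ ∈ Xi c.r, ∃ u w, ξ = MulAut.conj u * ν w := by
    intro ξ hξ
    induction hξ using Subgroup.closure_induction with
    | mem ξ h =>
      rcases h with ⟨D, s, a, b, k⟩ | ⟨u, rfl⟩
      · obtain ⟨w, e⟩ := hS α c ν.range (fun s hs t k => (key s hs t k).imp fun _ e => e.1)
          D a s b ξ k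
        exact ⟨1, w, by rw [map_one, one_mul, e]⟩
      · exact ⟨u, 1, by rw [map_one, mul_one]⟩
    | one => exact ⟨1, 1, by simp⟩
    | mul x y _ _ hx hy =>
      obtain ⟨u, w, rfl⟩ := hx
      obtain ⟨u', w', rfl⟩ := hy
      exact ⟨u * ν w u', w * w', by
        rw [map_mul, map_mul, mul_assoc, mul_assoc, ← mul_assoc (ν w), Ker_conj, mul_assoc]⟩
    | inv x _ hx =>
      obtain ⟨u, w, rfl⟩ := hx
      exact ⟨ν w⁻¹ u⁻¹, w⁻¹, by rw [← Ker_conj, mul_inv_rev, map_inv, map_inv]⟩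
  obtain ⟨u, w, rfl⟩ := nf φ hφ
  obtain ⟨a, m, b, d⟩ := iv w
  have cen : ∀ v, v * c.r * v⁻¹ = c.r → ∃ k : ℤ, c.r ^ k = v := fun v e =>
    (cenA α c v (mul_inv_eq_iff_eq_mul.1 e)).resolve_left hW
  have u1 := cg_iff.1 (hu u fun x => by
    have e1 := cg_iff.1 (h2 x)
    rw [MulAut.mul_apply, MulAut.conj_apply, map_mul, map_mul, cg_iff.1 (a x)] at e1
    rw [cg_iff, map_mul, map_mul, e1])
  obtain ⟨k, hk⟩ := cen (u * m) (by
    rw [MulAut.mul_apply, MulAut.conj_apply, b] at h1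
    rw [← h1]
    conv_lhs => rw [h1]
    group)
  have b1 : β w ∈ Subgroup.normalClosure {c.r} := by
    have e1 := congrArg (pj c.r) hk
    rw [map_zpow, pj_r, one_zpow, map_mul, u1, map_one, one_mul, cg_iff.1 d, map_inv, eq_comm,
      inv_eq_one] at e1
    exact (QuotientGroup.eq_one_iff _).1 e1
  rw [← ncl_map (MulEquiv.ofBijective β ⟨hopfSt α β sj, sj⟩) (r := w0)
    (Or.inr (congrArg Prod.snd e0))] at b1
  obtain ⟨w', m1, m2⟩ := b1
  obtain rfl : w' = w := hopfSt α β sj m2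
  have := Ker_normal (G := FreeGroup α)
  obtain ⟨v, hv⟩ := Subgroup.normalClosure_le_normal (N := MulAut.conj.range.comap ν)
    (Set.singleton_subset_iff.2 ⟨c.r⁻¹, (congrArg Prod.fst e0).symm⟩) m1
  rw [← hv, ← map_mul] at h1 ⊢
  obtain ⟨n, hn⟩ := cen _ h1
  exact ⟨n, by rw [← hn, map_zpow]⟩

end Pool.Agent.MI
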