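import Pool.Agent.Lib.MP_c86c76_al.Bi.Defs

/-!
The pushes across the sides of a diagram.
-/

set_option autoImplicit false

namespace Pool.Agent.MI

open Pool.Agent.MB Pool.Agent.MN Pool.Agent.MG Pool.Agent.MT
open FreeGroup hiding map_mul map_inv map_one

/-- The group of the other sides. -/
def Tau_K {G : Type} [Group G] (D : List G) (s : G) : Subgroup G :=
  Subgroup.closure {w | w ∈ D ∧ ¬ Pm w s}

theorem Tau_pm {G : Type} [Group G] {w s : G} : Pm w s⁻¹ ↔ Pm w s := by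
  simp only [Pm, inv_inv, or_comm]

theorem Tau_fix {G : Type} [Group G] {D : List G} {s : G} {τ : MulAut G} (h : Tau D s τ)
    {w : G} (hw : w ∈ Tau_K D s) : τ w = w := by
  induction hw using Subgroup.closure_induction with
  | mem w hw => exact h.2 w hw.1 hw.2
  | one => exact map_one τ
  | mul u v _ _ hu hv => rw [map_mul, hu, hv]
  | inv u _ hu => rw [map_inv, hu]

theorem Tau_split {G : Type} [Group G] {D U V X : List G} {s : G} (hn : D.Nodup)
    (e : D = U ++ s :: V ++ s⁻¹ :: X) :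
    U.prod ∈ Tau_K D s ∧ V.prod ∈ Tau_K D s ∧ X.prod ∈ Tau_K D s ∧
      D.prod = U.prod * s * V.prod * s⁻¹ * X.prod ∧ DualPre D s = U.prod ∧
      DualPre D s⁻¹ = U.prod * s * V.prod := by
  have hp : D.Perm (s :: s⁻¹ :: (U ++ V ++ X)) := by
    rw [e]
    refine List.perm_middle.trans ?_
    rw [List.append_assoc, List.cons_append, List.append_assoc]
    exact (List.perm_middle.cons _).trans (List.Perm.swap _ _ _)
  have h' := hp.nodup_iff.1 hn
  simp only [List.nodup_cons, List.mem_cons, List.mem_append, not_or] at h'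
  have k : ∀ L : List G, (∀ w ∈ L, w ∈ U ∨ w ∈ V ∨ w ∈ X) → L.prod ∈ Tau_K D s := fun L hL =>
    list_prod_mem fun w hw => Subgroup.subset_closure ⟨hp.mem_iff.2 (by
      have := hL w hw
      simp only [List.mem_cons, List.mem_append]
      tauto), by
      have := hL w hw
      rintro (rfl | rfl) <;> tauto⟩
  refine ⟨k _ fun _ h => Or.inl h, k _ fun _ h => Or.inr (Or.inl h),
    k _ fun _ h => Or.inr (Or.inr h), by simp [e, mul_assoc],
    Dual_pre_nodup hn (l2 := V ++ s⁻¹ :: X) (by simp [e]), ?_⟩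
  rw [Dual_pre_nodup hn e]
  simp [mul_assoc]

theorem Tau_basis {α H : Type} [Group H] {r : FreeGroup α} {D : List (FreeGroup α)} (h : Dg r D)
    (f g : FreeGroup α →* H) (e : ∀ w ∈ D, f w = g w) (w : FreeGroup α) : f w = g w := by
  obtain ⟨θ, W, hW, rfl, -⟩ := h
  have : f.comp θ.toMonoidHom = g.comp θ.toMonoidHom := FreeGroup.ext_hom _ _ fun x =>
    e _ (List.mem_map.2 ⟨(x, true), hW.2 _, rfl⟩)
  simpa using DFunLike.congr_fun this (θ⁻¹ w)

theorem Tau_ex {α : Type} [DecidableEq α] {r s p q : FreeGroup α} {D : List (FreeGroup α)}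
    (h : Dg r D) (hs : s ∈ D) (hp : p ∈ Tau_K D s) (hq : q ∈ Tau_K D s) :
    ∃ τ : MulAut (FreeGroup α), τ s = p * s * q ∧ ∀ w ∈ D, ¬ Pm w s → τ w = w := by
  obtain ⟨θ, W, -, rfl, -⟩ := h
  obtain ⟨l, -, rfl⟩ := List.mem_map.1 hs
  have k : ∀ w, w ∈ W.map (fun l => θ (lt l)) ∧ ¬ Pm w (θ (lt l)) → θ⁻¹ w ∈ Fr {l.1} := by
    rintro w ⟨hw, n⟩
    obtain ⟨u, -, rfl⟩ := List.mem_map.1 hw
    rw [MulAut.inv_apply_self]
    refine Dia_mem_Fr fun e => n ?_
    rcases Dia_eq_or_bar e with rfl | rfl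
    · exact Or.inl rfl
    · exact Or.inr (by rw [Dia_lt_bar, map_inv])
  have k' : Tau_K (W.map fun l => θ (lt l)) (θ (lt l)) ≤
      (Fr {l.1}).comap (θ⁻¹ : MulAut _).toMonoidHom := (Subgroup.closure_le _).2 k
  obtain ⟨ψ, k1, -, k2⟩ := ex_aut l (θ⁻¹ p) (θ⁻¹ q) (k' hp) (k' hq)
  refine ⟨θ * ψ * θ⁻¹, by simp [k1], fun w hw n => ?_⟩
  rw [MulAut.mul_apply, MulAut.mul_apply, k2 _ (k w ⟨hw, n⟩), MulAut.apply_inv_self]

theorem tauSt : TauSt := by
  intro α _ _ c D hD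
  obtain ⟨hn, -, hr, hi, -⟩ := (diaSt α c).2.2.2.2 D hD
  have h2 : ∀ φ : MulAut (FreeGroup α), (∀ w ∈ D, Cg c.r (φ w) w) → ∀ w, Cg c.r (φ w) w :=
    fun φ h w => cg_iff.2 (Tau_basis hD ((pj c.r).comp φ.toMonoidHom) (pj c.r)
      (fun w hw => cg_iff.1 (h w hw)) w)
  refine ⟨fun φ ψ h => MulEquiv.ext (Tau_basis hD φ.toMonoidHom ψ.toMonoidHom h), h2,
    fun s hs => ?_⟩
  have rr : c.r ∈ Subgroup.normalClosure {c.r} := Subgroup.subset_normalClosure rfl
  obtain ⟨p, hp, q, hq, e1, e2, e3⟩ : ∃ p ∈ Tau_K D s, ∃ q ∈ Tau_K D s,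
      rot D s⁻¹ = s⁻¹ * (p * s * q) ∧ rot D s = s * q * s⁻¹ * p ∧ ∀ τ, Tau D s τ →
        τ s = p * s * q → ∃ m, τ c.r = m * c.r * m⁻¹ ∧ Cg c.r m (DualLoop D s) := by
    obtain ⟨U, V, X, e | e⟩ := ex_two D s s⁻¹ hs (hi s hs).1 (hi s hs).2.2.1
    · obtain ⟨a1, a2, a3, a4, a5, a6⟩ := Tau_split (U := U) (V := V) (X := X) (s := s) hn
        (by simp [e])
      refine ⟨X.prod * U.prod, mul_mem a3 a1, V.prod, a2, ?_, ?_, fun τ h k =>
        ⟨U.prod * X.prod, ?_, ?_⟩⟩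
      · rw [rot, a4, a6]
        group
      · rw [rot, a4, a5]
        group
      · rw [← hr, a4]
        simp only [map_mul, map_inv, k, Tau_fix h a1, Tau_fix h a2, Tau_fix h a3]
        group
      · rw [Cg, DualLoop, a5, a6]
        convert Subgroup.normalClosure_normal.conj_mem _ rr (U.prod * X.prod) using 1
        rw [← hr, a4]
        group
    · obtain ⟨a1, a2, a3, a4, a5, a6⟩ := Tau_split (U := U) (V := V) (X := X) (s := s⁻¹) hn
        (by simp [e])
      simp only [Tau_K, Tau_pm, inv_inv] at a1 a2 a3 a4 a6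
      refine ⟨V.prod, a2, X.prod * U.prod, mul_mem a3 a1, ?_, ?_, fun τ h k =>
        ⟨(U.prod * X.prod)⁻¹, ?_, ?_⟩⟩
      · rw [rot, a4, a5]
        group
      · rw [rot, a4, a6]
        group
      · rw [← hr, a4]
        simp only [map_mul, map_inv, k, Tau_fix h a1, Tau_fix h a2, Tau_fix h a3]
        group
      · rw [Cg, DualLoop, a5, a6]
        convert inv_mem rr using 1
        rw [← hr, a4]
        group
  have e4 : s * rot D s⁻¹ = p * s * q := by rw [e1, mul_inv_cancel_left]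
  refine ⟨?_, fun τ h => ?_⟩
  · obtain ⟨τ, k⟩ := Tau_ex hD hs hp hq
    exact ⟨τ, k.1.trans e4.symm, k.2⟩
  have k := h.1.trans e4
  refine ⟨⟨?_, fun w hw n => ?_⟩, ?_, e3 τ h k, h2 τ fun w hw => ?_, fun U V X e => ?_⟩
  · rw [MulAut.inv_def, MulEquiv.symm_apply_eq, inv_inv, e2]
    simp only [map_mul, map_inv, k, Tau_fix h hp, Tau_fix h hq]
    group
  · rw [MulAut.inv_def, MulEquiv.symm_apply_eq, h.2 w hw fun k => n (Tau_pm.2 k)]
  · rw [e4, e2]
    simp only [map_mul, map_inv, k, Tau_fix h hp, Tau_fix h hq]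
    group
  · have z : pj c.r (τ s) = pj c.r s := by
      rw [h.1, rot, hr]
      simp [pj_r]
    by_cases n : Pm w s
    · rcases n with rfl | rfl
      · exact cg_iff.2 z
      · exact cg_iff.2 (by rw [map_inv, map_inv, map_inv, z])
    · rw [h.2 w hw n]
      exact cg_iff.2 rfl
  · obtain ⟨a1, a2, a3, a4, -, a6⟩ := Tau_split hn e
    refine ⟨?_, Tau_fix h a1, Tau_fix h a2, Tau_fix h a3⟩
    rw [h.1, rot, a4, a6]
    group

end Pool.Agent.MI
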