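import Pool.Agent.Lib.MP_c86c76_al.Bi.Asm
import Pool.Agent.Lib.MP_c86c76_al.Bi.Cn
import Pool.Agent.Lib.MP_c86c76_al.Bi.Let
import Pool.Agent.Lib.MP_c86c76_al.Bi.Ch
import Pool.Agent.Lib.MP_c86c76_al.Bi.Up
import Pool.Agent.Lib.MP_c86c76_al.Bi.Gap
import Pool.Agent.Lib.MP_c86c76_al.Bi.Tau
import Pool.Agent.Lib.MP_c86c76_al.Bi.Sl
import Pool.Agent.Lib.MP_c86c76_al.Bi.Om
import Pool.Agent.Lib.MP_c86c76_al.Bi.Rel
import Pool.Agent.Lib.MP_c86c76_al.Bi.Arc
import Pool.Agent.Lib.MP_c86c76_al.Bi.Ex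
import Pool.Agent.Lib.MP_c86c76_al.Bi.Sh
import Pool.Agent.Lib.MP_c86c76_al.Bi.Sp
import Pool.Agent.Lib.MP_c86c76_al.Bi.One
import Pool.Agent.Lib.MP_c86c76_al.Bi.Hn
import Pool.Agent.Lib.MP_c86c76_al.Bi.Col
import Pool.Agent.Lib.MP_c86c76_al.Bi.Pin
import Pool.Agent.Lib.MP_c86c76_al.Bi.P1
import Pool.Agent.Lib.MP_c86c76_al.Bi.P2
import Pool.Agent.Lib.MP_c86c76_al.Bi.Ker
import Pool.Agent.Lib.MP_c86c76_al.Bi.Gam
import Pool.Agent.Lib.MP_c86c76_al.Bi.Fin

/-!
The kernels of the maps from the stabiliser of the boundary word to the automorphism group and to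
the outer automorphism group of the surface group.
-/

set_option autoImplicit false

namespace Pool.Agent.MI

open Pool.Agent.MB Pool.Agent.MG Pool.Agent.MT Pool.Agent.Lib.MP_c86c76_al

theorem upA : UpSt := upSt chSt

theorem gapA : GapSt := gapSt chSt upA

theorem omA : OmSt := omSt chSt tauSt

theorem arcA : ArcSt := arcSt chSt tauSt omA relSt

theorem shA : ShSt := shSt cnSt chSt gapA

theorem oneA : OneSt :=
  oneSt cnSt (letSt cnSt) upA gapA relSt arcA shA (spSt cnSt upA gapA exSt shA)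

theorem gamA : GamSt := gamSt (colSt hnSt)

theorem finA : FinSt := finSt chSt relSt arcA shA (colSt hnSt)
  (p1St cnSt relSt arcA shA oneA (pinSt cnSt hnSt)) (p2St cnSt (letSt cnSt) chSt relSt arcA shA oneA)

/-- An element of the stabiliser that is trivial on the surface group is a power of the boundary
twist. -/
theorem birman1 {g : ℕ} (hg : 2 ≤ g) {φ : MulAut (FN (2 * g))}
    (hφ : φ (ev _ (rW g)) = ev _ (rW g)) (hu : ∀ w, Cg (ev _ (rW g)) (φ w) w) :
    φ ∈ Subgroup.zpowers (MulAut.conj (ev (2 * g) (rW g))) := by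
  obtain ⟨h, rfl⟩ : ∃ h, g = h + 1 := ⟨g - 1, by omega⟩
  exact asm_one relSt arcA gamA finA (kerSt chSt tauSt (slSt tauSt) omA) (by omega) hφ hu

/-- The boundary twist. -/
def bt (g : ℕ) : St g := ⟨MulAut.conj (ev _ (rW g)), by
  change MulAut.conj _ _ = _
  rw [MulAut.conj_apply, mul_inv_cancel_right]⟩

theorem ind_ker {g : ℕ} (hg : 2 ≤ g) : (ind (ev (2 * g) (rW g))).ker = Subgroup.zpowers (bt g) := by
  refine le_antisymm (fun φ hφ => ?_) (Subgroup.zpowers_le_of_mem (MulEquiv.ext fun x => ?_))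
  · obtain ⟨k, e⟩ := birman1 hg φ.2 fun w => cg_iff.2 (DFunLike.congr_fun hφ (pj _ w))
    exact ⟨k, Subtype.ext e⟩
  · obtain ⟨w, rfl⟩ := QuotientGroup.mk'_surjective _ x
    change pj _ (MulAut.conj _ w) = pj _ w
    rw [MulAut.conj_apply, map_mul, map_mul, map_inv, pj_r, one_mul, inv_one, mul_one]

theorem ind_cen {g : ℕ} (hg : 2 ≤ g) :
    (ind (ev (2 * g) (rW g))).ker ≤ Subgroup.center (St g) := by
  rw [ind_ker hg]
  refine Subgroup.zpowers_le_of_mem (Subgroup.mem_center_iff.2 fun ψ =>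
    Subtype.ext (MulEquiv.ext fun x => ?_))
  change ψ.1 (MulAut.conj _ x) = MulAut.conj _ (ψ.1 x)
  rw [MulAut.conj_apply, MulAut.conj_apply, map_mul, map_mul, map_inv, show ψ.1 _ = _ from ψ.2]

/-- A subgroup that contains the boundary twist and induces all inner automorphisms contains the
kernel of the map to the outer automorphism group. -/
theorem ker_le {g : ℕ} (hg : 2 ≤ g) (J : Subgroup (St g)) (hc : bt g ∈ J)
    (hJ : ∀ u, ∃ j ∈ J, Inr (ev _ (rW g)) j.1 u) : (toMod g).ker ≤ J := fun φ hφ => by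
  obtain ⟨u, hu⟩ := toMod_one.1 hφ
  obtain ⟨j, m, hj⟩ := hJ u
  have := hj.inv.mul hu
  simp only [inv_mul_cancel] at this
  obtain ⟨k, e⟩ := birman1 hg (j⁻¹ * φ).2 (Inr.one.1 this)
  rw [show φ = j * bt g ^ k by rw [show bt g ^ k = j⁻¹ * φ from Subtype.ext e, mul_inv_cancel_left]]
  exact mul_mem m (zpow_mem hc k)

/-- The kernel of the map to the outer automorphism group is the normal closure of one push and of
the boundary twist. -/
theorem birman2 {h : ℕ} (h1 : 1 ≤ h) {p : St (h + 1)} (hp : IsPush h p.1) :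
    (toMod (h + 1)).ker = Subgroup.normalClosure {p, bt (h + 1)} := by
  refine le_antisymm (ker_le (by omega) _ (Subgroup.subset_normalClosure (Or.inr rfl))
    (push_onto _ hp (Subgroup.subset_normalClosure (Or.inl rfl))))
    (Subgroup.normalClosure_le_normal ?_)
  rintro _ (rfl | rfl)
  · exact toMod_one.2 ⟨_, hp.inr⟩
  · exact toMod_one.2 ⟨_, Inr.conj _ _⟩

end Pool.Agent.MI
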