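import Pool.Agent.Lib.MP_c86c76_al.T.Lam

/-!
Definitions and statements for the kernel of the map from the stabiliser of the boundary word to
the automorphism group of the surface group.
-/

set_option autoImplicit false

namespace Pool.Agent.MI

open Pool.Agent.MB Pool.Agent.MN Pool.Agent.MG Pool.Agent.MT
open FreeGroup hiding map_mul map_inv map_one

section Grp

variable {G : Type} [Group G]

/-- The cyclic rotation of the product that starts at `s`. -/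
noncomputable def rot (D : List G) (s : G) : G := (DualPre D s)⁻¹ * D.prod * DualPre D s

/-- The hole is pushed across the side `s`. -/
def Tau (D : List G) (s : G) (τ : MulAut G) : Prop :=
  τ s = s * rot D s⁻¹ ∧ ∀ w ∈ D, ¬ Pm w s → τ w = w

/-- Congruence modulo the normal closure of `r`. -/
def Cg (r u v : G) : Prop := u * v⁻¹ ∈ Subgroup.normalClosure {r}

/-- Conjugate up to inverse. -/
def Cv (y z : G) : Prop := IsConj y z ∨ IsConj y⁻¹ z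

open Classical in
/-- `r` or `1`. -/
noncomputable def ee (r : G) (P : Prop) : G := if P then r else 1

/-- The projection to the one-relator group. -/
def pj (r : G) : G →* OneRel r := QuotientGroup.mk' _

theorem pj_r (r : G) : pj r r = 1 :=
  (QuotientGroup.eq_one_iff _).2 (Subgroup.subset_normalClosure rfl)

theorem cg_iff {r u v : G} : Cg r u v ↔ pj r u = pj r v := by
  rw [← mul_inv_eq_one, ← map_inv, ← map_mul]
  exact (QuotientGroup.eq_one_iff _).symm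

theorem Cg.conj {r r' u v : G} (h : Cg r u v) (k : IsConj r r') : Cg r' u v := by
  obtain ⟨g, e⟩ := isConj_iff.1 k.symm
  have : Subgroup.normalClosure {r} ≤ Subgroup.normalClosure {r'} :=
    Subgroup.normalClosure_le_normal (Set.singleton_subset_iff.2 (e ▸
      Subgroup.normalClosure_normal.conj_mem r'
        (Subgroup.subset_normalClosure (Set.mem_singleton r')) g))
  exact this h

theorem Cg.hom {H : Type} [Group H] {r u v : G} (h : Cg r u v) (f : G →* H) (hf : f r = 1) :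
    f u = f v := by
  have : Subgroup.normalClosure {r} ≤ f.ker := Subgroup.normalClosure_le_normal (by
    rintro _ rfl
    exact hf)
  rw [← mul_inv_eq_one, ← map_inv, ← map_mul]
  exact this h

theorem ee_pos {r : G} {P : Prop} (h : P) : ee r P = r := if_pos h

theorem ee_neg {r : G} {P : Prop} (h : ¬ P) : ee r P = 1 := if_neg h

end Grp

section Free

variable {α : Type}

theorem Cg.ch {r u v : FreeGroup α} (h : Cg r u v) (hr : Null r) (a : α → ℤ) :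
    ch a u = ch a v := by
  have := (om_ncl hr h).1 a
  rw [ch_mul, ch_inv] at this
  omega

/-- Diagrams of `r`; `IsD c D` is `Dg c.r D` by definition. -/
def Dg (r : FreeGroup α) (D : List (FreeGroup α)) : Prop :=
  ∃ (θ : MulAut (FreeGroup α)) (W : List (α × Bool)),
    Full W ∧ D = W.map (fun l => θ (lt l)) ∧ D.prod = r

/-- `y` is the first side of a diagram. -/
def Hd (r y : FreeGroup α) : Prop := ∃ E, Dg r (y :: E)

/-- The group generated by the pushes and the inner automorphisms. -/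
def Xi (r : FreeGroup α) : Subgroup (MulAut (FreeGroup α)) :=
  Subgroup.closure {τ | (∃ D s, Dg r D ∧ s ∈ D ∧ Tau D s τ) ∨ ∃ u, τ = MulAut.conj u}

/-- Equivalent arcs. -/
def Rel (r y r' y' : FreeGroup α) : Prop :=
  ∃ ξ ∈ Xi r, ξ r = r' ∧ (ξ y = y' ∨ ξ y = y'⁻¹ * r')

variable [DecidableEq α]

/-- The number of letters `x`, `x⁻¹`. -/
def cn (x : α) (w : FreeGroup α) : ℕ := w.toWord.countP fun l => l.1 = x

/-- The reduced word starts with `s`. -/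
def Hs (s : α × Bool) (w : FreeGroup α) : Prop := w.toWord.head? = some s

/-- A pinch. -/
def Pin (s : α × Bool) (T w : FreeGroup α) : Prop := ∃ (g f : FreeGroup α) (m : ℤ),
  w = g⁻¹ * lt s * T ^ m * (lt s)⁻¹ * f ∧ cn s.1 w = cn s.1 g + cn s.1 f + 2

/-- All strands of `y` through the letter `l` start at `X`. -/
def Exc (l : α × Bool) (X y : FreeGroup α) : Prop :=
  ∀ g w, Pm w y → ¬ Hs l g → Hs l (g * w) → g = X

end Free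

/-- Counting letters. -/
def CnSt : Prop := ∀ (α : Type) [DecidableEq α],
  (∀ (x : α) u v, cn x (u * v) ≤ cn x u + cn x v) ∧
  (∀ (x : α) u, cn x u⁻¹ = cn x u) ∧
  (∀ (x : α) u, cn x u = 0 ↔ u ∈ Fr {x}) ∧
  (∀ (x : α) u f, f ∈ Fr {x} → cn x (u * f) = cn x u ∧ cn x (f * u) = cn x u) ∧
  (∀ s : α × Bool, cn s.1 (lt s) = 1 ∧ Hs s (lt s) ∧ ¬ Hs s 1) ∧
  (∀ (s : α × Bool) w, Hs s w → cn s.1 ((lt s)⁻¹ * w) + 1 = cn s.1 w) ∧
  (∀ (s : α × Bool) w, ¬ Hs s w → cn s.1 ((lt s)⁻¹ * w) = cn s.1 w + 1) ∧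
  (∀ (x : α) (s : α × Bool) p q, ¬ Hs s p → Hs s q → cn x (p⁻¹ * q) = cn x p + cn x q) ∧
  (∀ (s : α × Bool) y, cn s.1 y ≠ 0 → ∃ g w, Pm w y ∧ ¬ Hs s g ∧ Hs s (g * w)) ∧
  ∀ (s : α × Bool) w, ∃ h ∈ Fr {s.1}, ∃ L : List (ℤˣ × FreeGroup α), (∀ p ∈ L, p.2 ∈ Fr {s.1}) ∧
    w = h * (L.map fun p => lt s ^ (p.1 : ℤ) * p.2).prod ∧ L.length = cn s.1 w

/-- Conjugates of a letter and the exceptional arcs. -/
def LetSt : Prop := ∀ (α : Type) [DecidableEq α] (l : α × Bool),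
  (∀ z, Hs l z → cn l.1 ((lt l)⁻¹ * z * lt l) = cn l.1 z → Cv (lt l) z → z = lt l) ∧
  (∀ X f, X ∈ Fr {l.1} → f ∈ Fr {l.1} → Cv (lt l) (X⁻¹ * lt l * f) → f = X) ∧
  ∀ X y, X ∈ Fr {l.1} → Exc l X y → cn l.1 y ≠ 0 → (∃ f ∈ Fr {l.1}, Pm y (X⁻¹ * lt l * f)) ∨
    cn l.1 ((X⁻¹ * lt l)⁻¹ * y * (X⁻¹ * lt l)) < cn l.1 y

/-- The order of the sides of a diagram. -/
def ChSt : Prop := ∀ (α : Type) [DecidableEq α] [Fintype α] (c : Ctx α),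
  (∀ a E (Q : FreeGroup α → Prop), IsD c (a :: E) → Q a →
    (∀ t u, Adj (a :: E) t⁻¹ u → Q t → Q u) → ∀ s ∈ a :: E, Q s) ∧
  (∀ a E, IsD c (a :: E) → ∀ s ∈ E, Lo c.ρ s a) ∧
  (∀ D t u, IsD c D → Adj D t⁻¹ u → ∀ w ∈ D, (Lo c.ρ u w ↔ w = t ∨ Lo c.ρ t w)) ∧
  (∀ E z, IsD c (E ++ [z]) → ∀ w ∈ E ++ [z], w = z⁻¹ ∨ Lo c.ρ z⁻¹ w) ∧
  (∀ D, IsD c D → Subgroup.closure (DualLoop D '' {s | s ∈ D}) = ⊤) ∧
  ∀ (θ : MulAut (FreeGroup α)) W, Full W → θ (mk W) = c.r → ∃ c' : Ctx α, c'.W = W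

/-- The order on the free group. -/
def UpSt : Prop := ∀ (α : Type) [DecidableEq α] [Fintype α] (c : Ctx α),
  (∀ u v, u ≠ v → Lo c.ρ u v ∨ Lo c.ρ v u) ∧
  (∀ U g h, U <+: c.W → U <+: g.toWord → Lo c.ρ g h → U <+: h.toWord) ∧
  (∀ h, ¬ Lo c.ρ c.r h) ∧
  ∀ l W g h, c.W = l :: W → ¬ Hs l g → Hs l h → Lo c.ρ g h

/-- Translates of sides do not cross. -/
def GapSt : Prop := ∀ (α : Type) [DecidableEq α] [Fintype α] (c : Ctx α) (D : List (FreeGroup α)),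
  IsD c D → (∀ A E g, D = A ++ E → ∀ w ∈ D, ¬ (Lo c.ρ g A.prod ∧ Lo c.ρ A.prod (g * w))) ∧
    ∀ g h, ∀ w ∈ D, ∀ w' ∈ D, ¬ (Cyc c.ρ g h (g * w) ∧ Cyc c.ρ g (g * w) (h * w'))

/-- The pushes. -/
def TauSt : Prop := ∀ (α : Type) [DecidableEq α] [Fintype α] (c : Ctx α) (D : List (FreeGroup α)),
  IsD c D → (∀ φ ψ : MulAut (FreeGroup α), (∀ w ∈ D, φ w = ψ w) → φ = ψ) ∧
    (∀ φ : MulAut (FreeGroup α), (∀ w ∈ D, Cg c.r (φ w) w) → ∀ w, Cg c.r (φ w) w) ∧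
    ∀ s ∈ D, (∃ τ, Tau D s τ) ∧ ∀ τ, Tau D s τ → Tau D s⁻¹ τ⁻¹ ∧
      τ (rot D s) = s * rot D s⁻¹ * s⁻¹ ∧
      (∃ m, τ c.r = m * c.r * m⁻¹ ∧ Cg c.r m (DualLoop D s)) ∧ (∀ w, Cg c.r (τ w) w) ∧
      ∀ U V X, D = U ++ s :: V ++ s⁻¹ :: X → τ s = X.prod * U.prod * s * V.prod ∧
        τ U.prod = U.prod ∧ τ V.prod = V.prod ∧ τ X.prod = X.prod

/-- The pushes of the base diagram generate all pushes. -/
def SlSt : Prop := ∀ (α : Type) [DecidableEq α] [Fintype α] (c : Ctx α)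
  (J : Subgroup (MulAut (FreeGroup α))), (∀ s ∈ c.D0, ∀ τ, Tau c.D0 s τ → τ ∈ J) →
  ∀ D, IsD c D → ∀ s ∈ D, ∀ τ, Tau D s τ → τ ∈ J

/-- The hole goes round the vertex. -/
def OmSt : Prop := ∀ (α : Type) [DecidableEq α] [Fintype α] (c : Ctx α) (D : List (FreeGroup α))
  (Γ : Subgroup (MulAut (FreeGroup α) × FreeGroup α)), IsD c D →
  (∀ s ∈ D, ∀ τ, Tau D s τ → (τ, (DualLoop D s)⁻¹) ∈ Γ) →
  (∀ s ∈ D, ∃ ξ, (ξ, (DualPre D s)⁻¹) ∈ Γ ∧ ξ (rot D s) = c.r ∧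
    ∀ w ∈ D, ξ w = (ee c.r (Lo c.ρ s w))⁻¹ * w * ee c.r (Lo c.ρ s w⁻¹)) ∧
  (D ≠ [] → (MulAut.conj c.r⁻¹, c.r⁻¹) ∈ Γ)

/-- Formal properties of the equivalence. -/
def RelSt : Prop := ∀ α : Type,
  (∀ (θ : MulAut (FreeGroup α)) r D, Dg r D → Dg (θ r) (D.map θ)) ∧
  (∀ (θ : MulAut (FreeGroup α)) r y, Hd r y → Hd (θ r) (θ y)) ∧
  (∀ (r ζ : FreeGroup α) (A E : List (FreeGroup α)), Dg r (A ++ ζ :: E) →
    Hd r (A.prod * ζ * A.prod⁻¹)) ∧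
  (∀ (θ : MulAut (FreeGroup α)) r, ∀ ξ ∈ Xi r, θ * ξ * θ⁻¹ ∈ Xi (θ r)) ∧
  (∀ r u : FreeGroup α, MulAut.conj u ∈ Xi r) ∧
  (∀ r y r' y' : FreeGroup α, Rel r y r' y' → Rel r' y' r y) ∧
  (∀ r y r' y' r'' y'' : FreeGroup α, Rel r y r' y' → Rel r' y' r'' y'' → Rel r y r'' y'') ∧
  (∀ r y u r' y' : FreeGroup α, r' = u⁻¹ * r * u → y' = u⁻¹ * y * u → Rel r y r' y') ∧
  (∀ r y : FreeGroup α, Rel r y r (y⁻¹ * r)) ∧
  ∀ (θ : MulAut (FreeGroup α)) r y r' y', Rel r y r' y' → Rel (θ r) (θ y) (θ r') (θ y')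

/-- The equivalence and the diagrams. -/
def ArcSt : Prop := ∀ (α : Type) [DecidableEq α] [Fintype α] (c : Ctx α),
  (∀ ξ ∈ Xi c.r, IsConj c.r (ξ c.r) ∧ ∃ u, ∀ w, Cg c.r (ξ w) (u * w * u⁻¹)) ∧
  (∀ y ζ (A E : List (FreeGroup α)), Hd c.r y → IsD c (A ++ ζ :: E) → Pm ζ y →
    Rel c.r y c.r (A.prod * ζ * A.prod⁻¹)) ∧
  (∀ y r' y', Hd c.r y → Rel c.r y r' y' → Hd r' y') ∧
  (∀ y, Hd c.r y → ¬ Hd c.r y⁻¹) ∧
  (∀ y r' y', Rel c.r y r' y' → ∃ u, Cg c.r y' (u * y * u⁻¹) ∨ Cg c.r y' (u * y⁻¹ * u⁻¹)) ∧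
  (∀ a, Hd c.r a → ∃ ξ ∈ Xi c.r, (∀ w, Cg c.r (ξ w) w) ∧ ξ a = a ∧ ξ c.r = a * c.r * a⁻¹) ∧
  ∀ a (V X : List (FreeGroup α)), IsD c (a :: V ++ a⁻¹ :: X) → Rel c.r a c.r (X.prod⁻¹ * a⁻¹ * X.prod)

/-- A side is replaced by a diagonal. -/
def ExSt : Prop := ∀ (α : Type) [DecidableEq α] (r s d : FreeGroup α)
  (A B E : List (FreeGroup α)), Dg r (A ++ s :: B ++ s⁻¹ :: E) →
  (d = A.prod * s * B.prod → Dg r (d :: B ++ d⁻¹ :: A ++ E)) ∧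
  (d = B.prod * s⁻¹ * E.prod → Dg r (A ++ E ++ d⁻¹ :: B ++ [d]))

/-- The shape of the base word. -/
def ShSt : Prop := ∀ (α : Type) [DecidableEq α] [Fintype α] (c : Ctx α) (l : α × Bool)
  (V X : List (α × Bool)), c.W = l :: V ++ bar l :: X →
  c.r = lt l * mk V * (lt l)⁻¹ * mk X ∧ mk V ∈ Fr {l.1} ∧ mk X ∈ Fr {l.1} ∧ mk V ≠ 1 ∧ mk X ≠ 1 ∧
    (∃ c' : Ctx α, c'.W = bar l :: X ++ bar (bar l) :: V) ∧
    ∀ D g f (m : ℤ), IsD c D → ∀ w ∈ D, ¬ Hs l g → ¬ Hs l f →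
      g * w = lt l * mk V ^ m * (lt l)⁻¹ * f → m < 2

/-- The strand next to the hole. -/
def SpSt : Prop := ∀ (α : Type) [DecidableEq α] [Fintype α] (c : Ctx α) (l : α × Bool)
  (V X : List (α × Bool)), c.W = l :: V ++ bar l :: X → ∀ D y, IsD c D → y ∈ D →
  (∃ (A : List (FreeGroup α)), ∃ ζ E, IsD c (A ++ ζ :: E) ∧ Pm ζ y ∧ ¬ Hs l A.prod ∧
    Hs l (A.prod * ζ)) ∨ Exc l (mk X) y

/-- One step. -/
def OneSt : Prop := ∀ (α : Type) [DecidableEq α] [Fintype α] (c c' : Ctx α) (l : α × Bool)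
  (V X : List (α × Bool)), c.W = l :: V ++ bar l :: X → c'.W = bar l :: X ++ bar (bar l) :: V →
  ∀ y, Hd c.r y →
  (cn l.1 y ≠ 0 →
    (∃ z, Cv y z ∧ Rel c.r y c.r z ∧ (cn l.1 z < cn l.1 y ∨
      (cn l.1 z = cn l.1 y ∧ Hs l z ∧ cn l.1 ((lt l)⁻¹ * z * lt l) = cn l.1 z))) ∨
    (∃ z, Cv y z ∧ Rel c.r y c'.r z ∧ cn l.1 z < cn l.1 y) ∨
    ∃ f ∈ Fr {l.1}, Pm y ((mk X)⁻¹ * lt l * f)) ∧
  (Pin l (mk V) y → ∃ z, (Rel c.r y c.r z ∨ Rel c.r y c'.r z) ∧ cn l.1 z < cn l.1 y)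

/-- The one-relator group inside an HNN extension. -/
def HnSt : Prop := ∀ (α : Type) [DecidableEq α] (l : α × Bool) (V X : FreeGroup α),
  V ∈ Fr {l.1} → X ∈ Fr {l.1} → V ≠ 1 → X ≠ 1 →
  ∃ (φ : Subgroup.zpowers V ≃* Subgroup.zpowers X)
    (Ψ : FreeGroup α →* HNNExtension (FreeGroup α) (Subgroup.zpowers V) (Subgroup.zpowers X) φ),
    Ψ (lt l) = HNNExtension.t ∧ (∀ f ∈ Fr {l.1}, Ψ f = HNNExtension.of f) ∧
    Ψ (lt l * V * (lt l)⁻¹ * X) = 1 ∧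
    ∀ u f, Ψ u = HNNExtension.of f → ∃ f' ∈ Fr {l.1}, Cg (lt l * V * (lt l)⁻¹ * X) u f'

/-- The base group embeds; conjugacy of elements of the base group. -/
def ColSt : Prop := ∀ (α : Type) [DecidableEq α] (l : α × Bool) (V X r : FreeGroup α),
  V ∈ Fr {l.1} → X ∈ Fr {l.1} → V ≠ 1 → X ≠ 1 → r = lt l * V * (lt l)⁻¹ * X →
  ∀ f ∈ Fr {l.1}, ∀ f' ∈ Fr {l.1}, (Cg r f f' → f = f') ∧
    ∀ u, Cg r (u * f * u⁻¹) f' → (∃ u' ∈ Fr {l.1}, Cg r u u') ∨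
      ∃ k : ℤ, IsConj (V ^ k) f' ∨ IsConj (X ^ k) f'

/-- A cyclically reduced word that is conjugate into the base group has a pinch. -/
def PinSt : Prop := ∀ (α : Type) [DecidableEq α] (l : α × Bool) (V X r : FreeGroup α),
  V ∈ Fr {l.1} → X ∈ Fr {l.1} → V ≠ 1 → X ≠ 1 → r = lt l * V * (lt l)⁻¹ * X →
  ∀ z u, ∀ f ∈ Fr {l.1}, Hs l z → cn l.1 ((lt l)⁻¹ * z * lt l) = cn l.1 z →
    Cg r (u * z * u⁻¹) f → Pin l V z ∨ Pin (bar l) X (V⁻¹ * ((lt l)⁻¹ * z * lt l) * V)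

/-- The first phase. -/
def P1St : Prop := ∀ (α : Type) [DecidableEq α] [Fintype α] (c c' : Ctx α) (l : α × Bool)
  (V X : List (α × Bool)), c.W = l :: V ++ bar l :: X → c'.W = bar l :: X ++ bar (bar l) :: V →
  ∀ y u, ∀ f ∈ Fr {l.1}, Hd c.r y → Cg c.r (u * y * u⁻¹) f →
    ∃ z ∈ Fr {l.1}, Rel c.r y c.r z ∨ Rel c.r y c'.r z

/-- The second phase. -/
def P2St : Prop := ∀ (α : Type) [DecidableEq α] [Fintype α] (c : Ctx α) (m y : FreeGroup α),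
  Hd c.r m → Hd c.r y → Cv m y → Rel c.r y c.r m

/-- The structure of the group of pushes. -/
def KerSt : Prop := ∀ (α : Type) [DecidableEq α] [Fintype α] (c : Ctx α),
  (∀ u, (∀ w, Cg c.r (u * w * u⁻¹) w) → Cg c.r u 1) → ∀ φ ∈ Xi c.r, φ c.r = c.r →
  (∀ w, Cg c.r (φ w) w) → φ ∈ Subgroup.zpowers (MulAut.conj c.r)

/-- The boundary word of genus `h + 1`. -/
abbrev rr (h : ℕ) : FN (2 * h + 2) := ev (2 * h + 2) (rW (h + 1))

/-- Its first letter. -/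
abbrev aa (h : ℕ) : FN (2 * h + 2) := io (2 * h + 2) (2 * h)

/-- The stabiliser of the first arc. -/
def GamSt : Prop := ∀ h, 1 ≤ h →
  (∀ γ ∈ Gam h, (∀ w, Cg (rr h) (γ w) w) → γ = 1) ∧
  (∀ γ ∈ Gam h, ∀ u, (∀ w, Cg (rr h) (γ w) (u * w * u⁻¹)) → ∃ k : ℤ, Cg (rr h) u (aa h ^ k)) ∧
  ∀ u, (∀ w, Cg (rr h) (u * w * u⁻¹) w) → Cg (rr h) u 1

/-- Arcs that are freely homotopic to the first arc in the closed surface. -/
def FinSt : Prop := ∀ h, 1 ≤ h → ∀ y u, Hd (rr h) y → Cg (rr h) (u * y * u⁻¹) (aa h) →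
  Rel (rr h) y (rr h) (aa h)

end Pool.Agent.MI
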